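import Pool.Agent.Helper46.SV.Leaves
import Pool.Agent.Helper40.SV.HMax

/-!
# `L1A` and `HMax`
-/

set_option autoImplicit false

namespace Pool.Agent.Helper46.SV

open Pool.Agent.Helper94.SV.Frame (MaxLaw)
open Pool.Agent.Helper94.SV.JPrime (HMax)
open Pool.Agent.Helper40.SV (L1A hmax_of_L1A)

universe u

/-- the step L1a, proved -/
theorem l1A : L1A.{u} := fun _ _ hS _ hE a ha b hb c hc d hd hexc had =>
  RJ.l1a (noD16_of hS) hE (fun _ hx _ hy => c2_mem_of_max (noD16_of hS) hE hx hy) a ha b hb c hc d hd hexc had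

/-- **`HMax`** -/
theorem hmax : HMax.{u} := hmax_of_L1A l1A

end Pool.Agent.Helper46.SV
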