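import Pool.Agent.Helper46.SV.NoSecE
import Pool.Agent.Helper94.SV.JPrime

/-!
# `HP3`: without sections `D₁₆`, `SD₁₆` one has `(x y z)⁴ = 1` on every `DLaw` set
-/

set_option autoImplicit false

open Subgroup

namespace Pool.Agent.Helper46.SV

open Pool.Agent.Helper94.SV.Frame (c2 DLaw MaxLaw NoLF LF Thin pow_of_four)
open Pool.Agent.Helper94.SV.Sec (No16 Is16 grp card_grp)
open Pool.Agent.Helper94.SV.JPrime (HP3 HS3b)
open Pool.Agent.Helper89.SV (P3)

universe u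

theorem is16_of {k : ℕ} {Q : Type u} [Group Q] {s t : Q} (hst : closure {s, t} = ⊤)
    (hs : orderOf s = 8) (ht : t * t = 1) (h : t * s * t = s ^ k) (hk : ¬ (s ^ k = s)) : Is16 k Q := by
  have h8 : s ^ 8 = 1 := by
    rw [← hs]
    exact pow_orderOf_eq_one s
  refine ⟨?_, s, t, hs, ht, h⟩
  have h1 := card_grp ht h h8 hs hk
  have h2 : grp ht h h8 = ⊤ := by
    rw [eq_top_iff, ← hst, closure_le]
    rintro x (rfl | rfl)
    · exact ⟨1, Or.inl (pow_one _).symm⟩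
    · exact ⟨0, Or.inr (by simp)⟩
  rw [h2] at h1
  rw [← h1]
  exact (Nat.card_congr Subgroup.topEquiv.toEquiv).symm

theorem ne_of_order {Q : Type u} [Group Q] {s : Q} (hs : orderOf s = 8) {m : ℕ} (hm : 0 < m) (hm8 : m < 8) :
    ¬ (s ^ (m + 1) = s) := by
  intro h
  have h1 : s ^ m = 1 := by
    rw [pow_succ] at h
    exact mul_eq_right.mp h
  have h2 := orderOf_dvd_of_pow_eq_one h1
  rw [hs] at h2
  exact absurd (Nat.le_of_dvd hm h2) (by omega)

theorem noD16_of {G : Type u} [Group G] (hG : Pool.Agent.Helper94.SV.Sec.NoD16 G) : NoD16 G := by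
  rintro Q _ H f hf ⟨s, t, h1, h2, h3, h4⟩
  have h8 : s ^ 8 = 1 := by
    rw [← h2]
    exact pow_orderOf_eq_one s
  refine No16.surj (k := 7) hG H f hf (is16_of h1 h2 h3 ?_ (ne_of_order h2 (m := 6) (by norm_num) (by norm_num)))
  rw [h4]
  apply inv_eq_of_mul_eq_one_left
  rw [← pow_succ]
  exact h8

theorem noSD16_of {G : Type u} [Group G] (hG : Pool.Agent.Helper94.SV.Sec.NoSD16 G) : NoSD16 G := by
  rintro Q _ H f hf ⟨s, t, h1, h2, h3, h4⟩
  exact No16.surj (k := 3) hG H f hf (is16_of h1 h2 h3 h4 (ne_of_order h2 (m := 2) (by norm_num) (by norm_num)))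

theorem dl_of {G : Type u} [Group G] {E : Set G} (hE : DLaw E) : TE.DL E :=
  ⟨hE.inv, hE.conj, fun x hx y hy => pow_of_four (hE.four x hx y hy)⟩

/-- **HP3** -/
theorem hp3 : HP3.{u} := by
  intro Q _ h1 h2 E hE a ha b hb c hc
  exact p3_of_noSec_E (noD16_of h1) (noSD16_of h2) (dl_of hE) ha hb hc

/-- without sections `D₁₆`: P3 or exceptional, for `DLaw` sets -/
theorem p3_or_exc_of {G : Type u} [Group G] (h1 : Pool.Agent.Helper94.SV.Sec.NoD16 G) {E : Set G}
    (hE : DLaw E) {a b c : G} (ha : a ∈ E) (hb : b ∈ E) (hc : c ∈ E) :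
    (a * b * c) ^ 4 = 1 ∨ ExcAny a b c :=
  p3_or_exc (law_of_noD16 (noD16_of h1) (dl_of hE)) (noD16_of h1) ha hb hc

end Pool.Agent.Helper46.SV
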