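import Pool.Agent.Helper46.SV.HP3

/-!
# A maximal `DLaw` set of a group without sections `D₁₆` is closed under commuting products and commutators
-/

set_option autoImplicit false

open Subgroup

namespace Pool.Agent.Helper46.SV

open Pool.Agent.Helper94.SV.Frame (c2 DLaw MaxLaw NoLF LF Thin pow_of_four four_of_pow mem_of_class)

universe u

section basic

variable {G : Type u} [Group G]

/-- `(a b s)⁸ = 1` -/
theorem abs_eight {a b s : G} (haa : a * a = 1) (hbb : b * b = 1) (hss : s * s = 1) (hab : Commute a b)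
    (h1 : Commute a (cj a s)) (h2 : Commute b (cj b s)) (h3 : (a * cj b s) ^ 4 = 1)
    (h4 : (b * cj a s) ^ 4 = 1) : (a * b * s) ^ 8 = 1 := by
  have has := cj_sq haa hss
  have hbs := cj_sq hbb hss
  have h5 : Commute (cj a s) (cj b s) := cj_comm hss hab
  have e1 : (a * b * s) ^ 2 = (a * cj b s) * (b * cj a s) := by
    have i1 : (a * b * s) ^ 2 = a * b * (cj a s * cj b s) := by
      rw [← cj_mul hss]
      simp only [cj, pow_two, mul_assoc]
    rw [i1, h5.eq]
    have i2 : b * (cj b s * cj a s) = cj b s * (b * cj a s) := by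
      rw [← mul_assoc, h2.eq, mul_assoc]
    rw [mul_assoc, i2, mul_assoc]
  have hA : Commute (a * cj b s) (b * cj a s) :=
    (hab.mul_right h1).mul_left (h2.symm.mul_right h5.symm)
  have e2 : (a * b * s) ^ 8 = ((a * b * s) ^ 2) ^ 4 := by rw [← pow_mul]
  rw [e2, e1, hA.mul_pow, h3, h4, one_mul]

/-- an involution `s` with `(s x)⁴ = 1` on `E` -/
structure SL (E : Set G) (s : G) : Prop where
  inv : s * s = 1
  four : ∀ x ∈ E, (s * x) ^ 4 = 1

/-- products of two commuting elements of `E` are compatible with all S-letters -/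
theorem sl_mul (hS : NoD16 G) {E : Set G} (h : TE.DL E) {s : G} (hs : SL E s) {a b : G} (ha : a ∈ E)
    (hb : b ∈ E) (hab : Commute a b) : (a * b * s) ^ 4 = 1 := by
  have haa := h.inv a ha
  have hbb := h.inv b hb
  refine four_of_inv8 hS (mul_sq_comm hab haa hbb) hs.inv ?_
  refine abs_eight haa hbb hs.inv hab ?_ ?_ ?_ ?_
  · exact TE.comm_cj haa hs.inv (TE.four_symm hs.inv (hs.four a ha))
  · exact TE.comm_cj hbb hs.inv (TE.four_symm hs.inv (hs.four b hb))
  · exact h.four a ha _ (h.cj hb hs.inv)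
  · exact h.four b hb _ (h.cj ha hs.inv)

theorem sl_of_mem {E : Set G} (h : TE.DL E) {x : G} (hx : x ∈ E) : SL E x :=
  ⟨h.inv x hx, fun y hy => h.four x hx y hy⟩

theorem sl_of_mul (hS : NoD16 G) {E : Set G} (h : TE.DL E) {a b : G} (ha : a ∈ E) (hb : b ∈ E)
    (hab : Commute a b) : SL E (a * b) :=
  ⟨mul_sq_comm hab (h.inv a ha) (h.inv b hb), fun _ hx => sl_mul hS h (sl_of_mem h hx) ha hb hab⟩

/-- a maximal `DLaw` set of a group without sections `D₁₆` is closed under commuting products -/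
theorem mul_mem_of_max (hS : NoD16 G) {E : Set G} (hE : MaxLaw E) {a b : G} (ha : a ∈ E) (hb : b ∈ E)
    (hab : Commute a b) : a * b ∈ E := by
  have h := dl_of hE.law
  have hs := sl_of_mul hS h ha hb hab
  refine mem_of_class hE hs.inv ?_ ?_
  · intro d hd
    exact four_of_pow (hs.four d hd)
  · intro g
    apply four_of_pow
    have e : g * (a * b) * g⁻¹ = (g * a * g⁻¹) * (g * b * g⁻¹) := by group
    rw [e]
    have hc : Commute (g * a * g⁻¹) (g * b * g⁻¹) := by
      show g * a * g⁻¹ * (g * b * g⁻¹) = g * b * g⁻¹ * (g * a * g⁻¹)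
      have i1 : g * a * g⁻¹ * (g * b * g⁻¹) = g * (a * b) * g⁻¹ := by group
      have i2 : g * b * g⁻¹ * (g * a * g⁻¹) = g * (b * a) * g⁻¹ := by group
      rw [i1, i2, hab.eq]
    exact sl_mul hS h (sl_of_mul hS h (h.conj g a ha) (h.conj g b hb) hc) ha hb hab

/-- ... and under commutators -/
theorem c2_mem_of_max (hS : NoD16 G) {E : Set G} (hE : MaxLaw E) {a b : G} (ha : a ∈ E) (hb : b ∈ E) :
    c2 a b ∈ E := by
  have h := dl_of hE.law
  have hc : Commute a (cj a b) := TE.ec h ha hb
  have h1 := mul_mem_of_max hS hE ha (TE.ej h ha hb) hc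
  rwa [← kk_eq] at h1

/-- an involution of a finite 2-subgroup generated by ... : the absorption rule for S-letters -/
theorem mem_of_sl (hS : NoD16 G) {E : Set G} (hE : MaxLaw E) {z : G} (hz : z * z = 1) {n m : ℕ}
    (h1 : ∀ d ∈ E, (z * d) ^ (2 ^ n) = 1) (h2 : ∀ g : G, (z * (g * z * g⁻¹)) ^ (2 ^ m) = 1) : z ∈ E := by
  have key : ∀ (k : ℕ) (p q : G), p * p = 1 → q * q = 1 → (p * q) ^ (2 ^ k) = 1 → (p * q) ^ 4 = 1 := by
    intro k p q hp hq hk
    by_contra hne
    obtain ⟨r, hr, hr2⟩ := (Nat.dvd_prime_pow Nat.prime_two).mp (orderOf_dvd_of_pow_eq_one hk)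
    have hr3 : 3 ≤ r := by
      by_contra hlt
      apply hne
      have i1 : orderOf (p * q) ∣ 4 := by
        rw [hr2]
        have : r ≤ 2 := by omega
        exact (pow_dvd_pow 2 this)
      exact orderOf_dvd_iff_pow_eq_one.mp i1
    set t := (p * q) ^ (2 ^ (r - 3)) with ht
    have ht8 : orderOf t = 8 := by
      rw [ht, orderOf_pow_of_dvd (by positivity) (by rw [hr2]; exact pow_dvd_pow 2 (by omega)), hr2,
        Nat.pow_div (by omega) (by norm_num)]
      have : r - (r - 3) = 3 := by omega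
      rw [this]
    have hps : p * t * p = t⁻¹ := by
      have hpr : p * (p * q) * p = (p * q)⁻¹ := by
        rw [mul_inv_rev, inv_of hp, inv_of hq, ← mul_assoc, hp, one_mul]
      rw [ht, ← inv_pow, ← hpr]
      have i1 : p * (p * q) * p = p * (p * q) * p⁻¹ := by rw [inv_of hp]
      rw [i1, conj_pow, inv_of hp]
    refine hS _ (closure {t, p}) (MonoidHom.id _) Function.surjective_id
      ⟨⟨t, subset_closure (by simp)⟩, ⟨p, subset_closure (by simp)⟩, closure_pair_top t p, ?_, ?_, ?_⟩
    · rw [Subgroup.orderOf_mk]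
      exact ht8
    · ext
      exact hp
    · ext
      exact hps
  refine mem_of_class hE hz ?_ ?_
  · intro d hd
    exact four_of_pow (key n z d hz (hE.law.inv d hd) (h1 d hd))
  · intro g
    refine four_of_pow (key m z _ hz ?_ (h2 g))
    have e : g * z * g⁻¹ * (g * z * g⁻¹) = g * (z * z) * g⁻¹ := by group
    rw [e, hz]
    group

end basic

end Pool.Agent.Helper46.SV
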