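import Pool.Agent.Helper46.SV.KCData

/-!
# Commuting products in the path world

`E` is a `DLaw` set closed under commutators with the path law; `a, b, c, d ∈ E`, `a` commutes with `b` and `c` with `d`.
Put `x = a^c`, `y = b^c`, `z = (cd)^a`. Then `(z z^(xy))⁴ = 1`; if `(x y z)⁴ = 1` then `(a b c d)⁴ = 1`.
-/

set_option autoImplicit false

namespace Pool.Agent.Helper46.SV.RK

open Pool.Agent.Helper94.SV.Frame (c2 DLaw MaxLaw)
open Pool.Agent.Helper94.SV.TL (TLaw QLaw Closed law_of)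
open Pool.Agent.Helper96.SV (ev ev_append iw ev_iw r4 ev_r4)
open Pool.Agent.Helper89.SV (Path)

universe u

section basic

variable {G : Type u} [Group G] {E : Set G}
variable (hE : DLaw E) (hP : Path E) (hC : Closed E)
include hE hP hC

theorem worldP {a b c d : G} (ha : a ∈ E) (hb : b ∈ E) (hc : c ∈ E) (hd : d ∈ E) (hab : Commute a b)
    (hcd : Commute c d) (ex : List (List ℕ)) (hex : ∀ w ∈ ex, ev (fl a b c d) w = 1) :
    World E (fl a b c d) cpP ([0, 1, 0, 1] :: [2, 3, 2, 3] :: ex) := by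
  have hD := dl_of hE
  have haa := hD.inv a ha
  have hbb := hD.inv b hb
  have hcc := hD.inv c hc
  have hdd := hD.inv d hd
  refine mk_world hE hP hC ha hb hc hd _ _ ?_ ?_
  · intro p hp
    simp only [cpP, List.mem_cons, List.not_mem_nil, or_false] at hp
    rcases hp with rfl | rfl
    · simp only [Tm.wd, ev_single]
      exact hab
    · simp only [Tm.wd, ev_single]
      exact hcd
  · intro w hw
    rcases List.mem_cons.1 hw with rfl | hw
    · have h : ev (fl a b c d) [0, 1, 0, 1] = a * b * (a * b) := by simp [ev, fl, mul_assoc]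
      rw [h]
      exact mul_sq_comm hab haa hbb
    rcases List.mem_cons.1 hw with rfl | hw
    · have h : ev (fl a b c d) [2, 3, 2, 3] = c * d * (c * d) := by simp [ev, fl, mul_assoc]
      rw [h]
      exact mul_sq_comm hcd hcc hdd
    · exact hex w hw

/-- `(z z^(xy))⁴ = 1` for `x = a^c`, `y = b^c`, `z = (cd)^a` -/
theorem kc1 {a b c d : G} (ha : a ∈ E) (hb : b ∈ E) (hc : c ∈ E) (hd : d ∈ E) (hab : Commute a b)
    (hcd : Commute c d) :
    (a * (c * d) * a * (c * (a * b) * c * (a * (c * d) * a) * (c * (a * b) * c)⁻¹)) ^ 4 = 1 := by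
  have hD := dl_of hE
  have haa := hD.inv a ha
  have hbb := hD.inv b hb
  have hcc := hD.inv c hc
  have hdd := hD.inv d hd
  have H := worldP hE hP hC ha hb hc hd hab hcd [] (by simp)
  have H' := worldP hE hP hC hE.one hb hc hd (Commute.one_left b) hcd [] (by simp)
  have h := use kP1 kP1_ok H H'
  have ht : dl kP1.tgt = r4 [0, 2, 3, 0, 2, 0, 1, 2, 0, 2, 3, 0, 2, 1, 0, 2] := by decide +kernel
  rw [ht, ev_r4, ev_r4] at h
  have e1 : ev (fl a b c d) [0, 2, 3, 0, 2, 0, 1, 2, 0, 2, 3, 0, 2, 1, 0, 2] =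
      a * (c * d) * a * (c * (a * b) * c * (a * (c * d) * a) * (c * (a * b) * c)⁻¹) := by
    have i1 : (c * (a * b) * c)⁻¹ = c * (b * a) * c := by
      rw [mul_inv_rev, mul_inv_rev, mul_inv_rev, inv_of haa, inv_of hbb, inv_of hcc, ← mul_assoc]
    rw [i1]
    simp [ev, fl, mul_assoc]
  have e2 : ev (fl 1 b c d) [0, 2, 3, 0, 2, 0, 1, 2, 0, 2, 3, 0, 2, 1, 0, 2] = (c * d * cj b c) ^ 2 := by
    have i2 : cj b c * (c * d) = cj b c * (d * c) := by rw [hcd.eq]
    simp [ev, fl, cj, mul_assoc, pow_two]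
  rw [e1, e2] at h
  rw [h, ← pow_mul]
  have h4 : (c * d * cj b c) ^ 4 = 1 := hP c hc d hd hcd _ (hD.cj hb hcc)
  rw [show 2 * 4 = 4 * 2 from rfl, pow_mul, h4, one_pow]

/-- if `(x y z)⁴ = 1` for `x = a^c`, `y = b^c`, `z = (cd)^a`, then `(a b c d)⁴ = 1` -/
theorem kc2 {a b c d : G} (ha : a ∈ E) (hb : b ∈ E) (hc : c ∈ E) (hd : d ∈ E) (hab : Commute a b)
    (hcd : Commute c d) (h4 : (c * a * c * (c * b * c) * (a * (c * d) * a)) ^ 4 = 1) :
    (a * b * (c * d)) ^ 4 = 1 := by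
  have hD := dl_of hE
  have haa := hD.inv a ha
  have hbb := hD.inv b hb
  have hcc := hD.inv c hc
  have hdd := hD.inv d hd
  have H := worldP hE hP hC ha hb hc hd hab hcd [r4 [2, 0, 2, 2, 1, 2, 0, 2, 3, 0]] (by
    intro w hw
    rw [List.mem_singleton] at hw
    subst hw
    have e : ev (fl a b c d) [2, 0, 2, 2, 1, 2, 0, 2, 3, 0] = c * a * c * (c * b * c) * (a * (c * d) * a) := by
      simp [ev, fl, mul_assoc]
    rw [ev_r4, e, h4])
  have H' := worldP hE hP hC hE.one hb hc hd (Commute.one_left b) hcd [r4 [2, 0, 2, 2, 1, 2, 0, 2, 3, 0]] (by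
    intro w hw
    rw [List.mem_singleton] at hw
    subst hw
    have e : ev (fl 1 b c d) [2, 0, 2, 2, 1, 2, 0, 2, 3, 0] = cj b c * (c * d) := by
      simp [ev, fl, cj, mul_assoc, cc hcc]
    rw [ev_r4, e]
    have h5 : (c * d * cj b c) ^ 4 = 1 := hP c hc d hd hcd _ (hD.cj hb hcc)
    exact TE.four_symm (mul_sq_comm hcd hcc hdd) h5)
  have h := use kP2 kP2_ok H H'
  have ht : dl kP2.tgt = r4 [0, 1, 2, 3] := rfl
  rw [ht, ev_r4, ev_r4] at h
  have e1 : ev (fl a b c d) [0, 1, 2, 3] = a * b * (c * d) := by simp [ev, fl, mul_assoc]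
  have e2 : ev (fl 1 b c d) [0, 1, 2, 3] = b * (c * d) := by simp [ev, fl]
  rw [e1, e2] at h
  rw [h]
  exact TE.four_symm (mul_sq_comm hcd hcc hdd) (hP c hc d hd hcd b hb)

end basic

end Pool.Agent.Helper46.SV.RK
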