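import Pool.Agent.Helper46.SV.KL1Data2

/-!
# Step L1a in the `P128`-free world

`E` is a `DLaw` set closed under commutators, with the path law and the trichotomy law. If `w(a;b,c) = w(b;c,a) = 1`,
`w(c;a,b) = [a, b]`, and `a` commutes with `d`, then `[a, b]` commutes with `d`.
-/

set_option autoImplicit false

namespace Pool.Agent.Helper46.SV.RK

open Pool.Agent.Helper94.SV.Frame (c2 DLaw MaxLaw)
open Pool.Agent.Helper94.SV.TL (TLaw QLaw Closed law_of)
open Pool.Agent.Helper96.SV (ev ev_append iw ev_iw r4 ev_r4)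
open Pool.Agent.Helper89.SV (Path)
open Pool.Agent.Helper46.SV.TE (ec ek_left ek_right ek_sq ej ek_comm)

universe u

section basic

variable {G : Type u} [Group G] {E : Set G}

/-- the letters -/
def fl (a b c d : G) (s : ℕ) : G :=
  if s = 0 then a else if s = 1 then b else if s = 2 then c else if s = 3 then d else 1

theorem fl_inv {a b c d : G} (ha : a * a = 1) (hb : b * b = 1) (hc : c * c = 1) (hd : d * d = 1) (s : ℕ) :
    fl a b c d s * fl a b c d s = 1 := by
  unfold fl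
  split_ifs <;> simp [*]

theorem fl_mem (hE : DLaw E) {a b c d : G} (ha : a ∈ E) (hb : b ∈ E) (hc : c ∈ E) (hd : d ∈ E) (s : ℕ) :
    fl a b c d s ∈ E := by
  unfold fl
  split_ifs
  · exact ha
  · exact hb
  · exact hc
  · exact hd
  · exact hE.one

theorem mk_world (hE : DLaw E) (hP : Path E) (hC : Closed E) {a b c d : G} (ha : a ∈ E) (hb : b ∈ E) (hc : c ∈ E)
    (hd : d ∈ E) (cp : List (Tm × Tm)) (ex : List (List ℕ))
    (hcp : ∀ p ∈ cp, Commute (ev (fl a b c d) p.1.wd) (ev (fl a b c d) p.2.wd))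
    (hex : ∀ w ∈ ex, ev (fl a b c d) w = 1) : World E (fl a b c d) cp ex := by
  have hD := dl_of hE
  refine ⟨hE, hP, hC, fl_inv (hD.inv a ha) (hD.inv b hb) (hD.inv c hc) (hD.inv d hd),
    fun s _ => fl_mem hE ha hb hc hd s, ?_, hcp, hex⟩
  intro s hs
  unfold fl
  rw [if_neg (by omega), if_neg (by omega), if_neg (by omega), if_neg (by omega)]

/-- the conclusion of a certificate with `a` as letter `0` -/
theorem use (C : Cert) {a b c d : G} {cp : List (Tm × Tm)} {ex : List (List ℕ)} (hC : C.ok cp ex = true)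
    (H : World E (fl a b c d) cp ex) (H' : World E (fl 1 b c d) cp ex) :
    ev (fl a b c d) (dl C.tgt) = ev (fl 1 b c d) (dl C.tgt) := by
  have h := C.main hC H H' (by
    intro s hs
    unfold fl
    rw [if_neg hs, if_neg hs])
  rwa [← ev_dl H, ← ev_dl H'] at h

variable (hE : DLaw E) (hP : Path E) (hC : Closed E)
include hE hP hC

theorem worldA {a b c d : G} (ha : a ∈ E) (hb : b ∈ E) (hc : c ∈ E) (hd : d ∈ E) (had : Commute a d)
    (h3 : Ty 3 a b c) (ex : List (List ℕ)) (hex : ∀ w ∈ ex, ev (fl a b c d) w = 1) :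
    World E (fl a b c d) cpA ([0, 3, 0, 3] :: (wt 3 [0] [1] [2] ++ ex)) := by
  have L := law_of hE hC
  have hD := dl_of hE
  have haa := hD.inv a ha
  have hdd := hD.inv d hd
  have e0 : ev (fl a b c d) [0] = a := by rw [ev_single]; rfl
  have e1 : ev (fl a b c d) [1] = b := by rw [ev_single]; rfl
  have e2 : ev (fl a b c d) [2] = c := by rw [ev_single]; rfl
  have e3 : ev (fl a b c d) [3] = d := by rw [ev_single]; rfl
  have hI := fl_inv haa (hD.inv b hb) (hD.inv c hc) hdd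
  refine mk_world hE hP hC ha hb hc hd _ _ ?_ ?_
  · intro p hp
    simp only [cpA, List.mem_cons, List.not_mem_nil, or_false] at hp
    rcases hp with rfl | rfl
    · rw [Tm.wd, Tm.wd, e0, e3]
      exact had
    · rw [Tm.wd, Tm.wd, Tm.wd, Tm.wd, ev_wkk, e0, e1, e2, ← h3.2.2]
      exact TE.ww_comm_self L ha hc hb
  · intro w hw
    rcases List.mem_cons.1 hw with rfl | hw
    · have h : ev (fl a b c d) [0, 3, 0, 3] = a * d * (a * d) := by simp [ev, fl, mul_assoc]
      rw [h]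
      exact mul_sq_comm had haa hdd
    rcases List.mem_append.1 hw with hw | hw
    · exact ev_wt L hI (by rw [e0]; exact ha) (by rw [e1]; exact hb) (by rw [e2]; exact hc) 3
        (by rw [e0, e1, e2]; exact h3) w hw
    · exact hex w hw

theorem worldB {a b c d : G} (ha : a ∈ E) (hb : b ∈ E) (hc : c ∈ E) (hd : d ∈ E) (had : Commute a d)
    (h3 : Ty 3 a b c) (ex : List (List ℕ)) (hex : ∀ w ∈ ex, ev (fl b a c d) w = 1) :
    World E (fl b a c d) cpB ([1, 3, 1, 3] :: (wt 3 [1] [0] [2] ++ ex)) := by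
  have L := law_of hE hC
  have hD := dl_of hE
  have haa := hD.inv a ha
  have hdd := hD.inv d hd
  have e0 : ev (fl b a c d) [0] = b := by rw [ev_single]; rfl
  have e1 : ev (fl b a c d) [1] = a := by rw [ev_single]; rfl
  have e2 : ev (fl b a c d) [2] = c := by rw [ev_single]; rfl
  have e3 : ev (fl b a c d) [3] = d := by rw [ev_single]; rfl
  have hI := fl_inv (hD.inv b hb) haa (hD.inv c hc) hdd
  refine mk_world hE hP hC hb ha hc hd _ _ ?_ ?_
  · intro p hp
    simp only [cpB, List.mem_cons, List.not_mem_nil, or_false] at hp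
    rcases hp with rfl | rfl
    · rw [Tm.wd, Tm.wd, e1, e3]
      exact had
    · rw [Tm.wd, Tm.wd, Tm.wd, Tm.wd, ev_wkk, e0, e1, e2, ← h3.2.2]
      exact TE.ww_comm_self L ha hc hb
  · intro w hw
    rcases List.mem_cons.1 hw with rfl | hw
    · have h : ev (fl b a c d) [1, 3, 1, 3] = a * d * (a * d) := by simp [ev, fl, mul_assoc]
      rw [h]
      exact mul_sq_comm had haa hdd
    rcases List.mem_append.1 hw with hw | hw
    · exact ev_wt L hI (by rw [e1]; exact ha) (by rw [e0]; exact hb) (by rw [e2]; exact hc) 3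
        (by rw [e0, e1, e2]; exact h3) w hw
    · exact hex w hw

omit hE hP hC in
theorem ev_b' (a b c d : G) : ev (fl a b c d) [3, 1, 3] = cj b d := by
  simp [ev, fl, cj, mul_assoc]

omit hE hP hC in
theorem ev_b0 (a b c d : G) : ev (fl b a c d) [3, 0, 3] = cj b d := by
  simp [ev, fl, cj, mul_assoc]

/-- the leaves with `a` as letter `0` -/
theorem leafA {a b c d : G} (ha : a ∈ E) (hb : b ∈ E) (hc : c ∈ E) (hd : d ∈ E) (had : Commute a d)
    (h3 : Ty 3 a b c) (ex : List (List ℕ)) (hex : ∀ w ∈ ex, ev (fl a b c d) w = 1)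
    (hex' : ∀ w ∈ ex, ev (fl 1 b c d) w = 1) (C : Cert)
    (ht : dl C.tgt = wkk (wkk [0] [1]) [3])
    (hok : C.ok cpA ([0, 3, 0, 3] :: (wt 3 [0] [1] [2] ++ ex)) = true) : Commute (kk a b) d := by
  have hD := dl_of hE
  have H := worldA hE hP hC ha hb hc hd had h3 ex hex
  have H' := worldA hE hP hC hE.one hb hc hd (Commute.one_left d) (ty3_left hD hb hc) ex hex'
  have h := use C hok H H'
  rw [ht, ev_wkk, ev_wkk, ev_wkk, ev_wkk] at h
  simp only [ev_single] at h
  have hbb := hD.inv b hb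
  have hdd := hD.inv d hd
  have h1 : kk (kk (fl 1 b c d 0) (fl 1 b c d 1)) (fl 1 b c d 3) = 1 := by
    show kk (kk (1 : G) b) d = 1
    simp [kk, hbb, hdd]
  rw [h1] at h
  exact comm_of_kk (ek_sq hD ha hb) hdd h

/-- the leaves with `b` as letter `0` -/
theorem leafB {a b c d : G} (ha : a ∈ E) (hb : b ∈ E) (hc : c ∈ E) (hd : d ∈ E) (had : Commute a d)
    (h3 : Ty 3 a b c) (ex : List (List ℕ)) (hex : ∀ w ∈ ex, ev (fl b a c d) w = 1)
    (hex' : ∀ w ∈ ex, ev (fl 1 a c d) w = 1) (C : Cert)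
    (ht : dl C.tgt = wkk (wkk [1] [0]) [3])
    (hok : C.ok cpB ([1, 3, 1, 3] :: (wt 3 [1] [0] [2] ++ ex)) = true) : Commute (kk a b) d := by
  have hD := dl_of hE
  have H := worldB hE hP hC ha hb hc hd had h3 ex hex
  have H' := worldB hE hP hC ha hE.one hc hd had (ty3_mid hD ha hc) ex hex'
  have h := use C hok H H'
  rw [ht, ev_wkk, ev_wkk, ev_wkk, ev_wkk] at h
  simp only [ev_single] at h
  have haa := hD.inv a ha
  have hdd := hD.inv d hd
  have h1 : kk (kk (fl 1 a c d 1) (fl 1 a c d 0)) (fl 1 a c d 3) = 1 := by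
    show kk (kk a (1 : G)) d = 1
    simp [kk, haa, hdd]
  rw [h1] at h
  exact comm_of_kk (ek_sq hD ha hb) hdd h

theorem leafA1 {a b c d : G} (ha : a ∈ E) (hb : b ∈ E) (hc : c ∈ E) (hd : d ∈ E) (had : Commute a d)
    (h3 : Ty 3 a b c) (k : ℕ) (hk : k < 7) (hT : Ty k a (cj b d) c) (C : Cert)
    (ht : dl C.tgt = wkk (wkk [0] [1]) [3]) (hok : C.ok cpA (exA k) = true) : Commute (kk a b) d := by
  have L := law_of hE hC
  have hD := dl_of hE
  have hb' := ej hD hb hd
  refine leafA hE hP hC ha hb hc hd had h3 (wt k [0] [3, 1, 3] [2]) ?_ ?_ C ht hok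
  · refine ev_wt L (fl_inv (hD.inv a ha) (hD.inv b hb) (hD.inv c hc) (hD.inv d hd)) ?_ ?_ ?_ k ?_
    · rw [ev_single]; exact ha
    · rw [ev_b']; exact hb'
    · rw [ev_single]; exact hc
    · rw [ev_single, ev_single, ev_b']; exact hT
  · refine ev_wt L (fl_inv (hD.inv 1 hE.one) (hD.inv b hb) (hD.inv c hc) (hD.inv d hd)) ?_ ?_ ?_ k ?_
    · rw [ev_single]; exact hE.one
    · rw [ev_b']; exact hb'
    · rw [ev_single]; exact hc
    · rw [ev_single, ev_single, ev_b']; exact ty_left hD hb' hc k hk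

theorem leafB1 {a b c d : G} (ha : a ∈ E) (hb : b ∈ E) (hc : c ∈ E) (hd : d ∈ E) (had : Commute a d)
    (h3 : Ty 3 a b c) (k : ℕ) (hT : Ty k a (cj b d) c) (hT' : Ty k a (cj 1 d) c) (C : Cert)
    (ht : dl C.tgt = wkk (wkk [1] [0]) [3]) (hok : C.ok cpB (exB k) = true) : Commute (kk a b) d := by
  have L := law_of hE hC
  have hD := dl_of hE
  have hb' := ej hD hb hd
  refine leafB hE hP hC ha hb hc hd had h3 (wt k [1] [3, 0, 3] [2]) ?_ ?_ C ht hok
  · refine ev_wt L (fl_inv (hD.inv b hb) (hD.inv a ha) (hD.inv c hc) (hD.inv d hd)) ?_ ?_ ?_ k ?_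
    · rw [ev_single]; exact ha
    · rw [ev_b0]; exact hb'
    · rw [ev_single]; exact hc
    · rw [ev_single, ev_single, ev_b0]; exact hT
  · refine ev_wt L (fl_inv (hD.inv 1 hE.one) (hD.inv a ha) (hD.inv c hc) (hD.inv d hd)) ?_ ?_ ?_ k ?_
    · rw [ev_single]; exact ha
    · rw [ev_b0]; exact ej hD hE.one hd
    · rw [ev_single]; exact hc
    · rw [ev_single, ev_single, ev_b0]; exact hT'

theorem leafC1 {a b c d : G} (ha : a ∈ E) (hb : b ∈ E) (hc : c ∈ E) (hd : d ∈ E) (had : Commute a d)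
    (h3 : Ty 3 a b c) (h3' : Ty 3 a (cj b d) c) (k : ℕ) (hT : Ty k c b d) (C : Cert)
    (ht : dl C.tgt = wkk (wkk [0] [1]) [3]) (hok : C.ok cpA (exC k) = true) : Commute (kk a b) d := by
  have L := law_of hE hC
  have hD := dl_of hE
  have hb' := ej hD hb hd
  refine leafA hE hP hC ha hb hc hd had h3 (wt 3 [0] [3, 1, 3] [2] ++ wt k [2] [1] [3]) ?_ ?_ C ht hok
  · intro w hw
    rcases List.mem_append.1 hw with hw | hw
    · refine ev_wt L (fl_inv (hD.inv a ha) (hD.inv b hb) (hD.inv c hc) (hD.inv d hd)) ?_ ?_ ?_ 3 ?_ w hw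
      · rw [ev_single]; exact ha
      · rw [ev_b']; exact hb'
      · rw [ev_single]; exact hc
      · rw [ev_single, ev_single, ev_b']; exact h3'
    · refine ev_wt L (fl_inv (hD.inv a ha) (hD.inv b hb) (hD.inv c hc) (hD.inv d hd)) ?_ ?_ ?_ k ?_ w hw
      · rw [ev_single]; exact hc
      · rw [ev_single]; exact hb
      · rw [ev_single]; exact hd
      · rw [ev_single, ev_single, ev_single]; exact hT
  · intro w hw
    rcases List.mem_append.1 hw with hw | hw
    · refine ev_wt L (fl_inv (hD.inv 1 hE.one) (hD.inv b hb) (hD.inv c hc) (hD.inv d hd)) ?_ ?_ ?_ 3 ?_ w hw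
      · rw [ev_single]; exact hE.one
      · rw [ev_b']; exact hb'
      · rw [ev_single]; exact hc
      · rw [ev_single, ev_single, ev_b']; exact ty3_left hD hb' hc
    · refine ev_wt L (fl_inv (hD.inv 1 hE.one) (hD.inv b hb) (hD.inv c hc) (hD.inv d hd)) ?_ ?_ ?_ k ?_ w hw
      · rw [ev_single]; exact hc
      · rw [ev_single]; exact hb
      · rw [ev_single]; exact hd
      · rw [ev_single, ev_single, ev_single]; exact hT

/-- **step L1a** -/
theorem l1a_ty (hT : TLaw E) {a b c d : G} (ha : a ∈ E) (hb : b ∈ E) (hc : c ∈ E) (hd : d ∈ E)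
    (had : Commute a d) (h3 : Ty 3 a b c) : Commute (kk a b) d := by
  have hD := dl_of hE
  have hdd := hD.inv d hd
  have hb' := ej hD hb hd
  have i1 : cj (1 : G) d = 1 := by simp [cj, hdd]
  rcases types hT ha hb' hc with h | h | h | h | h | h | h | h
  · exact leafA1 hE hP hC ha hb hc hd had h3 1 (by norm_num) h kA1 rfl kA1_ok
  · exact leafA1 hE hP hC ha hb hc hd had h3 2 (by norm_num) h kA2 rfl kA2_ok
  · rcases types hT hc hb hd with h' | h' | h' | h' | h' | h' | h' | h'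
    · exact leafC1 hE hP hC ha hb hc hd had h3 h 1 h' kB1 rfl kB1_ok
    · exact leafC1 hE hP hC ha hb hc hd had h3 h 2 h' kB2 rfl kB2_ok
    · exact leafC1 hE hP hC ha hb hc hd had h3 h 3 h' kB3 rfl kB3_ok
    · exact leafC1 hE hP hC ha hb hc hd had h3 h 4 h' kB4 rfl kB4_ok
    · exact leafC1 hE hP hC ha hb hc hd had h3 h 5 h' kB5 rfl kB5_ok
    · exact leafC1 hE hP hC ha hb hc hd had h3 h 6 h' kB6 rfl kB6_ok
    · exact leafC1 hE hP hC ha hb hc hd had h3 h 7 h' kB7 rfl kB7_ok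
    · exact leafC1 hE hP hC ha hb hc hd had h3 h 8 h' kB8 rfl kB8_ok
  · exact leafA1 hE hP hC ha hb hc hd had h3 4 (by norm_num) h kA4 rfl kA4_ok
  · exact leafA1 hE hP hC ha hb hc hd had h3 5 (by norm_num) h kA5 rfl kA5_ok
  · exact leafA1 hE hP hC ha hb hc hd had h3 6 (by norm_num) h kA6 rfl kA6_ok
  · exact leafB1 hE hP hC ha hb hc hd had h3 7 h (by rw [i1]; exact ty3_left hD hc ha) kA7 rfl kA7_ok
  · exact leafB1 hE hP hC ha hb hc hd had h3 8 h (by rw [i1]; exact ty4_left hD hc ha) kA8 rfl kA8_ok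

end basic

/-- step L1a for the set `E` -/
def L1aP {G : Type u} [Group G] (E : Set G) : Prop :=
  ∀ a ∈ E, ∀ b ∈ E, ∀ c ∈ E, ∀ d ∈ E, ww a b c = 1 → ww b c a = 1 → ww c a b = kk a b → Commute a d →
    Commute (kk a b) d

theorem l1aP {G : Type u} [Group G] {E : Set G} (hE : DLaw E) (hP : Path E) (hC : Closed E) (hT : TLaw E) :
    L1aP E := fun _ ha _ hb _ hc _ hd h1 h2 h3 had => l1a_ty hE hP hC hT ha hb hc hd had ⟨h1, h2, h3⟩

end Pool.Agent.Helper46.SV.RK
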