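import Pool.Agent.Helper46.SV.KQData
import Pool.Agent.Helper46.SV.KQData2
import Pool.Agent.Helper94.SV.KFin

/-!
# Step KQ1

Let every triple of the closed set `E` satisfy `(x y z)⁴ = 1` or `w_x = w_y = w_z`, let `(a, b, c)` satisfy
`w_a = w_b = w_c`, and let `d` commute with `a`. Then `w_a` commutes with `d`.

The proof: if `w(x;y,z) = 1` for a triple of `E`, then `(x y z)⁴ = 1`; this is used for five triples in
`⟨a, b, c, d⟩`.
-/

set_option autoImplicit false

namespace Pool.Agent.Helper46.SV.RJ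

open Pool.Agent.Helper94.SV.Frame (c2 DLaw)
open Pool.Agent.Helper94.SV.TL (QLaw Closed MulClosed law_of)
open Pool.Agent.Helper96.SV (ev ev_append iw ev_iw r4 ev_r4 fr)
open Pool.Agent.Helper46.SV.TE (ej)

universe u

section basic

variable {G : Type u} [Group G] {E : Set G} (K : Ctx E)
include K

theorem w1 {x y z : G} (hx : x = 1) (hy : y ∈ E) (hz : z ∈ E) : ww x y z = 1 := by
  subst hx
  have i1 : cj (1 : G) y = 1 := by simp [cj, K.hE.inv y hy]
  have i2 : cj (1 : G) z = 1 := by simp [cj, K.hE.inv z hz]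
  unfold ww
  rw [i1, i2]
  simp [kk]

theorem w3 {x y z : G} (hx : x ∈ E) (hy : y ∈ E) (hz : z = 1) : ww x y z = 1 := by
  subst hz
  have hD := dl_of K.hE
  have i1 : cj x (1 : G) = x := by simp [cj]
  unfold ww
  rw [i1]
  exact kk_of_comm (hD.inv _ (ej hD hx hy)) (hD.inv _ hx) (TE.ec hD hx hy).symm

omit K in
theorem fact_succ {n : ℕ} (hn : ∀ s, s ≤ n → Fact E s) (h : Fact E (n + 1)) : ∀ s, s ≤ n + 1 → Fact E s := by
  intro s hs
  rcases Nat.lt_or_ge n s with h1 | h1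
  · have h2 : s = n + 1 := le_antisymm hs h1
    rw [h2]
    exact h
  · exact hn s h1

omit K in
theorem facts0 : ∀ s, s ≤ 0 → Fact E s := by
  intro s hs
  rw [Nat.le_zero.1 hs]
  exact fact_zero

theorem facts1 : ∀ s, s ≤ 1 → Fact E s := by
  refine fact_succ facts0 ?_
  intro f h
  rw [← ev_www]
  refine concl K h facts0 es1 es1_ok cq1 cq1_ok _ [] (by decide +kernel) ?_
  obtain ⟨hx, hy, hz⟩ := tmem K (h.kill K) 1
  rw [ev_www]
  refine w3 K hx hy ?_
  show ev (kill f) [0, 1, 0, 1] = 1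
  simp [ev, kill, h.inv K.hE 1]

theorem facts2 : ∀ s, s ≤ 2 → Fact E s := by
  refine fact_succ (facts1 K) ?_
  intro f h
  rw [← ev_www]
  refine concl K h (facts1 K) es2 es2_ok cq2 cq2_ok _ [0, 1] (by decide +kernel) ?_
  obtain ⟨hx, hy, hz⟩ := tmem K (h.kill K) 2
  rw [ev_www]
  refine w3 K hx hy ?_
  show ev (kill f) [2, 0, 2] = 1
  simp [ev, kill, h.inv K.hE 2]

theorem facts3 : ∀ s, s ≤ 3 → Fact E s := by
  refine fact_succ (facts2 K) ?_
  intro f h
  rw [← ev_www]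
  refine concl K h (facts2 K) es3 es3_ok cq3 cq3_ok _ [0, 3, 2, 1, 2, 1, 0, 1, 0, 2, 1, 2]
    (by decide +kernel) ?_
  obtain ⟨hx, hy, hz⟩ := tmem K (h.kill K) 3
  rw [ev_www]
  refine w1 K ?_ hy hz
  show ev (kill f) [0, 1, 0, 1] = 1
  simp [ev, kill, h.inv K.hE 1]

theorem facts4 : ∀ s, s ≤ 4 → Fact E s := by
  refine fact_succ (facts3 K) ?_
  intro f h
  rw [← ev_www]
  refine concl K h (facts3 K) es4 es4_ok cq4 cq4_ok _ [0, 2, 1, 2, 3, 1, 3, 1, 2, 1, 2]
    (by decide +kernel) ?_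
  obtain ⟨hx, hy, hz⟩ := tmem K (h.kill K) 4
  rw [ev_www]
  refine w3 K hx hy ?_
  show ev (kill f) [0] = 1
  simp [ev, kill]

theorem facts5 : ∀ s, s ≤ 5 → Fact E s := by
  refine fact_succ (facts4 K) ?_
  intro f h
  rw [← ev_www]
  refine concl K h (facts4 K) es5 es5_ok cq5 cq5_ok _ [0, 2] (by decide +kernel) ?_
  obtain ⟨hx, hy, hz⟩ := tmem K (h.kill K) 5
  rw [ev_www]
  refine w1 K ?_ hy hz
  show ev (kill f) [0, 1, 0, 1] = 1
  simp [ev, kill, h.inv K.hE 1]

/-- the word `[w, d]` -/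
def wfin : List ℕ := www [0] [1] [2] ++ ([3] ++ (iw ii (www [0] [1] [2]) ++ [3]))

theorem final {f : ℕ → G} (h : HyF E f) : Commute (f 3) (ww (f 0) (f 1) (f 2)) := by
  have hinv : ∀ s, f s * f (ii s) = 1 := h.inv K.hE
  have h1 : ev f wfin = 1 := by
    refine concl K h (facts5 K) es6 es6_ok cq6 cq6_ok _ [] (by decide +kernel) ?_
    have hk := h.kill K
    have hinv' : ∀ s, kill f s * kill f (ii s) = 1 := hk.inv K.hE
    have e : ww (kill f 0) (kill f 1) (kill f 2) = 1 := w1 K (by simp [kill]) hk.m1 hk.m2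
    rw [wfin, ev_append, ev_append, ev_append, ev_iw hinv', ev_www]
    simp only [ev_single]
    rw [e, one_mul, inv_one, one_mul]
    exact hk.inv K.hE 3
  rw [wfin, ev_append, ev_append, ev_append, ev_iw hinv, ev_www] at h1
  simp only [ev_single] at h1
  have h3 := h.inv K.hE 3
  have e : ww (f 0) (f 1) (f 2) * (f 3 * ((ww (f 0) (f 1) (f 2))⁻¹ * f 3)) = 1 := h1
  have i3 : (f 3)⁻¹ = f 3 := inv_eq_of_mul_eq_one_left h3
  show f 3 * ww (f 0) (f 1) (f 2) = ww (f 0) (f 1) (f 2) * f 3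
  have e2 : ww (f 0) (f 1) (f 2) * f 3 * (ww (f 0) (f 1) (f 2))⁻¹ = f 3 := by
    calc ww (f 0) (f 1) (f 2) * f 3 * (ww (f 0) (f 1) (f 2))⁻¹
        = ww (f 0) (f 1) (f 2) * (f 3 * ((ww (f 0) (f 1) (f 2))⁻¹ * f 3)) * (f 3)⁻¹ := by
          simp only [mul_assoc, mul_inv_cancel, mul_one]
      _ = f 3 := by rw [e, one_mul, i3]
  calc f 3 * ww (f 0) (f 1) (f 2)
      = ww (f 0) (f 1) (f 2) * f 3 * (ww (f 0) (f 1) (f 2))⁻¹ * ww (f 0) (f 1) (f 2) := by rw [e2]
    _ = ww (f 0) (f 1) (f 2) * f 3 := by rw [inv_mul_cancel_right]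

end basic

end Pool.Agent.Helper46.SV.RJ

namespace Pool.Agent.Helper46.SV

open Pool.Agent.Helper46.SV.RJ (Ctx HyF final)

universe u

/-- **KQ1** -/
theorem hkq1 : Pool.Agent.Helper94.SV.TL.HKQ1.{u} := by
  intro Q _ E hE _ hC hM hQ a ha b hb c hc d hd h1 h2 had
  have K : Ctx E := ⟨hE, hC, hM, hQ⟩
  let f : ℕ → Q := fun s => if s = 0 then a else if s = 1 then b else if s = 2 then c else if s = 3 then d else 1
  have h : HyF E f := by
    refine ⟨ha, hb, hc, hd, ?_, had, h1, h2⟩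
    intro s hs
    show (if s = 0 then a else if s = 1 then b else if s = 2 then c else if s = 3 then d else 1) = 1
    rw [if_neg (by omega), if_neg (by omega), if_neg (by omega), if_neg (by omega)]
  exact final K h

end Pool.Agent.Helper46.SV
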