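import Pool.Agent.Helper46.SV.RelJ
import Pool.Agent.Helper94.SV.KFrame

/-!
# Words for step KQ1

Normal forms of words in four involutions where the letters `0` and `3` commute; families `f` of letters such that
`(f 0, f 1, f 2)` is a triple with `w_a = w_b = w_c` and `f 3` commutes with `f 0`; the four substitutions which
preserve these families; the words attached to a triple `x, y, z` with `w(x;y,z) = 1`.
-/

set_option autoImplicit false

namespace Pool.Agent.Helper46.SV.RJ

open Pool.Agent.Helper94.SV.Frame (c2 DLaw)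
open Pool.Agent.Helper94.SV.TL (QLaw Closed MulClosed law_of)
open Pool.Agent.Helper96.SV (ev ev_append iw ev_iw r4 ev_r4 fr)
open Pool.Agent.Helper46.SV.TE (ej ww_comm_left ww_comm_self ww_symm)

universe u

/-- auxiliary: the letter `0` is moved below the letter `3` -/
def pv : List ℕ → List ℕ
  | [] => [3, 0]
  | t :: r => cond (Nat.beq t 0) (3 :: r) (3 :: 0 :: t :: r)

/-- multiply the word with reverse `st` by the letter `s` -/
def pu (s : ℕ) : List ℕ → List ℕ
  | [] => [s]
  | t :: r => cond (Nat.beq s t) r (cond (Nat.beq s 0 && Nat.beq t 3) (pv r) (s :: t :: r))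

/-- the reverse of the normal form -/
def nf : List ℕ → List ℕ → List ℕ
  | [], st => st
  | s :: w, st => nf w (pu s st)

/-- substitutions for the letters -/
def ins (i s : ℕ) : List ℕ :=
  match i, s with
  | 1, 3 => [0, 3]
  | 2, 1 => [2]
  | 2, 2 => [1]
  | 3, 1 => [2]
  | 3, 2 => [1]
  | 3, 3 => [0, 3]
  | _, s => [s]

/-- substitution in a word -/
def sbst (i : ℕ) : List ℕ → List ℕ
  | [] => []
  | s :: w => ins i s ++ sbst i w

/-- the triples of the steps -/
def tx (s : ℕ) : List ℕ :=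
  match s with
  | 1 => [3, 1, 3]
  | 2 => [1, 2, 1, 2]
  | 3 => [0, 1, 0, 1]
  | 4 => [1, 3, 1, 3]
  | 5 => [0, 1, 0, 1]
  | _ => []

/-- the triples of the steps -/
def ty (s : ℕ) : List ℕ :=
  match s with
  | 1 => [2]
  | 2 => [1, 0, 3, 1]
  | 3 => [2, 1, 2]
  | 4 => [2, 1, 2]
  | 5 => [2]
  | _ => []

/-- the triples of the steps -/
def tz (s : ℕ) : List ℕ :=
  match s with
  | 1 => [0, 1, 0, 1]
  | 2 => [2, 0, 2]
  | 3 => [3]
  | 4 => [0]
  | 5 => [3]
  | _ => []

/-- the words of a triple -/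
def kw (x y z : List ℕ) (k : ℕ) : List ℕ :=
  match k with
  | 0 => www x y z
  | 1 => r4 (x ++ (y ++ z))
  | 2 => r4 (x ++ (z ++ y))
  | _ => wkk (www x y z) x

/-- an entry: a word, the number of the step, the substitution, the kind of the word; conjugating word, sign -/
abbrev Ent := List ℕ × (ℕ × ℕ × ℕ) × List ℕ × Bool

/-- the word of an entry is conjugate to the substituted word of the step or its inverse -/
def chke (n : ℕ) (e : Ent) : Bool :=
  (Nat.beq e.2.1.2.2 3 || Nat.ble e.2.1.1 n) &&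
  (nf (iw ii e.2.2.1 ++ (e.1 ++ (e.2.2.1 ++ cond e.2.2.2
    (sbst e.2.1.2.1 (kw (tx e.2.1.1) (ty e.2.1.1) (tz e.2.1.1) e.2.1.2.2))
    (iw ii (sbst e.2.1.2.1 (kw (tx e.2.1.1) (ty e.2.1.1) (tz e.2.1.1) e.2.1.2.2)))))) []).isEmpty

section basic

variable {G : Type u} [Group G] {E : Set G} {f : ℕ → G}

theorem ev_pu (hI : ∀ s, f s * f s = 1) (hc : Commute (f 0) (f 3)) (s : ℕ) (st : List ℕ) :
    ev f (pu s st).reverse = ev f st.reverse * f s := by
  cases st with
  | nil => simp [pu, ev]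
  | cons t r =>
    rw [pu]
    cases h : Nat.beq s t with
    | true =>
      have h1 : s = t := Nat.eq_of_beq_eq_true h
      subst h1
      simp [ev_append, ev, mul_assoc, hI s]
    | false =>
      cases h2 : (Nat.beq s 0 && Nat.beq t 3) with
      | false => simp [ev_append, ev, mul_assoc]
      | true =>
        rw [Bool.and_eq_true] at h2
        have h3 : s = 0 := Nat.eq_of_beq_eq_true h2.1
        have h4 : t = 3 := Nat.eq_of_beq_eq_true h2.2
        subst h3
        subst h4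
        cases r with
        | nil => simp [pv, ev, hc.eq]
        | cons t' r' =>
          rw [cond_false, cond_true, pv]
          cases h5 : Nat.beq t' 0 with
          | true =>
            have h6 : t' = 0 := Nat.eq_of_beq_eq_true h5
            subst h6
            have h7 : f 0 * (f 3 * f 0) = f 3 := by rw [← hc.eq, ← mul_assoc, hI 0, one_mul]
            simp [ev_append, ev, mul_assoc, h7]
          | false => simp [ev_append, ev, mul_assoc, hc.eq]

theorem ev_nf (hI : ∀ s, f s * f s = 1) (hc : Commute (f 0) (f 3)) (w : List ℕ) :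
    ∀ st : List ℕ, ev f (nf w st).reverse = ev f st.reverse * ev f w := by
  induction w with
  | nil => intro st; simp [nf, ev]
  | cons s w ih =>
    intro st
    rw [nf, ih, ev_pu hI hc, ev, mul_assoc]

theorem ev_sbst (i : ℕ) (w : List ℕ) : ev f (sbst i w) = ev (fun s => ev f (ins i s)) w := by
  induction w with
  | nil => rfl
  | cons s w ih => rw [sbst, ev_append, ih, ev]

/-- the hypotheses on `E` -/
structure Ctx (E : Set G) : Prop where
  hE : DLaw E
  hC : Closed E
  hM : MulClosed E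
  hQ : QLaw E

/-- the hypotheses on the letters -/
structure HyF (E : Set G) (f : ℕ → G) : Prop where
  m0 : f 0 ∈ E
  m1 : f 1 ∈ E
  m2 : f 2 ∈ E
  m3 : f 3 ∈ E
  big : ∀ s, 4 ≤ s → f s = 1
  com : Commute (f 0) (f 3)
  q1 : ww (f 0) (f 1) (f 2) = ww (f 1) (f 2) (f 0)
  q2 : ww (f 1) (f 2) (f 0) = ww (f 2) (f 0) (f 1)

theorem HyF.mem (h : HyF E f) (hE : DLaw E) (s : ℕ) : f s ∈ E := by
  rcases lt_or_ge s 4 with hs | hs
  · interval_cases s
    · exact h.m0
    · exact h.m1
    · exact h.m2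
    · exact h.m3
  · rw [h.big s hs]
    exact hE.one

theorem HyF.inv (h : HyF E f) (hE : DLaw E) (s : ℕ) : f s * f s = 1 := hE.inv _ (h.mem hE s)

/-- the letter `0` is replaced by `1` -/
def kill (f : ℕ → G) (s : ℕ) : G := if s = 0 then 1 else f s

variable (K : Ctx E)
include K

theorem HyF.kill (h : HyF E f) : HyF E (kill f) := by
  have hD := dl_of K.hE
  have h1 := h.inv K.hE 1
  have h2 := h.inv K.hE 2
  have e1 : ww (1 : G) (f 1) (f 2) = 1 := by
    have i1 : cj (1 : G) (f 1) = 1 := by simp [cj, h1]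
    have i2 : cj (1 : G) (f 2) = 1 := by simp [cj, h2]
    unfold ww
    rw [i1, i2]
    simp [kk]
  have e2 : ww (f 1) (f 2) 1 = 1 := by
    have i2 : cj (f 1) (1 : G) = f 1 := by simp [cj]
    unfold ww
    rw [i2]
    exact kk_of_comm (hD.inv _ (ej hD h.m1 h.m2)) h1 (TE.ec hD h.m1 h.m2).symm
  have e3 : ww (f 2) 1 (f 1) = 1 := by
    have i2 : cj (f 2) (1 : G) = f 2 := by simp [cj]
    unfold ww
    rw [i2]
    exact kk_of_comm h2 (hD.inv _ (ej hD h.m2 h.m1)) (TE.ec hD h.m2 h.m1)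
  refine ⟨K.hE.one, h.m1, h.m2, h.m3, ?_, Commute.one_left _, ?_, ?_⟩
  · intro s hs
    unfold RJ.kill
    rw [if_neg (by omega)]
    exact h.big s hs
  · show ww (1 : G) (f 1) (f 2) = ww (f 1) (f 2) 1
    rw [e1, e2]
  · show ww (f 1) (f 2) 1 = ww (f 2) 1 (f 1)
    rw [e2, e3]

theorem HyF.ins (h : HyF E f) (i : ℕ) : HyF E (fun s => ev f (ins i s)) := by
  have L := law_of K.hE K.hC
  have hbig : ∀ s, 4 ≤ s → ev f (RJ.ins i s) = 1 := by
    intro s hs
    have : RJ.ins i s = [s] := by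
      unfold RJ.ins
      split <;> first | rfl | omega
    rw [this, ev_single]
    exact h.big s hs
  have hM : f 0 * f 3 ∈ E := K.hM _ h.m0 _ h.m3 h.com
  have hcom : Commute (f 0) (f 0 * f 3) := (Commute.refl _).mul_right h.com
  have s1 : ww (f 0) (f 2) (f 1) = ww (f 0) (f 1) (f 2) := TE.ww_symm L h.m2 h.m0 h.m1
  have s2 : ww (f 2) (f 1) (f 0) = ww (f 2) (f 0) (f 1) := TE.ww_symm L h.m1 h.m2 h.m0
  have s3 : ww (f 1) (f 0) (f 2) = ww (f 1) (f 2) (f 0) := TE.ww_symm L h.m0 h.m1 h.m2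
  have c1 : ww (f 0) (f 2) (f 1) = ww (f 2) (f 1) (f 0) := by rw [s1, s2, h.q1, h.q2]
  have c2 : ww (f 2) (f 1) (f 0) = ww (f 1) (f 0) (f 2) := by rw [s2, s3, h.q2]
  have e03 : ev f [0, 3] = f 0 * f 3 := by simp [ev]
  rcases i with _ | _ | _ | _ | i
  · refine ⟨?_, ?_, ?_, ?_, hbig, ?_, ?_, ?_⟩ <;> simp only [RJ.ins, ev_single]
    · exact h.m0
    · exact h.m1
    · exact h.m2
    · exact h.m3
    · exact h.com
    · exact h.q1
    · exact h.q2
  · refine ⟨?_, ?_, ?_, ?_, hbig, ?_, ?_, ?_⟩ <;> simp only [RJ.ins, ev_single, e03]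
    · exact h.m0
    · exact h.m1
    · exact h.m2
    · exact hM
    · exact hcom
    · exact h.q1
    · exact h.q2
  · refine ⟨?_, ?_, ?_, ?_, hbig, ?_, ?_, ?_⟩ <;> simp only [RJ.ins, ev_single]
    · exact h.m0
    · exact h.m2
    · exact h.m1
    · exact h.m3
    · exact h.com
    · exact c1
    · exact c2
  · refine ⟨?_, ?_, ?_, ?_, hbig, ?_, ?_, ?_⟩ <;> simp only [RJ.ins, ev_single, e03]
    · exact h.m0
    · exact h.m2
    · exact h.m1
    · exact hM
    · exact hcom
    · exact c1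
    · exact c2
  · refine ⟨?_, ?_, ?_, ?_, hbig, ?_, ?_, ?_⟩ <;> simp only [RJ.ins, ev_single]
    · exact h.m0
    · exact h.m1
    · exact h.m2
    · exact h.m3
    · exact h.com
    · exact h.q1
    · exact h.q2

/-- `w(x;y,z) = 1` implies `(x y z)⁴ = (x z y)⁴ = 1` -/
theorem tt {x y z : G} (hx : x ∈ E) (hy : y ∈ E) (hz : z ∈ E) (h : ww x y z = 1) : (x * y * z) ^ 4 = 1 := by
  have L := law_of K.hE K.hC
  rcases K.hQ x hx y hy z hz with h1 | ⟨h1, h2⟩
  · exact h1
  · rw [TE.abc_four L hx hy hz]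
    have e1 : ww y z x = 1 := by rw [← h1, h]
    have e2 : ww z x y = 1 := by rw [← h2, e1]
    unfold omg
    rw [h, e1, e2, one_mul, one_mul]

/-- the values of the words of a step lie in `E` -/
theorem tmem (h : HyF E f) (s : ℕ) : ev f (tx s) ∈ E ∧ ev f (ty s) ∈ E ∧ ev f (tz s) ∈ E := by
  have hD := dl_of K.hE
  have i0 := h.inv K.hE 0
  have i1 := h.inv K.hE 1
  have i2 := h.inv K.hE 2
  have i3 := h.inv K.hE 3
  have e0 : ev f ([] : List ℕ) ∈ E := K.hE.one
  have u01 : ev f [0, 1, 0, 1] ∈ E := by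
    have e : ev f [0, 1, 0, 1] = kk (f 0) (f 1) := by simp [ev, kk, mul_assoc]
    rw [e]
    exact K.hC _ h.m0 _ h.m1
  have u12 : ev f [1, 2, 1, 2] ∈ E := by
    have e : ev f [1, 2, 1, 2] = kk (f 1) (f 2) := by simp [ev, kk, mul_assoc]
    rw [e]
    exact K.hC _ h.m1 _ h.m2
  have u13 : ev f [1, 3, 1, 3] ∈ E := by
    have e : ev f [1, 3, 1, 3] = kk (f 1) (f 3) := by simp [ev, kk, mul_assoc]
    rw [e]
    exact K.hC _ h.m1 _ h.m3
  have v313 : ev f [3, 1, 3] ∈ E := by
    have e : ev f [3, 1, 3] = cj (f 1) (f 3) := by simp [ev, cj, mul_assoc]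
    rw [e]
    exact hD.cj h.m1 i3
  have v212 : ev f [2, 1, 2] ∈ E := by
    have e : ev f [2, 1, 2] = cj (f 1) (f 2) := by simp [ev, cj, mul_assoc]
    rw [e]
    exact hD.cj h.m1 i2
  have v202 : ev f [2, 0, 2] ∈ E := by
    have e : ev f [2, 0, 2] = cj (f 0) (f 2) := by simp [ev, cj, mul_assoc]
    rw [e]
    exact hD.cj h.m0 i2
  have v1031 : ev f [1, 0, 3, 1] ∈ E := by
    have e : ev f [1, 0, 3, 1] = cj (f 0 * f 3) (f 1) := by simp [ev, cj, mul_assoc]
    rw [e]
    exact hD.cj (K.hM _ h.m0 _ h.m3 h.com) i1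
  have l0 : ev f [0] ∈ E := by rw [ev_single]; exact h.m0
  have l2 : ev f [2] ∈ E := by rw [ev_single]; exact h.m2
  have l3 : ev f [3] ∈ E := by rw [ev_single]; exact h.m3
  rcases s with _ | _ | _ | _ | _ | _ | s
  · exact ⟨e0, e0, e0⟩
  · exact ⟨v313, l2, u01⟩
  · exact ⟨u12, v1031, v202⟩
  · exact ⟨u01, v212, l3⟩
  · exact ⟨u13, v212, l0⟩
  · exact ⟨u01, l2, l3⟩
  · exact ⟨e0, e0, e0⟩

/-- the fact proved in a step -/
def Fact (E : Set G) (s : ℕ) : Prop := ∀ f : ℕ → G, HyF E f → ww (ev f (tx s)) (ev f (ty s)) (ev f (tz s)) = 1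

omit K in
theorem fact_zero : Fact E 0 := by
  intro f _
  show ww (1 : G) 1 1 = 1
  simp [ww, cj, kk]

theorem kw_one (h : HyF E f) (s k : ℕ) (hs : k = 3 ∨ Fact E s) : ev f (kw (tx s) (ty s) (tz s) k) = 1 := by
  have L := law_of K.hE K.hC
  obtain ⟨hx, hy, hz⟩ := tmem K h s
  have hcomm : ev f (wkk (www (tx s) (ty s) (tz s)) (tx s)) = 1 := by
    rw [ev_wkk, ev_www]
    exact kk_of_comm (TE.ww_sq L hy hx hz) (K.hE.inv _ hx) (TE.ww_comm_self L hy hx hz)
  rcases hs with hs | hs
  · subst hs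
    exact hcomm
  · have h1 := hs f h
    rcases k with _ | _ | _ | k
    · rw [kw, ev_www]
      exact h1
    · rw [kw, ev_r4, ev_append, ev_append, ← mul_assoc]
      exact tt K hx hy hz h1
    · rw [kw, ev_r4, ev_append, ev_append, ← mul_assoc]
      refine tt K hx hz hy ?_
      rw [TE.ww_symm L hz hx hy]
      exact h1
    · exact hcomm

theorem chke_sound (h : HyF E f) {n : ℕ} (hn : ∀ s, s ≤ n → Fact E s) {e : Ent} (he : chke n e = true) :
    ev f e.1 = 1 := by
  have hI := h.inv K.hE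
  obtain ⟨w, ⟨s, i, k⟩, p, o⟩ := e
  simp only [chke, Bool.and_eq_true, List.isEmpty_iff] at he
  obtain ⟨h1, h2⟩ := he
  have h3 : k = 3 ∨ Fact E s := by
    rw [Bool.or_eq_true] at h1
    rcases h1 with h1 | h1
    · exact Or.inl (Nat.eq_of_beq_eq_true h1)
    · exact Or.inr (hn s (Nat.le_of_ble_eq_true h1))
  have h4 : ev f (sbst i (kw (tx s) (ty s) (tz s) k)) = 1 := by
    rw [ev_sbst]
    exact kw_one K (h.ins K i) s k h3
  have h5 := ev_nf hI h.com (iw ii p ++ (w ++ (p ++ cond o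
    (sbst i (kw (tx s) (ty s) (tz s) k)) (iw ii (sbst i (kw (tx s) (ty s) (tz s) k)))))) []
  rw [h2] at h5
  have hinv : ∀ s, f s * f (ii s) = 1 := hI
  have h6 : ev f (cond o (sbst i (kw (tx s) (ty s) (tz s) k)) (iw ii (sbst i (kw (tx s) (ty s) (tz s) k)))) = 1 := by
    cases o with
    | true => exact h4
    | false => rw [cond_false, ev_iw hinv, h4, inv_one]
  simp only [List.reverse_nil, ev, one_mul, ev_append, h6, mul_one, ev_iw hinv] at h5
  show ev f w = 1
  have h7 : ev f w = ev f p * ((ev f p)⁻¹ * (ev f w * ev f p)) * (ev f p)⁻¹ := by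
    simp only [mul_assoc, mul_inv_cancel, mul_one, mul_inv_cancel_left]
  rw [h7, ← h5, mul_one, mul_inv_cancel]

/-- trivial words: `[a, d] = 1`, `w_a = w_b = w_c` commutes with `a, b, c` -/
def exB : List (List ℕ) := [[0, 3, 0, 3], www [0] [1] [2] ++ iw ii (www [1] [2] [0]),
  www [1] [2] [0] ++ iw ii (www [2] [0] [1]), wkk (www [0] [1] [2]) [0], wkk (www [0] [1] [2]) [1],
  wkk (www [0] [1] [2]) [2]]

theorem world (h : HyF E f) {n : ℕ} (hn : ∀ s, s ≤ n → Fact E s) (es : List Ent)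
    (hes : es.all (fun e => chke n e) = true) :
    World E f [[0, 3]] (exB ++ es.map (fun e => e.1)) := by
  have L := law_of K.hE K.hC
  have hI := h.inv K.hE
  have hinv : ∀ s, f s * f (ii s) = 1 := hI
  have hw : ww (f 0) (f 1) (f 2) ∈ E := K.hC _ (ej L.toDL h.m0 h.m1) _ (ej L.toDL h.m0 h.m2)
  have hws := K.hE.inv _ hw
  have w0 : Commute (ww (f 0) (f 1) (f 2)) (f 0) := TE.ww_comm_self L h.m1 h.m0 h.m2
  have w1 : Commute (ww (f 0) (f 1) (f 2)) (f 1) := TE.ww_comm_left L h.m1 h.m0 h.m2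
  have w2 : Commute (ww (f 0) (f 1) (f 2)) (f 2) := TE.ww_comm_right L h.m1 h.m0 h.m2
  refine ⟨K.hE, K.hC, hI, fun s _ => h.mem K.hE s, h.big, ?_, ?_⟩
  · intro w hw
    rw [List.mem_singleton] at hw
    subst hw
    have e : ev f [0, 3] = f 0 * f 3 := by simp [ev]
    rw [e]
    exact K.hM _ h.m0 _ h.m3 h.com
  · intro w hw
    rcases List.mem_append.1 hw with hw | hw
    · simp only [exB, List.mem_cons, List.not_mem_nil, or_false] at hw
      rcases hw with rfl | rfl | rfl | rfl | rfl | rfl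
      · have e : ev f [0, 3, 0, 3] = f 0 * f 3 * (f 0 * f 3) := by simp [ev, mul_assoc]
        rw [e]
        exact K.hE.inv _ (K.hM _ h.m0 _ h.m3 h.com)
      · rw [ev_append, ev_iw hinv, ev_www, ev_www]
        simp only [ev_single]
        rw [h.q1, mul_inv_cancel]
      · rw [ev_append, ev_iw hinv, ev_www, ev_www]
        simp only [ev_single]
        rw [h.q2, mul_inv_cancel]
      · rw [ev_wkk, ev_www]
        simp only [ev_single]
        exact kk_of_comm hws (hI 0) w0
      · rw [ev_wkk, ev_www]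
        simp only [ev_single]
        exact kk_of_comm hws (hI 1) w1
      · rw [ev_wkk, ev_www]
        simp only [ev_single]
        exact kk_of_comm hws (hI 2) w2
    · rw [List.mem_map] at hw
      obtain ⟨e, he, rfl⟩ := hw
      exact chke_sound K h hn (List.all_eq_true.1 hes e he)

/-- the target of a certificate is conjugate to the word `W` -/
def conc (T W p : List ℕ) : Bool := (fr ii (iw ii p ++ (T ++ (p ++ iw ii W))) []).isEmpty

/-- **the use of a certificate**: if the word `W`, conjugate to the target, has value `1` when the letter `0` is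
replaced by `1`, then it has value `1` -/
theorem concl (h : HyF E f) {n : ℕ} (hn : ∀ s, s ≤ n → Fact E s) (es : List Ent)
    (hes : es.all (fun e => chke n e) = true) (C : Cert)
    (hC : C.ok [[0, 3]] (exB ++ es.map (fun e => e.1)) = true) (W p : List ℕ) (hp : conc C.tgt W p = true)
    (h1 : ev (kill f) W = 1) : ev f W = 1 := by
  have h' : HyF E (RJ.kill f) := h.kill K
  have H := world K h hn es hes
  have H' := world K h' hn es hes
  have h2 := C.main hC H H' (by
    intro s hs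
    unfold RJ.kill
    rw [if_neg hs])
  have key : ∀ g : ℕ → G, HyF E g → (ev g p)⁻¹ * (ev g C.tgt * (ev g p * (ev g W)⁻¹)) = 1 := by
    intro g hg
    have hinv : ∀ s, g s * g (ii s) = 1 := hg.inv K.hE
    have h3 := Pool.Agent.Helper96.SV.ev_fr hinv (iw ii p ++ (C.tgt ++ (p ++ iw ii W))) []
    rw [conc, List.isEmpty_iff] at hp
    rw [hp] at h3
    simp only [List.reverse_nil, ev, one_mul, ev_append, ev_iw hinv] at h3
    exact h3.symm
  have k1 := key f h
  have k2 := key (RJ.kill f) h'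
  rw [h1, inv_one, mul_one] at k2
  have k3 : ev (RJ.kill f) C.tgt = 1 := by
    have e : ev (RJ.kill f) C.tgt = ev (RJ.kill f) p *
        ((ev (RJ.kill f) p)⁻¹ * (ev (RJ.kill f) C.tgt * ev (RJ.kill f) p)) * (ev (RJ.kill f) p)⁻¹ := by
      simp only [mul_assoc, mul_inv_cancel, mul_one, mul_inv_cancel_left]
    rw [e, k2, mul_one, mul_inv_cancel]
  rw [h2, k3, one_mul, ← mul_assoc, inv_mul_cancel, one_mul] at k1
  rw [← inv_inv (ev f W), k1, inv_one]

end basic

end Pool.Agent.Helper46.SV.RJ
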