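import Pool.Agent.Helper46.SV.RelK
import Pool.Agent.Helper94.SV.KFrame

/-!
# The types of triples, and their words

`Ty k x y z` for `k = 1, …, 8`: the eight possible types of a triple of the trichotomy law. `wt k X Y Z` are words which are
trivial if the values of `X, Y, Z` form a triple of type `k`.
-/

set_option autoImplicit false

namespace Pool.Agent.Helper46.SV.RK

open Pool.Agent.Helper94.SV.Frame (c2 DLaw MaxLaw)
open Pool.Agent.Helper94.SV.TL (TLaw QLaw Closed law_of)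
open Pool.Agent.Helper96.SV (ev ev_append iw ev_iw r4 ev_r4)
open Pool.Agent.Helper89.SV (Path)
open Pool.Agent.Helper46.SV.TE (ec ek_left ek_right ek_sq ej)

universe u

/-- words of type `E(xy;z)` -/
def wt3 (x y z : List ℕ) : List (List ℕ) :=
  [www x y z, www y z x, wkk x y ++ iw ii (www z x y), wkk x y ++ iw ii (r4 (x ++ (y ++ z))), wkk (wkk x y) z]

/-- words of type `E(xy^z;z)` -/
def wt4 (x y z : List ℕ) : List (List ℕ) :=
  [www x y z, www y z x, wkk x (wcj y z) ++ iw ii (www z x y), wkk x (wcj y z) ++ iw ii (r4 (x ++ (y ++ z))),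
    wkk (wkk x (wcj y z)) z]

/-- the words of the types -/
def wt (k : ℕ) (x y z : List ℕ) : List (List ℕ) :=
  match k with
  | 1 => [r4 (x ++ (y ++ z))]
  | 2 => [www x y z ++ iw ii (www y z x), www y z x ++ iw ii (www z x y)]
  | 3 => wt3 x y z
  | 4 => wt4 x y z
  | 5 => wt3 z x y
  | 6 => wt4 z x y
  | 7 => wt3 y z x
  | 8 => wt4 y z x
  | _ => []

section basic

variable {G : Type u} [Group G] {E : Set G}

/-- type `E(xy;z)` -/
def Ty3 (x y z : G) : Prop := ww x y z = 1 ∧ ww y z x = 1 ∧ ww z x y = kk x y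

/-- type `E(xy^z;z)` -/
def Ty4 (x y z : G) : Prop := ww x y z = 1 ∧ ww y z x = 1 ∧ ww z x y = kk x (cj y z)

/-- the types -/
def Ty (k : ℕ) (x y z : G) : Prop :=
  match k with
  | 1 => (x * y * z) ^ 4 = 1
  | 2 => ww x y z = ww y z x ∧ ww y z x = ww z x y
  | 3 => Ty3 x y z
  | 4 => Ty4 x y z
  | 5 => Ty3 z x y
  | 6 => Ty4 z x y
  | 7 => Ty3 y z x
  | 8 => Ty4 y z x
  | _ => True

theorem types (hT : TLaw E) {x y z : G} (hx : x ∈ E) (hy : y ∈ E) (hz : z ∈ E) :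
    Ty 1 x y z ∨ Ty 2 x y z ∨ Ty 3 x y z ∨ Ty 4 x y z ∨ Ty 5 x y z ∨ Ty 6 x y z ∨ Ty 7 x y z ∨ Ty 8 x y z := by
  rcases hT x hx y hy z hz with h | h | ⟨h1, h2, h | h⟩ | ⟨h1, h2, h | h⟩ | ⟨h1, h2, h | h⟩
  · exact Or.inl h
  · exact Or.inr (Or.inl h)
  · exact Or.inr (Or.inr (Or.inl ⟨h1, h2, h⟩))
  · exact Or.inr (Or.inr (Or.inr (Or.inl ⟨h1, h2, h⟩)))
  · exact Or.inr (Or.inr (Or.inr (Or.inr (Or.inr (Or.inr (Or.inl ⟨h1, h2, h⟩))))))
  · exact Or.inr (Or.inr (Or.inr (Or.inr (Or.inr (Or.inr (Or.inr ⟨h1, h2, h⟩))))))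
  · exact Or.inr (Or.inr (Or.inr (Or.inr (Or.inl ⟨h1, h2, h⟩))))
  · exact Or.inr (Or.inr (Or.inr (Or.inr (Or.inr (Or.inl ⟨h1, h2, h⟩)))))

theorem w1yz {x y z : G} (_ : x = 1) (hy : y * y = 1) (hz : z * z = 1) : ww x y z = 1 := by
  subst x
  have i1 : cj (1 : G) y = 1 := by simp [cj, hy]
  have i2 : cj (1 : G) z = 1 := by simp [cj, hz]
  unfold ww
  rw [i1, i2]
  simp [kk]

theorem wx1z (h : TE.DL E) {x y z : G} (hx : x ∈ E) (_ : y = 1) (hz : z ∈ E) : ww x y z = 1 := by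
  subst y
  have i1 : cj x (1 : G) = x := by simp [cj]
  unfold ww
  rw [i1]
  exact kk_of_comm (h.inv x hx) (h.inv _ (ej h hx hz)) (ec h hx hz)

theorem wxy1 (h : TE.DL E) {x y z : G} (hx : x ∈ E) (hy : y ∈ E) (_ : z = 1) : ww x y z = 1 := by
  subst z
  have i1 : cj x (1 : G) = x := by simp [cj]
  unfold ww
  rw [i1]
  exact kk_of_comm (h.inv _ (ej h hx hy)) (h.inv x hx) (ec h hx hy).symm

theorem k1y {x y : G} (_ : x = 1) (hy : y * y = 1) : kk x y = 1 := by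
  subst x
  simp [kk, hy]

theorem kx1 {x y : G} (hx : x * x = 1) (_ : y = 1) : kk x y = 1 := by
  subst y
  simp [kk, hx]

variable (h : TE.DL E)
include h

theorem ty3_left {y z : G} (hy : y ∈ E) (hz : z ∈ E) : Ty3 1 y z := by
  have hyy := h.inv y hy
  have hzz := h.inv z hz
  refine ⟨w1yz rfl hyy hzz, wxy1 h hy hz rfl, ?_⟩
  rw [wx1z h hz rfl hy, k1y rfl hyy]

theorem ty3_mid {x z : G} (hx : x ∈ E) (hz : z ∈ E) : Ty3 x 1 z := by
  have hxx := h.inv x hx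
  have hzz := h.inv z hz
  refine ⟨wx1z h hx rfl hz, w1yz rfl hzz hxx, ?_⟩
  rw [wxy1 h hz hx rfl, kx1 hxx rfl]

theorem ty4_left {y z : G} (hy : y ∈ E) (hz : z ∈ E) : Ty4 1 y z := by
  have hyy := h.inv y hy
  have hzz := h.inv z hz
  refine ⟨w1yz rfl hyy hzz, wxy1 h hy hz rfl, ?_⟩
  rw [wx1z h hz rfl hy, k1y rfl (cj_sq hyy hzz)]

theorem ty4_mid {x z : G} (hx : x ∈ E) (hz : z ∈ E) : Ty4 x 1 z := by
  have hxx := h.inv x hx
  have hzz := h.inv z hz
  have i1 : cj (1 : G) z = 1 := by simp [cj, hzz]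
  refine ⟨wx1z h hx rfl hz, w1yz rfl hzz hxx, ?_⟩
  rw [wxy1 h hz hx rfl, kx1 hxx i1]

/-- the triple `(1, y, z)` has the types `1, …, 6` -/
theorem ty_left {y z : G} (hy : y ∈ E) (hz : z ∈ E) (k : ℕ) (hk : k < 7) : Ty k 1 y z := by
  have hyy := h.inv y hy
  have hzz := h.inv z hz
  match k, hk with
  | 0, _ => trivial
  | 1, _ =>
    show (1 * y * z) ^ 4 = 1
    rw [one_mul]
    exact h.four y hy z hz
  | 2, _ =>
    show ww 1 y z = ww y z 1 ∧ ww y z 1 = ww z 1 y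
    rw [w1yz rfl hyy hzz, wxy1 h hy hz rfl, wx1z h hz rfl hy]
    exact ⟨rfl, rfl⟩
  | 3, _ => exact ty3_left h hy hz
  | 4, _ => exact ty4_left h hy hz
  | 5, _ => exact ty3_mid h hz hy
  | 6, _ => exact ty4_mid h hz hy

omit h in
theorem four_kk {x y z : G} (L : TE.Law E) (hx : x ∈ E) (hy : y ∈ E) (hz : z ∈ E) (hxyz : Ty3 x y z) :
    kk x y = (x * y * z) ^ 4 := by
  obtain ⟨e1, e2, e3⟩ := hxyz
  rw [TE.abc_four L hx hy hz]
  show kk x y = ww x y z * ww y z x * ww z x y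
  rw [e1, e2, e3, one_mul, one_mul]

omit h in
theorem four_kk' {x y z : G} (L : TE.Law E) (hx : x ∈ E) (hy : y ∈ E) (hz : z ∈ E) (hxyz : Ty4 x y z) :
    kk x (cj y z) = (x * y * z) ^ 4 := by
  obtain ⟨e1, e2, e3⟩ := hxyz
  rw [TE.abc_four L hx hy hz]
  show kk x (cj y z) = ww x y z * ww y z x * ww z x y
  rw [e1, e2, e3, one_mul, one_mul]

end basic

section words

variable {G : Type u} [Group G] {E : Set G} {f : ℕ → G}

theorem ev_wt3 (L : TE.Law E) (hf : ∀ s, f s * f s = 1) {x y z : List ℕ} (hx : ev f x ∈ E) (hy : ev f y ∈ E)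
    (hz : ev f z ∈ E) (hT : Ty3 (ev f x) (ev f y) (ev f z)) : ∀ w ∈ wt3 x y z, ev f w = 1 := by
  have hk := four_kk L hx hy hz hT
  obtain ⟨e1, e2, e3⟩ := hT
  have hinv : ∀ s, f s * f (ii s) = 1 := hf
  intro w hw
  simp only [wt3, List.mem_cons, List.not_mem_nil, or_false] at hw
  rcases hw with rfl | rfl | rfl | rfl | rfl
  · rw [ev_www, e1]
  · rw [ev_www, e2]
  · rw [ev_append, ev_wkk, ev_iw hinv, ev_www, e3, mul_inv_cancel]
  · rw [ev_append, ev_wkk, ev_iw hinv, ev_r4, ev_append, ev_append, ← mul_assoc, ← hk, mul_inv_cancel]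
  · rw [ev_wkk, ev_wkk]
    have h1 : Commute (ww (ev f z) (ev f x) (ev f y)) (ev f z) := TE.ww_comm_self L hx hz hy
    rw [e3] at h1
    exact kk_of_comm (ek_sq L.toDL hx hy) (L.inv _ hz) h1

theorem ev_wt4 (L : TE.Law E) (hf : ∀ s, f s * f s = 1) {x y z : List ℕ} (hx : ev f x ∈ E) (hy : ev f y ∈ E)
    (hz : ev f z ∈ E) (hT : Ty4 (ev f x) (ev f y) (ev f z)) : ∀ w ∈ wt4 x y z, ev f w = 1 := by
  have hk := four_kk' L hx hy hz hT
  obtain ⟨e1, e2, e3⟩ := hT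
  have hinv : ∀ s, f s * f (ii s) = 1 := hf
  intro w hw
  simp only [wt4, List.mem_cons, List.not_mem_nil, or_false] at hw
  rcases hw with rfl | rfl | rfl | rfl | rfl
  · rw [ev_www, e1]
  · rw [ev_www, e2]
  · rw [ev_append, ev_wkk, ev_wcj, ev_iw hinv, ev_www, e3, mul_inv_cancel]
  · rw [ev_append, ev_wkk, ev_wcj, ev_iw hinv, ev_r4, ev_append, ev_append, ← mul_assoc, ← hk, mul_inv_cancel]
  · rw [ev_wkk, ev_wkk, ev_wcj]
    have h1 : Commute (ww (ev f z) (ev f x) (ev f y)) (ev f z) := TE.ww_comm_self L hx hz hy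
    rw [e3] at h1
    exact kk_of_comm (ek_sq L.toDL hx (ej L.toDL hy hz)) (L.inv _ hz) h1

/-- the words of a type are trivial -/
theorem ev_wt (L : TE.Law E) (hf : ∀ s, f s * f s = 1) {x y z : List ℕ} (hx : ev f x ∈ E) (hy : ev f y ∈ E)
    (hz : ev f z ∈ E) (k : ℕ) (hT : Ty k (ev f x) (ev f y) (ev f z)) : ∀ w ∈ wt k x y z, ev f w = 1 := by
  have hinv : ∀ s, f s * f (ii s) = 1 := hf
  match k, hT with
  | 0, _ => simp [wt]
  | 1, hT =>
    intro w hw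
    rw [wt, List.mem_singleton] at hw
    subst hw
    rw [ev_r4, ev_append, ev_append, ← mul_assoc]
    exact hT
  | 2, hT =>
    intro w hw
    simp only [wt, List.mem_cons, List.not_mem_nil, or_false] at hw
    rcases hw with rfl | rfl
    · rw [ev_append, ev_iw hinv, ev_www, ev_www, ← hT.1, mul_inv_cancel]
    · rw [ev_append, ev_iw hinv, ev_www, ev_www, ← hT.2, mul_inv_cancel]
  | 3, hT => exact ev_wt3 L hf hx hy hz hT
  | 4, hT => exact ev_wt4 L hf hx hy hz hT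
  | 5, hT => exact ev_wt3 L hf hz hx hy hT
  | 6, hT => exact ev_wt4 L hf hz hx hy hT
  | 7, hT => exact ev_wt3 L hf hy hz hx hT
  | 8, hT => exact ev_wt4 L hf hy hz hx hT
  | (n + 9), _ => simp [wt]

end words

end Pool.Agent.Helper46.SV.RK
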