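import Pool.Agent.Helper46.SV.LeafData
import Pool.Agent.Helper46.SV.JClos
import Pool.Agent.Helper91.SV.L1a

/-!
# The two leaves of step L1a
-/

set_option autoImplicit false

open Subgroup

namespace Pool.Agent.Helper46.SV.RJ

open Pool.Agent.Helper94.SV.Frame (c2 DLaw MaxLaw)
open Pool.Agent.Helper96.SV (ev ev_append iw ev_iw r4 ev_r4)
open Pool.Agent.Helper46.SV.TE (ec ek_left ek_right ek_sq ej)
open Pool.Agent.Helper91.SV (Leaf1 Leaf2 L1a l1a_of_leaves)

universe u

section basic

variable {G : Type u} [Group G] {E : Set G}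

/-- the letters -/
def fl (a b c d : G) (s : ℕ) : G :=
  if s = 0 then a else if s = 1 then b else if s = 2 then c else if s = 3 then d else 1

theorem fl_inv {a b c d : G} (ha : a * a = 1) (hb : b * b = 1) (hc : c * c = 1) (hd : d * d = 1) (s : ℕ) :
    fl a b c d s * fl a b c d s = 1 := by
  unfold fl
  split_ifs <;> simp [*]

theorem fl_mem (hE : DLaw E) {a b c d : G} (ha : a ∈ E) (hb : b ∈ E) (hc : c ∈ E) (hd : d ∈ E) (s : ℕ) :
    fl a b c d s ∈ E := by
  unfold fl
  split_ifs
  · exact ha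
  · exact hb
  · exact hc
  · exact hd
  · exact hE.one

/-- the words of the exceptional triple -/
theorem world_of (hS : NoD16 G) (hE : MaxLaw E) (hcl : ∀ a ∈ E, ∀ b ∈ E, c2 a b ∈ E) {a b c d : G}
    (ha : a ∈ E) (hb : b ∈ E) (hc : c ∈ E) (hd : d ∈ E) (had : Commute a d) (hexc : Exc a b c)
    (ex : List (List ℕ)) (hex : ∀ w ∈ ex, ev (fl a b c d) w = 1) :
    World E (fl a b c d) spL (exL ++ ex) := by
  have hD := dl_of hE.law
  have haa := hD.inv a ha
  have hbb := hD.inv b hb
  have hcc := hD.inv c hc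
  have hdd := hD.inv d hd
  have e0 : fl a b c d 0 = a := rfl
  have e1 : fl a b c d 1 = b := rfl
  have e2 : fl a b c d 2 = c := rfl
  have e3 : fl a b c d 3 = d := rfl
  obtain ⟨x1, x2, x3, x4⟩ := hexc
  have hI := fl_inv haa hbb hcc hdd
  refine ⟨hE.law, hcl, hI, fun s _ => fl_mem hE.law ha hb hc hd s, ?_, ?_, ?_⟩
  · intro s hs
    unfold fl
    rw [if_neg (by omega), if_neg (by omega), if_neg (by omega), if_neg (by omega)]
  · intro w hw
    simp only [spL, List.mem_cons, List.not_mem_nil, or_false] at hw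
    rcases hw with rfl | rfl
    · have h : ev (fl a b c d) [0, 3] = a * d := by simp [ev, e0, e3]
      rw [h]
      exact mul_mem_of_max hS hE ha hd had
    · rw [ev_append, ev_wkk, ev_single, ev_single, ev_single, e0, e1, e2]
      exact mul_mem_of_max hS hE (hcl a ha b hb) hc x2
  · intro w hw
    rcases List.mem_append.1 hw with hw | hw
    · simp only [exL, List.mem_cons, List.not_mem_nil, or_false] at hw
      rcases hw with rfl | rfl | rfl | rfl | rfl
      · have h : ev (fl a b c d) [0, 3, 0, 3] = a * d * (a * d) := by simp [ev, e0, e3, mul_assoc]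
        rw [h]
        exact mul_sq_comm had haa hdd
      · rw [ev_append, ev_wkk, ev_iw (iv := ii) hI, ev_r4, ev_single, ev_single, e0, e1]
        have h : ev (fl a b c d) [0, 1, 2] = a * b * c := by simp [ev, e0, e1, e2, mul_assoc]
        rw [h, x1, mul_inv_cancel]
      · rw [ev_wkk, ev_wkk, ev_single, ev_single, ev_single, e0, e1, e2]
        exact kk_of_comm (ek_sq hD ha hb) hcc x2
      · rw [ev_www, ev_single, ev_single, ev_single, e0, e1, e2]
        exact x3
      · rw [ev_www, ev_single, ev_single, ev_single, e0, e1, e2]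
        exact x4
    · exact hex w hw

/-- the trivial triple `(1, b, c)` is exceptional -/
theorem exc_one (hD : TE.DL E) {b c : G} (hb : b ∈ E) (hc : c ∈ E) : Exc 1 b c := by
  have hbb := hD.inv b hb
  have hcc := hD.inv c hc
  have h1 : kk (1 : G) b = 1 := by simp [kk, hbb]
  refine ⟨?_, ?_, ?_, ?_⟩
  · rw [h1, one_mul, hD.four b hb c hc]
  · rw [h1]
    exact Commute.one_left c
  · have i1 : cj (1 : G) b = 1 := by simp [cj, hbb]
    have i2 : cj (1 : G) c = 1 := by simp [cj, hcc]
    unfold ww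
    rw [i1, i2]
    simp [kk]
  · have i2 : cj b (1 : G) = b := by simp [cj]
    unfold ww
    rw [i2]
    exact kk_of_comm (hD.inv _ (ej hD hb hc)) hbb (ec hD hb hc).symm

/-- the conclusion of a certificate -/
theorem leaf_of (hS : NoD16 G) (hE : MaxLaw E) (hcl : ∀ a ∈ E, ∀ b ∈ E, c2 a b ∈ E) {a b c d : G}
    (ha : a ∈ E) (hb : b ∈ E) (hc : c ∈ E) (hd : d ∈ E) (had : Commute a d) (hexc : Exc a b c)
    (ex : List (List ℕ)) (hex : ∀ w ∈ ex, ev (fl a b c d) w = 1) (hex' : ∀ w ∈ ex, ev (fl 1 b c d) w = 1)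
    (C : Cert) (hC : C.ok spL (exL ++ ex) = true) (ht : dl C.tgt = wkk (wkk [0] [1]) [3]) :
    Commute (kk a b) (cj c d) := by
  have hD := dl_of hE.law
  have H := world_of hS hE hcl ha hb hc hd had hexc ex hex
  have H' := world_of hS hE hcl hE.law.one hb hc hd (Commute.one_left d) (exc_one hD hb hc) ex hex'
  have h := C.main hC H H' (by
    intro s hs
    unfold fl
    rw [if_neg hs, if_neg hs])
  rw [← ev_dl H, ← ev_dl H', ht, ev_wkk, ev_wkk, ev_wkk, ev_wkk] at h
  simp only [ev_single] at h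
  have e0 : fl a b c d 0 = a := rfl
  have e1 : fl a b c d 1 = b := rfl
  have e3 : fl a b c d 3 = d := rfl
  have e0' : fl 1 b c d 0 = 1 := rfl
  have e1' : fl 1 b c d 1 = b := rfl
  have e3' : fl 1 b c d 3 = d := rfl
  rw [e0, e1, e3, e0', e1', e3'] at h
  have hbb := hD.inv b hb
  have hdd := hD.inv d hd
  have h1 : kk (kk (1 : G) b) d = 1 := by simp [kk, hbb, hdd]
  rw [h1] at h
  have h2 : Commute (kk a b) d := comm_of_kk (ek_sq hD ha hb) hdd h
  have h3 : Commute (kk a b) c := hexc.2.1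
  exact (h2.mul_right h3).mul_right h2

theorem leaf1 (hS : NoD16 G) (hE : MaxLaw E) (hcl : ∀ a ∈ E, ∀ b ∈ E, c2 a b ∈ E) : Leaf1 E := by
  intro a ha b hb c hc d hd hexc had h1
  have hD := dl_of hE.law
  have hlaw := law_of_noD16 hS hD
  refine leaf_of hS hE hcl ha hb hc hd had hexc [r4 [0, 3, 1, 3, 2]] ?_ ?_ cA1 cA1_ok rfl
  · intro w hw
    rw [List.mem_singleton] at hw
    subst hw
    rw [ev_r4]
    have h : ev (fl a b c d) [0, 3, 1, 3, 2] = a * cj b d * c := by
      simp [ev, fl, cj, mul_assoc]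
    rw [h, TE.abc_four hlaw ha (ej hD hb hd) hc]
    exact h1
  · intro w hw
    rw [List.mem_singleton] at hw
    subst hw
    rw [ev_r4]
    have h : ev (fl 1 b c d) [0, 3, 1, 3, 2] = cj b d * c := by
      simp [ev, fl, cj, mul_assoc]
    rw [h]
    exact hD.four _ (ej hD hb hd) c hc

theorem leaf2 (hS : NoD16 G) (hE : MaxLaw E) (hcl : ∀ a ∈ E, ∀ b ∈ E, c2 a b ∈ E) : Leaf2 E := by
  intro a ha b hb c hc d hd hexc had h1
  have hD := dl_of hE.law
  refine leaf_of hS hE hcl ha hb hc hd had hexc [www [2] [0] [3, 1, 3]] ?_ ?_ cA2 cA2_ok rfl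
  · intro w hw
    rw [List.mem_singleton] at hw
    subst hw
    rw [ev_www, ev_single, ev_single]
    have h : ev (fl a b c d) [3, 1, 3] = cj b d := by
      simp [ev, fl, cj, mul_assoc]
    rw [h]
    exact h1
  · intro w hw
    rw [List.mem_singleton] at hw
    subst hw
    rw [ev_www, ev_single, ev_single]
    have h : ev (fl 1 b c d) [3, 1, 3] = cj b d := by
      simp [ev, fl, cj, mul_assoc]
    have e0' : fl 1 b c d 0 = 1 := rfl
    have e2' : fl 1 b c d 2 = c := rfl
    have i2 : cj c (1 : G) = c := by simp [cj]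
    rw [h, e0', e2']
    unfold ww
    rw [i2]
    exact kk_of_comm (hD.inv c hc) (hD.inv _ (ej hD hc (ej hD hb hd))) (ec hD hc (ej hD hb hd))

/-- **L1a** for a maximal closed `DLaw` set of a group without sections `D₁₆` -/
theorem l1a (hS : NoD16 G) (hE : MaxLaw E) (hcl : ∀ a ∈ E, ∀ b ∈ E, c2 a b ∈ E) : L1a E :=
  l1a_of_leaves hS hE (leaf1 hS hE hcl) (leaf2 hS hE hcl)

end basic

end Pool.Agent.Helper46.SV.RJ
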