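import Pool.Agent.Helper46.SV.Tri

/-!
# Groups without dihedral and semidihedral sections of order 16

If a 2-group has no section isomorphic to the dihedral or to the semidihedral group of order 16, then
`(a b c)⁴ = 1` for all involutions `a, b, c`.
-/

set_option autoImplicit false

open Subgroup

namespace Pool.Agent.Helper46.SV

universe u

/-- the dihedral group of order 16 -/
def IsDih16 (Q : Type u) [Group Q] : Prop :=
  ∃ s t : Q, closure {s, t} = ⊤ ∧ orderOf s = 8 ∧ t * t = 1 ∧ t * s * t = s⁻¹

/-- the semidihedral group of order 16 -/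
def IsSD16 (Q : Type u) [Group Q] : Prop :=
  ∃ s t : Q, closure {s, t} = ⊤ ∧ orderOf s = 8 ∧ t * t = 1 ∧ t * s * t = s ^ 3

/-- no section of `G` is dihedral or semidihedral of order 16 -/
def NoSec (G : Type u) [Group G] : Prop :=
  ∀ (Q : Type u) [Group Q] (H : Subgroup G) (f : H →* Q), Function.Surjective f →
    ¬ IsDih16 Q ∧ ¬ IsSD16 Q

section basic

variable {G : Type u} [Group G]

/-- a subgroup of a section is a section -/
theorem sec_sub {Q : Type u} [Group Q] {H : Subgroup G} (f : H →* Q) (hf : Function.Surjective f)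
    (K : Subgroup Q) : ∃ (H' : Subgroup G) (f' : H' →* K), Function.Surjective f' := by
  refine ⟨(K.comap f).map H.subtype, (f.subgroupComap K).comp
    ((K.comap f).equivMapOfInjective _ H.subtype_injective).symm.toMonoidHom, ?_⟩
  have h1 : Function.Surjective (f.subgroupComap K) := f.subgroupComap_surjective_of_surjective K hf
  have h2 : Function.Surjective
      ((K.comap f).equivMapOfInjective _ H.subtype_injective).symm.toMonoidHom :=
    ((K.comap f).equivMapOfInjective _ H.subtype_injective).symm.surjective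
  exact h1.comp h2

theorem closure_pair_top {Q : Type u} [Group Q] (s t : Q) :
    closure {(⟨s, subset_closure (by simp)⟩ : closure ({s, t} : Set Q)),
      ⟨t, subset_closure (by simp)⟩} = ⊤ := by
  have h := closure_closure_coe_preimage (k := ({s, t} : Set Q))
  have e : ((↑) ⁻¹' ({s, t} : Set Q) : Set (closure ({s, t} : Set Q))) =
      {⟨s, subset_closure (by simp)⟩, ⟨t, subset_closure (by simp)⟩} := by
    ext x
    simp [Subtype.ext_iff]
  rw [e] at h
  exact h

/-- two involutions of a section generate a dihedral group of order at most 8 -/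
theorem four_of_sec (hG : IsPGroup 2 G) (hS : NoSec G) {Q : Type u} [Group Q] {H : Subgroup G}
    (f : H →* Q) (hf : Function.Surjective f) {p q : Q} (hp : p * p = 1) (hq : q * q = 1) :
    (p * q) ^ 4 = 1 := by
  by_contra hne
  set r := p * q with hr
  have hpow : ∃ k, r ^ (2 ^ k) = 1 := by
    obtain ⟨g, hg⟩ := hf r
    obtain ⟨k, hk⟩ := hG (g : G)
    refine ⟨k, ?_⟩
    have h1 : g ^ (2 ^ k) = 1 := by
      ext
      simpa using hk
    rw [← hg, ← map_pow, h1, map_one]
  obtain ⟨k, hk⟩ := hpow
  obtain ⟨m, hm, hm2⟩ := (Nat.dvd_prime_pow Nat.prime_two).mp (orderOf_dvd_of_pow_eq_one hk)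
  have hm3 : 3 ≤ m := by
    by_contra hlt
    apply hne
    have h1 : orderOf r ∣ 4 := by
      rw [hm2]
      have : m ≤ 2 := by omega
      exact (pow_dvd_pow 2 this)
    exact orderOf_dvd_iff_pow_eq_one.mp h1
  set s := r ^ (2 ^ (m - 3)) with hs
  have hs8 : orderOf s = 8 := by
    rw [hs, orderOf_pow_of_dvd (by positivity) (by rw [hm2]; exact pow_dvd_pow 2 (by omega)), hm2,
      Nat.pow_div (by omega) (by norm_num)]
    have : m - (m - 3) = 3 := by omega
    rw [this]
  have hpr : p * r * p = r⁻¹ := by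
    rw [hr, mul_inv_rev, inv_of hp, inv_of hq, ← mul_assoc, hp, one_mul]
  have hps : p * s * p = s⁻¹ := by
    rw [hs, ← inv_pow, ← hpr]
    have h1 : p * r * p = p * r * p⁻¹ := by rw [inv_of hp]
    rw [h1, conj_pow, inv_of hp]
  obtain ⟨H', f', hf'⟩ := sec_sub f hf (closure {s, p})
  refine (hS _ H' f' hf').1 ⟨⟨s, subset_closure (by simp)⟩, ⟨p, subset_closure (by simp)⟩,
    closure_pair_top s p, ?_, ?_, ?_⟩
  · rw [Subgroup.orderOf_mk]
    exact hs8
  · ext
    exact hp
  · ext
    exact hps

/-- the law for involutions -/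
theorem inv4_of_noSec (hG : IsPGroup 2 G) (hS : NoSec G) : Inv4 G := by
  intro x y hx hy
  exact four_of_sec hG hS (H := ⊤) (⊤ : Subgroup G).subtype (fun q => ⟨⟨q, mem_top q⟩, rfl⟩) hx hy

/-- `s² ∈ L`, `t² ∈ L` imply `(s t)⁴ ∈ L` if `L` is normalised by `s` and `t` -/
theorem four_mem (hG : IsPGroup 2 G) (hS : NoSec G) {L : Subgroup G} {s t : G}
    (hs : s ∈ normalizer (L : Set G)) (ht : t ∈ normalizer (L : Set G)) (hss : s * s ∈ L)
    (htt : t * t ∈ L) : (s * t) ^ 4 ∈ L := by
  have hle : closure {s, t} ≤ normalizer (L : Set G) := by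
    rw [closure_le]
    rintro x (rfl | rfl)
    · exact hs
    · exact ht
  have : (L.subgroupOf (closure {s, t})).Normal := normal_subgroupOf_of_le_normalizer hle
  let s' : closure ({s, t} : Set G) := ⟨s, subset_closure (by simp)⟩
  let t' : closure ({s, t} : Set G) := ⟨t, subset_closure (by simp)⟩
  let f := QuotientGroup.mk' (L.subgroupOf (closure {s, t}))
  have h1 : f s' * f s' = 1 := by
    rw [← map_mul]
    exact (QuotientGroup.eq_one_iff _).mpr hss
  have h2 : f t' * f t' = 1 := by
    rw [← map_mul]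
    exact (QuotientGroup.eq_one_iff _).mpr htt
  have h3 := four_of_sec hG hS f (QuotientGroup.mk'_surjective _) h1 h2
  rw [← map_mul, ← map_pow] at h3
  have h4 : (s' * t') ^ 4 ∈ L.subgroupOf (closure {s, t}) := (QuotientGroup.eq_one_iff _).mp h3
  exact h4

/-- no semidihedral subgroup -/
theorem sd (hS : NoSec G) {s t : G} (ht : t * t = 1) (h8 : s ^ 8 = 1) (hst : t * s * t = s ^ 3) :
    s ^ 4 = 1 := by
  by_contra hne
  have h1 : orderOf s = 8 := by
    have h2 := orderOf_eq_prime_pow (p := 2) (n := 2) (x := s) (by simpa using hne) (by simpa using h8)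
    simpa using h2
  refine (hS _ (closure {s, t}) (MonoidHom.id _) Function.surjective_id).2
    ⟨⟨s, subset_closure (by simp)⟩, ⟨t, subset_closure (by simp)⟩, closure_pair_top s t, ?_, ?_, ?_⟩
  · rw [Subgroup.orderOf_mk]
    exact h1
  · ext
    exact ht
  · ext
    exact hst

/-- the elements of `⟨x, y, z⟩` for commuting involutions -/
theorem mem_three {x y z g : G} (hxy : Commute x y) (hxz : Commute x z) (hyz : Commute y z)
    (hx : x * x = 1) (hy : y * y = 1) (hz : z * z = 1) (hg : g ∈ closure {x, y, z}) :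
    ∃ i j k : ℕ, g = x ^ i * y ^ j * z ^ k := by
  induction hg using closure_induction with
  | mem g hg =>
    rcases hg with rfl | rfl | rfl
    · exact ⟨1, 0, 0, by simp⟩
    · exact ⟨0, 1, 0, by simp⟩
    · exact ⟨0, 0, 1, by simp⟩
  | one => exact ⟨0, 0, 0, by simp⟩
  | mul g g' _ _ ih ih' =>
    obtain ⟨i, j, k, rfl⟩ := ih
    obtain ⟨i', j', k', rfl⟩ := ih'
    refine ⟨i + i', j + j', k + k', ?_⟩
    have e1 : x ^ i * y ^ j * z ^ k * (x ^ i' * y ^ j' * z ^ k') =
        x ^ i * (y ^ j * (z ^ k * x ^ i') * y ^ j') * z ^ k' := by simp only [mul_assoc]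
    have e2 : z ^ k * x ^ i' = x ^ i' * z ^ k := (hxz.symm.pow_pow k i').eq
    have e3 : y ^ j * x ^ i' = x ^ i' * y ^ j := (hxy.symm.pow_pow j i').eq
    have e4 : z ^ k * y ^ j' = y ^ j' * z ^ k := (hyz.symm.pow_pow k j').eq
    rw [e1, e2]
    calc x ^ i * (y ^ j * (x ^ i' * z ^ k) * y ^ j') * z ^ k'
        = x ^ i * ((y ^ j * x ^ i') * (z ^ k * y ^ j')) * z ^ k' := by simp only [mul_assoc]
      _ = x ^ i * ((x ^ i' * y ^ j) * (y ^ j' * z ^ k)) * z ^ k' := by rw [e3, e4]
      _ = _ := by simp only [pow_add, mul_assoc]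
  | inv g _ ih =>
    obtain ⟨i, j, k, rfl⟩ := ih
    refine ⟨i, j, k, ?_⟩
    have sq : ∀ {w : G} (n : ℕ), w * w = 1 → (w ^ n)⁻¹ = w ^ n := by
      intro w n hw
      rw [← inv_pow, inv_of hw]
    rw [mul_inv_rev, mul_inv_rev, sq i hx, sq j hy, sq k hz]
    have e2 : z ^ k * x ^ i = x ^ i * z ^ k := (hxz.symm.pow_pow k i).eq
    have e3 : y ^ j * x ^ i = x ^ i * y ^ j := (hxy.symm.pow_pow j i).eq
    have e4 : z ^ k * y ^ j = y ^ j * z ^ k := (hyz.symm.pow_pow k j).eq
    rw [e3, ← mul_assoc, e2, mul_assoc, e4, mul_assoc]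

theorem pow_cases {x : G} (hx : x * x = 1) (n : ℕ) : x ^ n = 1 ∨ x ^ n = x := by
  rcases Nat.even_or_odd' n with ⟨m, rfl | rfl⟩
  · left
    rw [pow_mul, pow_two, hx, one_pow]
  · right
    rw [pow_succ, pow_mul, pow_two, hx, one_pow, one_mul]

theorem mem_norm {L : Subgroup G} {g : G} {S : Set G} (hL : L = closure S)
    (h1 : ∀ x ∈ S, g * x * g⁻¹ ∈ L) (h2 : ∀ x ∈ S, g⁻¹ * x * g ∈ L) :
    g ∈ normalizer (L : Set G) := by
  have key : ∀ k : G, (∀ x ∈ S, k * x * k⁻¹ ∈ L) → ∀ x ∈ L, k * x * k⁻¹ ∈ L := by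
    intro k hk x hx
    have h3 : L ≤ L.comap (MulAut.conj k).toMonoidHom := by
      nth_rewrite 1 [hL]
      rw [closure_le]
      intro y hy
      exact hk y hy
    exact h3 hx
  rw [mem_normalizer_iff]
  intro x
  constructor
  · exact key g h1 x
  · intro hx
    have h3 := key g⁻¹ (by simpa using h2) _ hx
    have e : g⁻¹ * (g * x * g⁻¹) * g⁻¹⁻¹ = x := by group
    rwa [e] at h3

theorem omg_comm (h : Inv4 G) {a b c : G} (ha : a * a = 1) (hb : b * b = 1) (hc : c * c = 1) :
    omg a b c = omg b a c := by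
  unfold omg
  rw [ww_symm h ha hb hc, ww_symm h hc ha hb, ww_symm h hb hc ha, (ww_ww h ha hb hc).eq]

theorem omg_cyc (h : Inv4 G) {a b c : G} (ha : a * a = 1) (hb : b * b = 1) (hc : c * c = 1) :
    omg a b c = omg b c a := by
  unfold omg
  have k1 : Commute (ww a b c) (ww b c a * ww c a b) := (ww_ww h ha hb hc).mul_right (ww_ww h hc ha hb).symm
  rw [mul_assoc, k1.eq]

theorem abc_four (h : Inv4 G) {a b c : G} (ha : a * a = 1) (hb : b * b = 1) (hc : c * c = 1) :
    (a * b * c) ^ 4 = omg a b c := by
  rw [omg_comm h ha hb hc]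
  exact om h hb ha hc

/-- `ω² = 1` -/
theorem omg_sq (h : Inv4 G) {a b c : G} (ha : a * a = 1) (hb : b * b = 1) (hc : c * c = 1) :
    omg a b c * omg a b c = 1 := by
  have k1 := ww_ww h ha hb hc
  have k2 := ww_ww h hb hc ha
  have k3 := ww_ww h hc ha hb
  have s1 := ww_sq h hb ha hc
  have s2 := ww_sq h hc hb ha
  have s3 := ww_sq h ha hc hb
  have s12 : ww a b c * ww b c a * (ww a b c * ww b c a) = 1 := mul_sq_comm k1 s1 s2
  exact mul_sq_comm (k3.symm.mul_left k2) s12 s3

/-- the consequence of the section hypothesis for the pair `(a b, c)` -/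
theorem caseF (hG : IsPGroup 2 G) (hS : NoSec G) {a b c : G} (ha : a * a = 1) (hb : b * b = 1)
    (hc : c * c = 1) : omg a b c = 1 ∨ ww c a b = 1 ∨
      (ww a b c = 1 ∧ ww b c a = 1 ∧ kk (kk a b) c = omg a b c) := by
  have h := inv4_of_noSec hG hS
  set u := kk a b with hu
  set e := cj u c with he
  have huu : u * u = 1 := kk_sq h ha hb
  have hee : e * e = 1 := cj_sq huu hc
  have k1 := ww_ww h ha hb hc
  have k2 := ww_ww h hb hc ha
  have k3 := ww_ww h hc ha hb
  have s1 := ww_sq h hb ha hc
  have s2 := ww_sq h hc hb ha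
  have s3 := ww_sq h ha hc hb
  have aa := ww_comm_self h hb ha hc
  have ab := ww_comm_left h hb ha hc
  have ac := ww_comm_right h hb ha hc
  have bb := ww_comm_self h hc hb ha
  have bc := ww_comm_left h hc hb ha
  have ba := ww_comm_right h hc hb ha
  have cc' := ww_comm_self h ha hc hb
  have ca := ww_comm_left h ha hc hb
  have cb := ww_comm_right h ha hc hb
  set W := ww a b c * ww b c a with hW
  have hWW : W * W = 1 := mul_sq_comm k1 s1 s2
  have Wa : Commute W a := aa.mul_left ba
  have Wb : Commute W b := ab.mul_left bb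
  have Wc : Commute W c := ac.mul_left bc
  have Wu : Commute W u := comm_kk_right Wa Wb
  have We : Commute W e := comm_cj_right Wu Wc
  have hue : Commute u e := comm_cj h huu hc
  have hua : Commute u a := kk_left h ha hb
  have hub : Commute u b := kk_right h ha hb
  -- conjugation of `e`
  have ea : cj e a = e * ww a b c := cj_e h ha hb hc
  have eb : cj e b = e * ww b c a := by
    have i1 := cj_e h hb ha hc
    rw [kk_comm h hb ha, ww_symm h ha hb hc] at i1
    exact i1
  have ec : cj e c = u := cj_cj hc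
  have eab : cj (cj e b) a = e * W := by
    rw [eb, cj_mul ha, ea, (commute_iff_cj ha).mp ba, hW, mul_assoc]
  have eba : cj (cj e a) b = e * W := by
    rw [ea, cj_mul hb, eb, (commute_iff_cj hb).mp ab, hW, mul_assoc, k1.symm.eq]
  set L : Subgroup G := closure {u, e, W} with hL
  have huL : u ∈ L := subset_closure (by simp)
  have heL : e ∈ L := subset_closure (by simp)
  have hWL : W ∈ L := subset_closure (by simp)
  have hj : a * b ∈ normalizer (L : Set G) := by
    refine mem_norm hL ?_ ?_
    · rintro x (rfl | rfl | rfl)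
      · have i1 : a * b * u * (a * b)⁻¹ = u := by
          rw [mul_inv_eq_iff_eq_mul]
          exact ((hua.mul_right hub).eq).symm
        rw [i1]
        exact huL
      · have i1 : a * b * e * (a * b)⁻¹ = e * W := by
          rw [← eab, mul_inv_rev, inv_of ha, inv_of hb]
          simp only [cj, mul_assoc]
        rw [i1]
        exact mul_mem heL hWL
      · have i1 : a * b * W * (a * b)⁻¹ = W := by
          rw [mul_inv_eq_iff_eq_mul]
          exact ((Wa.mul_right Wb).eq).symm
        rw [i1]
        exact hWL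
    · rintro x (rfl | rfl | rfl)
      · have i1 : (a * b)⁻¹ * u * (a * b) = u := by
          rw [mul_assoc, inv_mul_eq_iff_eq_mul]
          exact (hua.mul_right hub).eq
        rw [i1]
        exact huL
      · have i1 : (a * b)⁻¹ * e * (a * b) = e * W := by
          rw [← eba, mul_inv_rev, inv_of ha, inv_of hb]
          simp only [cj, mul_assoc]
        rw [i1]
        exact mul_mem heL hWL
      · have i1 : (a * b)⁻¹ * W * (a * b) = W := by
          rw [mul_assoc, inv_mul_eq_iff_eq_mul]
          exact (Wa.mul_right Wb).eq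
        rw [i1]
        exact hWL
  have hcn : c ∈ normalizer (L : Set G) := by
    have hc1 : ∀ x ∈ ({u, e, W} : Set G), c * x * c ∈ L := by
      rintro x (rfl | rfl | rfl)
      · exact heL
      · have i1 : c * e * c = u := ec
        rw [i1]
        exact huL
      · have i1 : c * W * c = W := (commute_iff_cj hc).mp Wc
        rw [i1]
        exact hWL
    refine mem_norm hL ?_ ?_
    · intro x hx
      rw [inv_of hc]
      exact hc1 x hx
    · intro x hx
      rw [inv_of hc]
      exact hc1 x hx
  have hmem := four_mem hG hS hj hcn (by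
    have i1 : a * b * (a * b) = u := rfl
    rw [i1]
    exact huL) (by
    rw [hc]
    exact one_mem _)
  rw [abc_four h ha hb hc] at hmem
  obtain ⟨i, j, k, hijk⟩ := mem_three hue Wu.symm We.symm huu hee hWW hmem
  have hom : omg a b c = W * ww c a b := rfl
  have Oa : Commute (omg a b c) a := Wa.mul_left ca
  have Ob : Commute (omg a b c) b := Wb.mul_left cb
  have Oc : Commute (omg a b c) c := Wc.mul_left cc'
  have hOO := omg_sq h ha hb hc
  -- the case `e = u`
  have keyA : e = u → omg a b c = u * W ^ k → omg a b c = 1 := by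
    intro heu h1
    have i1 : ww a b c = 1 := by
      have i2 : cj e a = e := by
        rw [heu]
        exact (commute_iff_cj ha).mp hua
      rw [ea] at i2
      exact mul_eq_left.mp i2
    have i3 : ww b c a = 1 := by
      have i2 : cj e b = e := by
        rw [heu]
        exact (commute_iff_cj hb).mp hub
      rw [eb] at i2
      exact mul_eq_left.mp i2
    have i4 : W = 1 := by rw [hW, i1, i3, one_mul]
    rw [i4, one_pow, mul_one] at h1
    have huc : Commute u c := (commute_iff_cj hc).mpr heu
    have i5 : (a * b * c) ^ 4 = u := by rw [abc_four h ha hb hc, h1]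
    have i6 : (a * b * c) ^ 4 = 1 := by
      refine sd hS (t := c) hc ?_ ?_
      · have i7 : (a * b * c) ^ 8 = (a * b * c) ^ 4 * (a * b * c) ^ 4 := by rw [← pow_add]
        rw [i7, i5, huu]
      · -- `c (a b c) c = (a b c)³`
        have i7 : (a * b * c) ^ 3 * (a * b * c) = u := by rw [← pow_succ, i5]
        have i8 : c * (a * b * c) * c * (a * b * c) = u := by
          calc c * (a * b * c) * c * (a * b * c) = c * (a * b * (a * b)) * c := by
                simp only [mul_assoc, cc hc]
            _ = u := heu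
        exact mul_right_cancel (i8.trans i7.symm)
    rw [← abc_four h ha hb hc]
    exact i6
  have Wk : ∀ x : G, Commute W x → Commute (W ^ k) x := fun x hx => hx.pow_left k
  rcases pow_cases huu i with hi | hi <;> rcases pow_cases hee j with hj' | hj'
  · -- `ω = W^k`
    rw [hi, hj', one_mul, one_mul] at hijk
    rcases pow_cases hWW k with hk | hk
    · left
      rw [hijk, hk]
    · right
      left
      rw [hk, hom] at hijk
      exact mul_eq_left.mp hijk
  · -- `ω = e W^k`
    rw [hi, hj', one_mul] at hijk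
    left
    have i1 : Commute e c := by
      have i2 : e = omg a b c * (W ^ k)⁻¹ := by rw [hijk]; group
      rw [i2]
      exact Oc.mul_left ((Wk c Wc).inv_left)
    have i3 : e = u := by
      rw [← ec]
      exact ((commute_iff_cj hc).mp i1).symm
    refine keyA i3 ?_
    rw [hijk, i3]
  · -- `ω = u W^k`
    rw [hi, hj', mul_one] at hijk
    left
    have i1 : Commute u c := by
      have i2 : u = omg a b c * (W ^ k)⁻¹ := by rw [hijk]; group
      rw [i2]
      exact Oc.mul_left ((Wk c Wc).inv_left)
    have i3 : e = u := (commute_iff_cj hc).mp i1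
    exact keyA i3 hijk
  · -- `ω = u e W^k`
    rw [hi, hj'] at hijk
    right
    right
    have i1 : u * e = omg a b c * (W ^ k)⁻¹ := by rw [hijk]; group
    have i2 : Commute (u * e) a := by
      rw [i1]
      exact Oa.mul_left ((Wk a Wa).inv_left)
    have i3 : Commute (u * e) b := by
      rw [i1]
      exact Ob.mul_left ((Wk b Wb).inv_left)
    have i4 : ww a b c = 1 := by
      have i5 := (commute_iff_cj ha).mp i2
      rw [cj_mul ha, (commute_iff_cj ha).mp hua, ea, ← mul_assoc] at i5
      exact mul_eq_left.mp i5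
    have i6 : ww b c a = 1 := by
      have i5 := (commute_iff_cj hb).mp i3
      rw [cj_mul hb, (commute_iff_cj hb).mp hub, eb, ← mul_assoc] at i5
      exact mul_eq_left.mp i5
    refine ⟨i4, i6, ?_⟩
    have i7 : W = 1 := by rw [hW, i4, i6, one_mul]
    rw [hijk, i7, one_pow, mul_one, kk_eq]

/-- `ω = 1` or `w(c;a,b) = 1` -/
theorem caseG (hG : IsPGroup 2 G) (hS : NoSec G) {a b c : G} (ha : a * a = 1) (hb : b * b = 1)
    (hc : c * c = 1) : omg a b c = 1 ∨ ww c a b = 1 := by
  have h := inv4_of_noSec hG hS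
  rcases caseF hG hS ha hb hc with h1 | h1 | ⟨h1, h2, h3⟩
  · exact Or.inl h1
  · exact Or.inr h1
  left
  have hbc := cj_sq hb hc
  have hw : omg a b c = ww c a b := by
    unfold omg
    rw [h1, h2, one_mul, one_mul]
  have hD := D_rel h ha hb hc
  have h4 : kk (kk a (cj b c)) c = 1 := by
    rw [h3, hw] at hD
    exact mul_eq_left.mp hD
  -- the same `ω`
  have h5 : omg a (cj b c) c = omg a b c := by
    have i1 : a * cj b c * c = a * c * b := by
      simp only [cj, mul_assoc, hc, mul_one]
    rw [← abc_four h ha hbc hc, i1, abc_four h ha hc hb, ← omg_cyc h hb ha hc, omg_comm h hb ha hc]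
  set u' := kk a (cj b c) with hu'
  have huu : u' * u' = 1 := kk_sq h ha hbc
  have huc : Commute u' c := comm_of_kk huu hc h4
  have e' : cj u' c = u' := (commute_iff_cj hc).mp huc
  have i1 : ww a (cj b c) c = 1 := by
    have i2 := cj_e h ha hbc hc
    rw [← hu', e', (commute_iff_cj ha).mp (kk_left h ha hbc)] at i2
    exact (left_eq_mul.mp i2)
  have i3 : ww (cj b c) c a = 1 := by
    have i2 := cj_e h hbc ha hc
    rw [kk_comm h hbc ha, ← hu', e', (commute_iff_cj hbc).mp (kk_right h ha hbc),
      ww_symm h ha hbc hc] at i2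
    exact (left_eq_mul.mp i2)
  rcases caseF hG hS ha hbc hc with h6 | h6 | ⟨-, -, h6⟩
  · rw [← h5, h6]
  · rw [← h5]
    unfold omg
    rw [i1, i3, h6, one_mul, one_mul]
  · rw [← h5, ← h6]
    exact h4

/-- **Theorem.** In a 2-group without sections `D₁₆`, `SD₁₆`: `(a b c)⁴ = 1` for all involutions. -/
theorem p3_of_noSec (hG : IsPGroup 2 G) (hS : NoSec G) {a b c : G} (ha : a * a = 1) (hb : b * b = 1)
    (hc : c * c = 1) : (a * b * c) ^ 4 = 1 := by
  have h := inv4_of_noSec hG hS
  rw [abc_four h ha hb hc]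
  rcases caseG hG hS ha hb hc with h1 | h1
  · exact h1
  rcases caseG hG hS hb hc ha with h2 | h2
  · rw [omg_cyc h ha hb hc, h2]
  rcases caseG hG hS hc ha hb with h3 | h3
  · rw [omg_cyc h ha hb hc, omg_cyc h hb hc ha, h3]
  unfold omg
  rw [h1, h2, h3, one_mul, one_mul]

end basic

end Pool.Agent.Helper46.SV
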