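import Pool.Agent.Helper46.SV.Tri

/-!
# Three elements of a normal set of involutions

The facts of `Tri.lean` for three elements of a normal set `E` of involutions with `(x y)⁴ = 1` and
`([x, y] z)⁴ = 1` on `E`.
-/

set_option autoImplicit false

namespace Pool.Agent.Helper46.SV.TE

universe u

variable {G : Type u} [Group G]

open Pool.Agent.Helper46.SV (kk cj ww omg cc cj_sq cj_cj cj_mul cj_kk inv_of commute_iff_cj cj_comm kk_of_comm
  comm_of_kk kk_eq mul_sq_comm comm_cj_right comm_kk_right comm_ww_right mul_comm_kk)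

/-- a normal set of involutions with `(x y)⁴ = 1` -/
structure DL (E : Set G) : Prop where
  inv : ∀ x ∈ E, x * x = 1
  conj : ∀ g : G, ∀ x ∈ E, g * x * g⁻¹ ∈ E
  four : ∀ x ∈ E, ∀ y ∈ E, (x * y) ^ 4 = 1

/-- the law `v = 1` -/
structure Law (E : Set G) : Prop extends DL E where
  vone : ∀ x ∈ E, ∀ y ∈ E, ∀ z ∈ E, (kk x y * z) ^ 4 = 1

theorem DL.cj {E : Set G} (h : DL E) {x y : G} (hx : x ∈ E) (hy : y * y = 1) : SV.cj x y ∈ E := by
  have h1 := h.conj y x hx
  rwa [inv_of hy] at h1

theorem kk_sq {x y : G} (h : (x * y) ^ 4 = 1) : kk x y * kk x y = 1 := by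
  rw [← h]
  simp only [kk, pow_succ, pow_zero, one_mul, mul_assoc]

theorem kk_comm {x y : G} (hx : x * x = 1) (hy : y * y = 1) (h : (x * y) ^ 4 = 1) : kk x y = kk y x := by
  have h1 := kk_sq h
  have h2 : kk x y * kk y x = 1 := by
    simp only [kk, mul_assoc, cc hx, cc hy, hx]
  calc kk x y = kk x y * (kk x y * kk y x) := by rw [h2, mul_one]
    _ = kk y x := by rw [← mul_assoc, h1, one_mul]

theorem four_symm {x y : G} (hx : x * x = 1) (h : (x * y) ^ 4 = 1) : (y * x) ^ 4 = 1 := by
  have h1 : (y * x) ^ 4 = x * (x * y) ^ 4 * x := by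
    simp only [pow_succ, pow_zero, one_mul, mul_assoc, cc hx]
  rw [h1, h, mul_one, hx]

/-- `kk x y` commutes with `x` -/
theorem kk_left {x y : G} (hx : x * x = 1) (hy : y * y = 1) (h : (x * y) ^ 4 = 1) : Commute (kk x y) x := by
  have h2 : x * kk x y * x = kk y x := by
    simp only [kk, mul_assoc, cc hx]
  show kk x y * x = x * kk x y
  calc kk x y * x = x * (x * kk x y * x) := by simp only [mul_assoc, cc hx]
    _ = x * kk x y := by rw [h2, kk_comm hx hy h]

theorem kk_right {x y : G} (hx : x * x = 1) (hy : y * y = 1) (h : (x * y) ^ 4 = 1) : Commute (kk x y) y := by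
  rw [kk_comm hx hy h]
  exact kk_left hy hx (four_symm hx h)

/-- `x` commutes with `x^y` -/
theorem comm_cj {x y : G} (hx : x * x = 1) (hy : y * y = 1) (h : (x * y) ^ 4 = 1) : Commute x (cj x y) := by
  have h1 := kk_comm hx hy h
  show x * (y * x * y) = (y * x * y) * x
  have e1 : x * (y * x * y) = kk x y := by simp only [kk, mul_assoc]
  have e2 : (y * x * y) * x = kk y x := by simp only [kk, mul_assoc]
  rw [e1, e2, h1]

section dl

variable {E : Set G} (h : DL E)
include h

theorem ek_comm {a b : G} (ha : a ∈ E) (hb : b ∈ E) : kk a b = kk b a :=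
  kk_comm (h.inv a ha) (h.inv b hb) (h.four a ha b hb)

theorem ek_sq {a b : G} (ha : a ∈ E) (hb : b ∈ E) : kk a b * kk a b = 1 := kk_sq (h.four a ha b hb)

theorem ec {a b : G} (ha : a ∈ E) (hb : b ∈ E) : Commute a (cj a b) :=
  comm_cj (h.inv a ha) (h.inv b hb) (h.four a ha b hb)

theorem ek_left {a b : G} (ha : a ∈ E) (hb : b ∈ E) : Commute (kk a b) a :=
  kk_left (h.inv a ha) (h.inv b hb) (h.four a ha b hb)

theorem ek_right {a b : G} (ha : a ∈ E) (hb : b ∈ E) : Commute (kk a b) b :=
  kk_right (h.inv a ha) (h.inv b hb) (h.four a ha b hb)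

theorem ej {a b : G} (ha : a ∈ E) (hb : b ∈ E) : cj a b ∈ E := h.cj ha (h.inv b hb)

/-- `([a, b] c)⁸ = 1` -/
theorem v_sq {a b c : G} (ha : a ∈ E) (hb : b ∈ E) (hc : c ∈ E) : (kk b a * c) ^ 8 = 1 := by
  have hba := ej h hb ha
  have hbc := ej h hb hc
  have hbac := ej h hba hc
  have c1 : Commute b (cj b a) := ec h hb ha
  have c2 : Commute b (cj b c) := ec h hb hc
  have c3 : Commute (cj b a) (cj (cj b a) c) := ec h hba hc
  have c4 : Commute (cj b c) (cj (cj b a) c) := cj_comm (h.inv c hc) c1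
  have e0 : kk b a = b * cj b a := kk_eq b a
  have e1 : b * cj b a * (cj b c * cj (cj b a) c) = (b * cj (cj b a) c) * (cj b a * cj b c) := by
    have i1 : cj b a * (cj b c * cj (cj b a) c) = cj (cj b a) c * (cj b a * cj b c) := by
      rw [c4.eq, ← mul_assoc, c3.eq, mul_assoc]
    rw [mul_assoc, i1, mul_assoc]
  have hA : Commute (b * cj (cj b a) c) (cj b a * cj b c) :=
    (c1.mul_right c2).mul_left ((c3.symm).mul_right c4.symm)
  have e2 : (kk b a * c) ^ 8 = ((b * cj (cj b a) c) * (cj b a * cj b c)) ^ 4 := by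
    rw [← e1, ← cj_mul (h.inv c hc), ← e0]
    have : kk b a * cj (kk b a) c = (kk b a * c) ^ 2 := by
      simp only [cj, pow_two, mul_assoc]
    rw [this, ← pow_mul]
  rw [e2, hA.mul_pow, h.four b hb _ hbac, h.four _ hba _ hbc, one_mul]

end dl

section law

variable {E : Set G} (h : Law E)
include h

theorem ww_aux {a b c : G} (ha : a ∈ E) (hb : b ∈ E) (hc : c ∈ E) :
    ww b a c = kk b (cj (cj b a) c) := by
  have d := h.toDL
  have hba := ej d hb ha
  have hbc := ej d hb hc
  have hbac := ej d hba hc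
  have c1 : Commute b (cj b a) := ec d hb ha
  have c2 : Commute b (cj b c) := ec d hb hc
  have c3 : Commute (cj b a) (cj (cj b a) c) := ec d hba hc
  have c4 : Commute (cj b c) (cj (cj b a) c) := cj_comm (h.inv c hc) c1
  have hcc := h.inv c hc
  -- `u = b b^a`
  have hu : b * cj b a * (b * cj b a) = 1 := mul_sq_comm c1 (h.inv b hb) (h.inv _ hba)
  have hv4 : (b * cj b a * c) ^ 4 = 1 := by
    rw [← kk_eq]
    exact h.vone b hb a ha c hc
  have hv2 := comm_cj hu hcc hv4
  rw [cj_mul hcc] at hv2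
  have huc : cj b c * cj (cj b a) c * (cj b c * cj (cj b a) c) = 1 :=
    mul_sq_comm c4 (h.inv _ hbc) (h.inv _ hbac)
  have h1 : b * cj b a * (cj b c * cj (cj b a) c) * (b * cj b a * (cj b c * cj (cj b a) c)) = 1 :=
    mul_sq_comm hv2 hu huc
  have e1 : b * cj b a * (cj b c * cj (cj b a) c) = (b * cj (cj b a) c) * (cj b a * cj b c) := by
    have i1 : cj b a * (cj b c * cj (cj b a) c) = cj (cj b a) c * (cj b a * cj b c) := by
      rw [c4.eq, ← mul_assoc, c3.eq, mul_assoc]
    rw [mul_assoc, i1, mul_assoc]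
  have hA : Commute (b * cj (cj b a) c) (cj b a * cj b c) :=
    (c1.mul_right c2).mul_left ((c3.symm).mul_right c4.symm)
  rw [e1, hA.symm.mul_mul_mul_comm] at h1
  have h2 : kk b (cj (cj b a) c) * ww b a c = 1 := h1
  have h3 := ek_sq d hb hbac
  calc ww b a c = kk b (cj (cj b a) c) * kk b (cj (cj b a) c) * ww b a c := by rw [h3, one_mul]
    _ = kk b (cj (cj b a) c) * (kk b (cj (cj b a) c) * ww b a c) := by rw [mul_assoc]
    _ = _ := by rw [h2, mul_one]

theorem ww_symm {a b c : G} (ha : a ∈ E) (hb : b ∈ E) (hc : c ∈ E) :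
    ww b a c = ww b c a := ek_comm h.toDL (ej h.toDL hb ha) (ej h.toDL hb hc)

theorem ww_sq {a b c : G} (ha : a ∈ E) (hb : b ∈ E) (hc : c ∈ E) :
    ww b a c * ww b a c = 1 := ek_sq h.toDL (ej h.toDL hb ha) (ej h.toDL hb hc)

theorem ww_comm_self {a b c : G} (ha : a ∈ E) (hb : b ∈ E) (hc : c ∈ E) :
    Commute (ww b a c) b := by
  have c1 : Commute b (cj b a) := ec h.toDL hb ha
  have c2 : Commute b (cj b c) := ec h.toDL hb hc
  have c3 : Commute b (cj b a * cj b c) := c1.mul_right c2
  exact (c3.mul_right c3).symm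

theorem ww_comm_right {a b c : G} (ha : a ∈ E) (hb : b ∈ E) (hc : c ∈ E) :
    Commute (ww b a c) c := by
  have hcc := h.inv c hc
  rw [commute_iff_cj hcc]
  have hbac := ej h.toDL (ej h.toDL hb ha) hc
  have e1 : cj (ww b a c) c = kk (cj (cj b a) c) b := by
    rw [ww, cj_kk hcc, cj_cj hcc]
  rw [e1, ek_comm h.toDL hbac hb, ww_aux h ha hb hc]

theorem ww_comm_left {a b c : G} (ha : a ∈ E) (hb : b ∈ E) (hc : c ∈ E) :
    Commute (ww b a c) a := by
  rw [ww_symm h ha hb hc]
  exact ww_comm_right h hc hb ha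

/-- `w(a; b, c) = u u^t` with `u = [a, b]`, `t = [a, c]` -/
theorem ww_ut {a b c : G} (ha : a ∈ E) (hb : b ∈ E) (hc : c ∈ E) :
    ww a b c = kk (kk a b) (kk a c) := by
  have haa := h.inv a ha
  have c1 : Commute a (cj a b) := ec h.toDL ha hb
  have e : kk a b * kk a c = cj a b * cj a c := by
    rw [kk_eq, kk_eq, c1.eq, mul_assoc, cc haa]
  show cj a b * cj a c * (cj a b * cj a c) = kk a b * kk a c * (kk a b * kk a c)
  rw [e]

/-- `e^a = e w(a;b,c)` for `e = [a,b]^c` -/
theorem cj_e {a b c : G} (ha : a ∈ E) (hb : b ∈ E) (hc : c ∈ E) :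
    cj (cj (kk a b) c) a = cj (kk a b) c * ww a b c := by
  have haa := h.inv a ha
  have hcc := h.inv c hc
  have d := h.toDL
  set u := kk a b with hu
  set t := kk a c with ht
  have huu : u * u = 1 := ek_sq d ha hb
  have hua : Commute u a := ek_left d ha hb
  have htc : Commute t c := ek_right d ha hc
  have hw : ww a b c = u * cj u t := by rw [ww_ut h ha hb hc, kk_eq]
  -- `c` fixes `w`
  have h1 : cj (ww a b c) c = ww a b c := (commute_iff_cj hcc).mp (ww_comm_right h hb ha hc)
  -- `(u^t)^c = (u^c)^a`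
  have e1 : cj (cj u t) c = cj (cj u c) a := by
    have i1 : c * t = a * c * a := by
      rw [ht]
      have i2 : kk a c = kk c a := ek_comm d ha hc
      rw [i2]
      simp only [kk, mul_assoc, cc hcc]
    have i2 : t * c = a * c * a := by rw [htc.eq, i1]
    have i3 : c * (t * u * t) * c = (c * t) * u * (t * c) := by simp only [mul_assoc]
    show c * (t * u * t) * c = a * (c * u * c) * a
    rw [i3, i1, i2]
    have i4 : a * u * a = u := (commute_iff_cj haa).mp hua
    calc a * c * a * u * (a * c * a) = a * (c * (a * u * a) * c) * a := by simp only [mul_assoc]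
      _ = _ := by rw [i4]
  have h2 : cj u c * cj (cj u c) a = ww a b c := by
    rw [← e1, ← cj_mul hcc, ← hw, h1]
  have hee := cj_sq huu hcc
  rw [← h2, cc hee]

/-- `w(a;b,c)` and `w(b;c,a)` commute -/
theorem ww_ww {a b c : G} (ha : a ∈ E) (hb : b ∈ E) (hc : c ∈ E) :
    Commute (ww a b c) (ww b c a) :=
  comm_ww_right (ww_comm_left h hb ha hc) (ww_comm_right h hb ha hc) (ww_comm_self h hb ha hc)

/-- `t a c = c a` for `t = (a c)²` -/
theorem tac {a c : G} (ha : a ∈ E) (hc : c ∈ E) : kk a c * (a * c) = c * a := by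
  have haa := h.inv a ha
  have hcc := h.inv c hc
  have h2 : kk a c * (a * c) * (a * c) = 1 := by
    rw [← ek_sq h.toDL ha hc]
    simp only [kk, mul_assoc]
  calc kk a c * (a * c) = kk a c * (a * c) * (a * c) * (c * a) := by
        simp only [mul_assoc, cc hcc, haa, mul_one]
    _ = c * a := by rw [h2, one_mul]

/-- `c a t = a c` for `t = (a c)²` -/
theorem cat {a c : G} (ha : a ∈ E) (hc : c ∈ E) : (c * a) * kk a c = a * c := by
  simp only [kk, mul_assoc, cc (h.inv c hc), cc (h.inv a ha)]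

/-- `t c a = a c` for `t = (a c)²` -/
theorem tca {a c : G} (ha : a ∈ E) (hc : c ∈ E) : kk a c * (c * a) = a * c := by
  rw [ek_comm h.toDL ha hc]
  exact tac h hc ha

/-- `[t, b]^a = [t, b] w(a;b,c)` for `t = [a, c]` -/
theorem cj_T {a b c : G} (ha : a ∈ E) (hb : b ∈ E) (hc : c ∈ E) :
    cj (kk (kk a c) b) a = kk (kk a c) b * ww a b c := by
  have haa := h.inv a ha
  have hta : Commute (kk a c) a := ek_left h.toDL ha hc
  rw [kk_eq (kk a c) b, cj_mul haa, (commute_iff_cj haa).mp hta, cj_e h ha hc hb, ww_symm h hc ha hb,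
    mul_assoc]

/-- `[t, b]^c = [t, b] w(c;a,b)` for `t = [a, c]` -/
theorem cj_T' {a b c : G} (ha : a ∈ E) (hb : b ∈ E) (hc : c ∈ E) :
    cj (kk (kk a c) b) c = kk (kk a c) b * ww c a b := by
  rw [ek_comm h.toDL ha hc, cj_T h hc hb ha, ww_symm h hb hc ha]

/-- the element `T = [[a, c], b]` -/
theorem T_sq {a b c : G} (ha : a ∈ E) (hb : b ∈ E) (hc : c ∈ E) :
    kk (kk a c) b * kk (kk a c) b = 1 := kk_sq (h.vone a ha c hc b hb)

theorem tb_comm {a b c : G} (ha : a ∈ E) (hb : b ∈ E) (hc : c ∈ E) :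
    kk (kk a c) b = kk b (kk a c) :=
  kk_comm (ek_sq h.toDL ha hc) (h.inv b hb) (h.vone a ha c hc b hb)

/-- `b^(ac) b^(ca) = T w_a w_c` -/
theorem bac_bca {a b c : G} (ha : a ∈ E) (hb : b ∈ E) (hc : c ∈ E) :
    cj (cj b a) c * cj (cj b c) a = kk (kk a c) b * ww c a b * ww a b c := by
  have haa := h.inv a ha
  have hcc := h.inv c hc
  have h1 : cj (cj (kk (kk a c) b) a) c = kk (kk a c) b * ww c a b * ww a b c := by
    rw [cj_T h ha hb hc, cj_mul hcc, cj_T' h ha hb hc,
      (commute_iff_cj hcc).mp (ww_comm_right h hb ha hc)]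
  rw [← h1, tb_comm h ha hb hc, kk_eq, cj_mul haa, cj_mul hcc]
  congr 1
  show a * (c * b * c) * a = c * (a * (kk a c * b * kk a c) * a) * c
  have e1 : c * (a * (kk a c * b * kk a c) * a) * c = (c * a * kk a c) * b * (kk a c * (a * c)) := by
    simp only [mul_assoc]
  rw [e1, cat h ha hc, tac h ha hc]
  simp only [mul_assoc]

/-- `w(b;a,c)` commutes with `t = [a, c]` -/
theorem ww_comm_t {a b c : G} (ha : a ∈ E) (hb : b ∈ E) (hc : c ∈ E) :
    Commute (ww b a c) (kk a c) := by
  have h1 : Commute (ww b a c) (a * c) :=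
    (ww_comm_left h ha hb hc).mul_right (ww_comm_right h ha hb hc)
  exact h1.mul_right h1

/-- `(b a c)⁴ = w_a w_b w_c` -/
theorem om {a b c : G} (ha : a ∈ E) (hb : b ∈ E) (hc : c ∈ E) :
    (b * a * c) ^ 4 = ww a b c * ww b c a * ww c a b := by
  have haa := h.inv a ha
  have hbb := h.inv b hb
  have hcc := h.inv c hc
  have d := h.toDL
  have htt : kk a c * kk a c = 1 := ek_sq d ha hc
  have e1 : (b * a * c) ^ 4 = b * cj (cj b c) a * cj b (kk a c) * cj (cj b a) c := by
    have i1 : (b * a * c) ^ 4 = b * (a * (c * b * c) * a) * (kk a c * b) * (a * c * b * (a * c)) := by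
      simp only [kk, pow_succ, pow_zero, one_mul, mul_assoc, cc haa, cc hcc]
    have i2 : cj b (kk a c) * cj (cj b a) c = (kk a c * b) * (a * c * b * (a * c)) := by
      show kk a c * b * kk a c * (c * (a * b * a) * c) = _
      have i3 : kk a c * b * kk a c * (c * (a * b * a) * c) =
          kk a c * b * (kk a c * (c * a)) * b * (a * c) := by simp only [mul_assoc]
      rw [i3, tca h ha hc]
      simp only [mul_assoc]
    rw [i1, mul_assoc, ← i2]
    simp only [cj, mul_assoc]
  have hbt := d.cj hb htt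
  have hbca := ej d (ej d hb hc) ha
  have hbac := ej d (ej d hb ha) hc
  have e2 : cj (cj (cj b c) a) (kk a c) = cj (cj b a) c := by
    show kk a c * (a * (c * b * c) * a) * kk a c = c * (a * b * a) * c
    have i3 : kk a c * (a * (c * b * c) * a) * kk a c =
        (kk a c * (a * c)) * b * ((c * a) * kk a c) := by simp only [mul_assoc]
    rw [i3, tac h ha hc, cat h ha hc]
    simp only [mul_assoc]
  have e3 : kk (cj (cj b c) a) (cj b (kk a c)) = ww b a c := by
    have i1 : cj (kk (cj (cj b c) a) (cj b (kk a c))) (kk a c) = ww b a c := by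
      rw [cj_kk htt, cj_cj htt, e2, ek_comm d hbac hb, ww_aux h ha hb hc]
    rw [← cj_cj (x := kk (cj (cj b c) a) (cj b (kk a c))) htt, i1]
    exact (commute_iff_cj htt).mp (ww_comm_t h ha hb hc)
  set T := kk (kk a c) b with hT
  have hTT : T * T = 1 := T_sq h ha hb hc
  have hTb : b * cj b (kk a c) = T := by rw [hT, tb_comm h ha hb hc, kk_eq b]
  have e4 : cj (cj b c) a * cj (cj b a) c = T * ww c a b * ww a b c := by
    rw [ek_comm d ha hc] at hT
    have := bac_bca h hc hb ha
    rw [← hT, ww_symm h hc ha hb, ww_symm h hb hc ha] at this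
    rw [this, mul_assoc, mul_assoc, (ww_ww h hc ha hb).eq]
  have wbt : Commute (ww b a c) (cj (cj b a) c) := by
    have k1 := ww_comm_self h ha hb hc
    have k2 := ww_comm_left h ha hb hc
    have k3 := ww_comm_right h ha hb hc
    exact (k3.mul_right ((k2.mul_right k1).mul_right k2)).mul_right k3
  calc (b * a * c) ^ 4 = b * (cj (cj b c) a * cj b (kk a c)) * cj (cj b a) c := by
        rw [e1]; simp only [mul_assoc]
    _ = b * (cj b (kk a c) * cj (cj b c) a * ww b a c) * cj (cj b a) c := by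
        rw [mul_comm_kk (h.inv _ hbca) (h.inv _ hbt), e3]
    _ = (b * cj b (kk a c)) * cj (cj b c) a * (ww b a c * cj (cj b a) c) := by simp only [mul_assoc]
    _ = T * cj (cj b c) a * (cj (cj b a) c * ww b a c) := by rw [hTb, wbt.eq]
    _ = T * (cj (cj b c) a * cj (cj b a) c) * ww b a c := by simp only [mul_assoc]
    _ = (T * T) * (ww c a b * ww a b c * ww b a c) := by rw [e4]; simp only [mul_assoc]
    _ = ww c a b * ww a b c * ww b a c := by rw [hTT, one_mul]
    _ = ww a b c * ww b c a * ww c a b := by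
        rw [ww_symm h ha hb hc, (ww_ww h hc ha hb).eq, mul_assoc, mul_assoc, (ww_ww h hb hc ha).eq]

/-- `[u, c] [u', c] = w(c;a,b)` for `u = [a, b]`, `u' = [a, b^c]` -/
theorem D_rel {a b c : G} (ha : a ∈ E) (hb : b ∈ E) (hc : c ∈ E) :
    kk (kk a b) c * kk (kk a (cj b c)) c = ww c a b := by
  have haa := h.inv a ha
  have hbb := h.inv b hb
  have hcc := h.inv c hc
  have d := h.toDL
  have hba := ej d hb ha
  have hbc := ej d hb hc
  have htt : kk a c * kk a c = 1 := ek_sq d ha hc
  -- evens: b, b^(ac), b^(ca); odds: b^a, b^c, b^(cac)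
  have c1 : Commute b (cj b a) := ec d hb ha
  have c2 : Commute b (cj b c) := ec d hb hc
  have c3 : Commute (cj b a) (cj (cj b a) c) := ec d hba hc
  have c4 : Commute (cj b c) (cj (cj b a) c) := cj_comm hcc c1
  have c6 : Commute (cj b a) (cj (cj b c) a) := cj_comm haa c2
  have e1 : kk (kk a b) c = b * cj b a * (cj b c * cj (cj b a) c) := by
    rw [kk_eq (kk a b) c, ek_comm d ha hb, kk_eq b a, cj_mul hcc]
  have e2 : kk (kk a (cj b c)) c = cj b c * cj (cj b c) a * (b * cj (cj (cj b c) a) c) := by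
    rw [kk_eq (kk a (cj b c)) c, ek_comm d ha hbc, kk_eq (cj b c) a, cj_mul hcc, cj_cj hcc]
  have e3 := bac_bca h ha hb hc
  have e4 := cj_T h ha hb hc
  have hTT := T_sq h ha hb hc
  have hTb : Commute (kk (kk a c) b) b := kk_right htt hbb (h.vone a ha c hc b hb)
  have hTs := tb_comm h ha hb hc
  set T := kk (kk a c) b with hT
  have e5 : cj b a * cj (cj (cj b c) a) c = T * ww a b c := by
    rw [← e4, hTs, kk_eq b, cj_mul haa]
    congr 1
    show c * (a * (c * b * c) * a) * c = a * (kk a c * b * kk a c) * a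
    have i1 : a * (kk a c * b * kk a c) * a = (a * kk a c) * b * (kk a c * a) := by simp only [mul_assoc]
    have i2 : a * kk a c = c * a * c := by simp only [kk, mul_assoc, cc haa]
    have i3 : kk a c * a = c * a * c := by
      rw [(ek_left d ha hc).eq, i2]
    rw [i1, i2, i3]
    simp only [mul_assoc]
  have wb : Commute (ww c a b * ww a b c) b :=
    (ww_comm_right h ha hc hb).mul_left (ww_comm_left h hb ha hc)
  have e6 : b * (T * ww c a b * ww a b c) * b = T * ww c a b * ww a b c := by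
    rw [mul_assoc T, ← mul_assoc b, ← hTb.eq, mul_assoc, mul_assoc, wb.eq, cc hbb]
  rw [e1, e2]
  calc b * cj b a * (cj b c * cj (cj b a) c) * (cj b c * cj (cj b c) a * (b * cj (cj (cj b c) a) c))
      = b * cj b a * (cj (cj b a) c * cj b c) * (cj b c * cj (cj b c) a * (b * cj (cj (cj b c) a) c)) := by
        rw [c4.eq]
    _ = b * (cj b a * (cj (cj b a) c * cj (cj b c) a * b)) * cj (cj (cj b c) a) c := by
        simp only [mul_assoc, cc (h.inv _ hbc)]
    _ = b * ((cj (cj b a) c * cj (cj b c) a * b) * cj b a) * cj (cj (cj b c) a) c := by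
        rw [((c3.mul_right c6).mul_right c1.symm).eq]
    _ = b * (cj (cj b a) c * cj (cj b c) a) * b * (cj b a * cj (cj (cj b c) a) c) := by
        simp only [mul_assoc]
    _ = T * ww c a b * ww a b c * (T * ww a b c) := by rw [e3, e6, e5]
    _ = ww c a b := by
        have k1 : Commute (ww c a b) T :=
          comm_kk_right (comm_kk_right (ww_comm_left h ha hc hb) (ww_comm_self h ha hc hb))
            (ww_comm_right h ha hc hb)
        have k2 : Commute (ww a b c) T :=
          comm_kk_right (comm_kk_right (ww_comm_self h hb ha hc) (ww_comm_right h hb ha hc))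
            (ww_comm_left h hb ha hc)
        have k3 := ww_sq h hb ha hc
        calc T * ww c a b * ww a b c * (T * ww a b c)
            = T * ww c a b * (ww a b c * T) * ww a b c := by simp only [mul_assoc]
          _ = T * (ww c a b * T) * (ww a b c * ww a b c) := by rw [k2.eq]; simp only [mul_assoc]
          _ = ww c a b := by rw [k1.eq, k3, mul_one, ← mul_assoc, hTT, one_mul]

theorem omg_comm {a b c : G} (ha : a ∈ E) (hb : b ∈ E) (hc : c ∈ E) :
    omg a b c = omg b a c := by
  unfold omg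
  rw [ww_symm h ha hb hc, ww_symm h hc ha hb, ww_symm h hb hc ha, (ww_ww h ha hb hc).eq]

theorem omg_cyc {a b c : G} (ha : a ∈ E) (hb : b ∈ E) (hc : c ∈ E) :
    omg a b c = omg b c a := by
  unfold omg
  have k1 : Commute (ww a b c) (ww b c a * ww c a b) := (ww_ww h ha hb hc).mul_right (ww_ww h hc ha hb).symm
  rw [mul_assoc, k1.eq]

theorem abc_four {a b c : G} (ha : a ∈ E) (hb : b ∈ E) (hc : c ∈ E) :
    (a * b * c) ^ 4 = omg a b c := by
  rw [omg_comm h ha hb hc]
  exact om h hb ha hc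

/-- `ω² = 1` -/
theorem omg_sq {a b c : G} (ha : a ∈ E) (hb : b ∈ E) (hc : c ∈ E) :
    omg a b c * omg a b c = 1 := by
  have k1 := ww_ww h ha hb hc
  have k2 := ww_ww h hb hc ha
  have k3 := ww_ww h hc ha hb
  have s1 := ww_sq h hb ha hc
  have s2 := ww_sq h hc hb ha
  have s3 := ww_sq h ha hc hb
  have s12 : ww a b c * ww b c a * (ww a b c * ww b c a) = 1 := mul_sq_comm k1 s1 s2
  exact mul_sq_comm (k3.symm.mul_left k2) s12 s3

end law

end Pool.Agent.Helper46.SV.TE
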