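import Pool.Agent.Helper46.SV.NoSec
import Pool.Agent.Helper46.SV.TriE

/-!
# Normal sets of involutions in groups without dihedral sections of order 16

Let `E` be a normal set of involutions of a group `G` with `(x y)⁴ = 1` on `E`.

* If `G` has no section `D₁₆`, then `([x, y] z)⁴ = 1` on `E`, and a triple `a, b, c` of elements of `E` with
  `ω = (a b c)⁴ ≠ 1` is exceptional: for one of six triples `a', b', c'` of generators of `⟨a, b, c⟩` one has
  `[a', b'] = (a' b' c')⁴ = ω`, a central element of `⟨a, b, c⟩`.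
* If moreover `G` has no section `SD₁₆`, then `(a b c)⁴ = 1` on `E`.
-/

set_option autoImplicit false

open Subgroup

namespace Pool.Agent.Helper46.SV

open TE (DL Law)

universe u

/-- no section of `G` is dihedral of order 16 -/
def NoD16 (G : Type u) [Group G] : Prop :=
  ∀ (Q : Type u) [Group Q] (H : Subgroup G) (f : H →* Q), Function.Surjective f → ¬ IsDih16 Q

/-- no section of `G` is semidihedral of order 16 -/
def NoSD16 (G : Type u) [Group G] : Prop :=
  ∀ (Q : Type u) [Group Q] (H : Subgroup G) (f : H →* Q), Function.Surjective f → ¬ IsSD16 Q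

theorem noSec_iff (G : Type u) [Group G] : NoSec G ↔ NoD16 G ∧ NoSD16 G :=
  ⟨fun h => ⟨fun Q _ H f hf => (h Q H f hf).1, fun Q _ H f hf => (h Q H f hf).2⟩,
    fun h Q _ H f hf => ⟨h.1 Q H f hf, h.2 Q H f hf⟩⟩

theorem NoD16.quotient {G : Type u} [Group G] (hS : NoD16 G) (N : Subgroup G) [N.Normal] :
    NoD16 (G ⧸ N) := by
  intro Q _ H f hf
  refine hS Q (H.comap (QuotientGroup.mk' N)) (f.comp ((QuotientGroup.mk' N).subgroupComap H)) ?_
  exact hf.comp ((QuotientGroup.mk' N).subgroupComap_surjective_of_surjective H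
    (QuotientGroup.mk'_surjective N))

theorem NoSD16.quotient {G : Type u} [Group G] (hS : NoSD16 G) (N : Subgroup G) [N.Normal] :
    NoSD16 (G ⧸ N) := by
  intro Q _ H f hf
  refine hS Q (H.comap (QuotientGroup.mk' N)) (f.comp ((QuotientGroup.mk' N).subgroupComap H)) ?_
  exact hf.comp ((QuotientGroup.mk' N).subgroupComap_surjective_of_surjective H
    (QuotientGroup.mk'_surjective N))

theorem NoD16.subgroup {G : Type u} [Group G] (hS : NoD16 G) (K : Subgroup G) : NoD16 K := by
  intro Q _ H f hf
  refine hS Q (H.map K.subtype) (f.comp (H.equivMapOfInjective _ K.subtype_injective).symm.toMonoidHom) ?_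
  have h2 : Function.Surjective (H.equivMapOfInjective _ K.subtype_injective).symm.toMonoidHom :=
    (H.equivMapOfInjective _ K.subtype_injective).symm.surjective
  exact hf.comp h2

theorem NoSD16.subgroup {G : Type u} [Group G] (hS : NoSD16 G) (K : Subgroup G) : NoSD16 K := by
  intro Q _ H f hf
  refine hS Q (H.map K.subtype) (f.comp (H.equivMapOfInjective _ K.subtype_injective).symm.toMonoidHom) ?_
  have h2 : Function.Surjective (H.equivMapOfInjective _ K.subtype_injective).symm.toMonoidHom :=
    (H.equivMapOfInjective _ K.subtype_injective).symm.surjective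
  exact hf.comp h2

section basic

variable {G : Type u} [Group G]

/-- the order of the product of two involutions of a section is not 8 -/
theorem four_of_sec8 (hS : NoD16 G) {Q : Type u} [Group Q] {H : Subgroup G}
    (f : H →* Q) (hf : Function.Surjective f) {p q : Q} (hp : p * p = 1) (hq : q * q = 1)
    (h8 : (p * q) ^ 8 = 1) : (p * q) ^ 4 = 1 := by
  by_contra hne
  have hs8 : orderOf (p * q) = 8 := by
    have h2 := orderOf_eq_prime_pow (p := 2) (n := 2) (x := p * q) (by simpa using hne) (by simpa using h8)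
    simpa using h2
  have hps : p * (p * q) * p = (p * q)⁻¹ := by
    rw [mul_inv_rev, inv_of hp, inv_of hq, ← mul_assoc, hp, one_mul]
  obtain ⟨H', f', hf'⟩ := sec_sub f hf (closure {p * q, p})
  refine (hS _ H' f' hf') ⟨⟨p * q, subset_closure (by simp)⟩, ⟨p, subset_closure (by simp)⟩,
    closure_pair_top (p * q) p, ?_, ?_, ?_⟩
  · rw [Subgroup.orderOf_mk]
    exact hs8
  · ext
    exact hp
  · ext
    exact hps

/-- two involutions of `G` -/
theorem four_of_inv8 (hS : NoD16 G) {p q : G} (hp : p * p = 1) (hq : q * q = 1)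
    (h8 : (p * q) ^ 8 = 1) : (p * q) ^ 4 = 1 :=
  four_of_sec8 hS (H := ⊤) (⊤ : Subgroup G).subtype (fun q => ⟨⟨q, mem_top q⟩, rfl⟩) hp hq h8

/-- `s² ∈ L`, `t² ∈ L`, `(s t)⁸ ∈ L` imply `(s t)⁴ ∈ L` if `L` is normalised by `s` and `t` -/
theorem four_mem8 (hS : NoD16 G) {L : Subgroup G} {s t : G}
    (hs : s ∈ normalizer (L : Set G)) (ht : t ∈ normalizer (L : Set G)) (hss : s * s ∈ L)
    (htt : t * t ∈ L) (h8 : (s * t) ^ 8 ∈ L) : (s * t) ^ 4 ∈ L := by
  have hle : closure {s, t} ≤ normalizer (L : Set G) := by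
    rw [closure_le]
    rintro x (rfl | rfl)
    · exact hs
    · exact ht
  have : (L.subgroupOf (closure {s, t})).Normal := normal_subgroupOf_of_le_normalizer hle
  let s' : closure ({s, t} : Set G) := ⟨s, subset_closure (by simp)⟩
  let t' : closure ({s, t} : Set G) := ⟨t, subset_closure (by simp)⟩
  let f := QuotientGroup.mk' (L.subgroupOf (closure {s, t}))
  have h1 : f s' * f s' = 1 := by
    rw [← map_mul]
    exact (QuotientGroup.eq_one_iff _).mpr hss
  have h2 : f t' * f t' = 1 := by
    rw [← map_mul]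
    exact (QuotientGroup.eq_one_iff _).mpr htt
  have h0 : (f s' * f t') ^ 8 = 1 := by
    rw [← map_mul, ← map_pow]
    exact (QuotientGroup.eq_one_iff _).mpr h8
  have h3 := four_of_sec8 hS f (QuotientGroup.mk'_surjective _) h1 h2 h0
  rw [← map_mul, ← map_pow] at h3
  have h4 : (s' * t') ^ 4 ∈ L.subgroupOf (closure {s, t}) := (QuotientGroup.eq_one_iff _).mp h3
  exact h4

/-- no semidihedral subgroup -/
theorem sd16 (hS : NoSD16 G) {s t : G} (ht : t * t = 1) (h8 : s ^ 8 = 1) (hst : t * s * t = s ^ 3) :
    s ^ 4 = 1 := by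
  by_contra hne
  have h1 : orderOf s = 8 := by
    have h2 := orderOf_eq_prime_pow (p := 2) (n := 2) (x := s) (by simpa using hne) (by simpa using h8)
    simpa using h2
  refine (hS _ (closure {s, t}) (MonoidHom.id _) Function.surjective_id)
    ⟨⟨s, subset_closure (by simp)⟩, ⟨t, subset_closure (by simp)⟩, closure_pair_top s t, ?_, ?_, ?_⟩
  · rw [Subgroup.orderOf_mk]
    exact h1
  · ext
    exact ht
  · ext
    exact hst

/-- `v = 1` on `E` -/
theorem law_of_noD16 (hS : NoD16 G) {E : Set G} (h : DL E) : Law E := by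
  refine ⟨h, ?_⟩
  intro x hx y hy z hz
  refine four_of_inv8 hS (TE.ek_sq h hx hy) (h.inv z hz) ?_
  exact TE.v_sq h hy hx hz

section main

variable {E : Set G} (h : Law E)
include h

/-- the consequence of the absence of sections `D₁₆` for the pair `(a b, c)` -/
theorem caseFE (hS : NoD16 G) {a b c : G} (ha : a ∈ E) (hb : b ∈ E) (hc : c ∈ E) :
    omg a b c = 1 ∨ ww c a b = 1 ∨
      (ww a b c = 1 ∧ ww b c a = 1 ∧ kk (kk a b) c = omg a b c) ∨
      (ww a b c = 1 ∧ ww b c a = 1 ∧ kk a b = omg a b c ∧ Commute (kk a b) c) := by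
  have haa := h.inv a ha
  have hbb := h.inv b hb
  have hcc := h.inv c hc
  have d := h.toDL
  set u := kk a b with hu
  set e := cj u c with he
  have huu : u * u = 1 := TE.ek_sq d ha hb
  have hee : e * e = 1 := cj_sq huu hcc
  have k1 := TE.ww_ww h ha hb hc
  have s1 := TE.ww_sq h hb ha hc
  have s2 := TE.ww_sq h hc hb ha
  have aa := TE.ww_comm_self h hb ha hc
  have ab := TE.ww_comm_left h hb ha hc
  have ac := TE.ww_comm_right h hb ha hc
  have bb := TE.ww_comm_self h hc hb ha
  have bc := TE.ww_comm_left h hc hb ha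
  have ba := TE.ww_comm_right h hc hb ha
  have cc' := TE.ww_comm_self h ha hc hb
  have ca := TE.ww_comm_left h ha hc hb
  have cb := TE.ww_comm_right h ha hc hb
  set W := ww a b c * ww b c a with hW
  have hWW : W * W = 1 := mul_sq_comm k1 s1 s2
  have Wa : Commute W a := aa.mul_left ba
  have Wb : Commute W b := ab.mul_left bb
  have Wc : Commute W c := ac.mul_left bc
  have Wu : Commute W u := comm_kk_right Wa Wb
  have We : Commute W e := comm_cj_right Wu Wc
  have hue : Commute u e := TE.comm_cj huu hcc (h.vone a ha b hb c hc)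
  have hua : Commute u a := TE.ek_left d ha hb
  have hub : Commute u b := TE.ek_right d ha hb
  -- conjugation of `e`
  have ea : cj e a = e * ww a b c := TE.cj_e h ha hb hc
  have eb : cj e b = e * ww b c a := by
    have i1 := TE.cj_e h hb ha hc
    rw [TE.ek_comm d hb ha, TE.ww_symm h ha hb hc] at i1
    exact i1
  have ec : cj e c = u := cj_cj hcc
  have eab : cj (cj e b) a = e * W := by
    rw [eb, cj_mul haa, ea, (commute_iff_cj haa).mp ba, hW, mul_assoc]
  have eba : cj (cj e a) b = e * W := by
    rw [ea, cj_mul hbb, eb, (commute_iff_cj hbb).mp ab, hW, mul_assoc, k1.symm.eq]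
  set L : Subgroup G := closure {u, e, W} with hL
  have huL : u ∈ L := subset_closure (by simp)
  have heL : e ∈ L := subset_closure (by simp)
  have hWL : W ∈ L := subset_closure (by simp)
  have hj : a * b ∈ normalizer (L : Set G) := by
    refine mem_norm hL ?_ ?_
    · rintro x (rfl | rfl | rfl)
      · have i1 : a * b * u * (a * b)⁻¹ = u := by
          rw [mul_inv_eq_iff_eq_mul]
          exact ((hua.mul_right hub).eq).symm
        rw [i1]
        exact huL
      · have i1 : a * b * e * (a * b)⁻¹ = e * W := by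
          rw [← eab, mul_inv_rev, inv_of haa, inv_of hbb]
          simp only [cj, mul_assoc]
        rw [i1]
        exact mul_mem heL hWL
      · have i1 : a * b * W * (a * b)⁻¹ = W := by
          rw [mul_inv_eq_iff_eq_mul]
          exact ((Wa.mul_right Wb).eq).symm
        rw [i1]
        exact hWL
    · rintro x (rfl | rfl | rfl)
      · have i1 : (a * b)⁻¹ * u * (a * b) = u := by
          rw [mul_assoc, inv_mul_eq_iff_eq_mul]
          exact (hua.mul_right hub).eq
        rw [i1]
        exact huL
      · have i1 : (a * b)⁻¹ * e * (a * b) = e * W := by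
          rw [← eba, mul_inv_rev, inv_of haa, inv_of hbb]
          simp only [cj, mul_assoc]
        rw [i1]
        exact mul_mem heL hWL
      · have i1 : (a * b)⁻¹ * W * (a * b) = W := by
          rw [mul_assoc, inv_mul_eq_iff_eq_mul]
          exact (Wa.mul_right Wb).eq
        rw [i1]
        exact hWL
  have hcn : c ∈ normalizer (L : Set G) := by
    have hc1 : ∀ x ∈ ({u, e, W} : Set G), c * x * c ∈ L := by
      rintro x (rfl | rfl | rfl)
      · exact heL
      · have i1 : c * e * c = u := ec
        rw [i1]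
        exact huL
      · have i1 : c * W * c = W := (commute_iff_cj hcc).mp Wc
        rw [i1]
        exact hWL
    refine mem_norm hL ?_ ?_
    · intro x hx
      rw [inv_of hcc]
      exact hc1 x hx
    · intro x hx
      rw [inv_of hcc]
      exact hc1 x hx
  have h4 : (a * b * c) ^ 4 = omg a b c := TE.abc_four h ha hb hc
  have hOO := TE.omg_sq h ha hb hc
  have h8 : (a * b * c) ^ 8 = 1 := by
    have i7 : (a * b * c) ^ 8 = (a * b * c) ^ 4 * (a * b * c) ^ 4 := by rw [← pow_add]
    rw [i7, h4, hOO]
  have hmem := four_mem8 hS hj hcn (by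
    have i1 : a * b * (a * b) = u := rfl
    rw [i1]
    exact huL) (by
    rw [hcc]
    exact one_mem _) (by
    rw [h8]
    exact one_mem _)
  rw [h4] at hmem
  obtain ⟨i, j, k, hijk⟩ := mem_three hue Wu.symm We.symm huu hee hWW hmem
  have hom : omg a b c = W * ww c a b := rfl
  have Oa : Commute (omg a b c) a := Wa.mul_left ca
  have Ob : Commute (omg a b c) b := Wb.mul_left cb
  have Oc : Commute (omg a b c) c := Wc.mul_left cc'
  -- the case `e = u`
  have keyA : e = u → omg a b c = u * W ^ k →
      (ww a b c = 1 ∧ ww b c a = 1 ∧ u = omg a b c ∧ Commute u c) := by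
    intro heu h1
    have i1 : ww a b c = 1 := by
      have i2 : cj e a = e := by
        rw [heu]
        exact (commute_iff_cj haa).mp hua
      rw [ea] at i2
      exact mul_eq_left.mp i2
    have i3 : ww b c a = 1 := by
      have i2 : cj e b = e := by
        rw [heu]
        exact (commute_iff_cj hbb).mp hub
      rw [eb] at i2
      exact mul_eq_left.mp i2
    have i4 : W = 1 := by rw [hW, i1, i3, one_mul]
    rw [i4, one_pow, mul_one] at h1
    exact ⟨i1, i3, h1.symm, (commute_iff_cj hcc).mpr heu⟩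
  have Wk : ∀ x : G, Commute W x → Commute (W ^ k) x := fun x hx => hx.pow_left k
  rcases pow_cases huu i with hi | hi <;> rcases pow_cases hee j with hj' | hj'
  · -- `ω = W^k`
    rw [hi, hj', one_mul, one_mul] at hijk
    rcases pow_cases hWW k with hk | hk
    · left
      rw [hijk, hk]
    · right
      left
      rw [hk, hom] at hijk
      exact mul_eq_left.mp hijk
  · -- `ω = e W^k`
    rw [hi, hj', one_mul] at hijk
    right
    right
    right
    have i1 : Commute e c := by
      have i2 : e = omg a b c * (W ^ k)⁻¹ := by rw [hijk]; group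
      rw [i2]
      exact Oc.mul_left ((Wk c Wc).inv_left)
    have i3 : e = u := by
      rw [← ec]
      exact ((commute_iff_cj hcc).mp i1).symm
    refine keyA i3 ?_
    rw [hijk, i3]
  · -- `ω = u W^k`
    rw [hi, hj', mul_one] at hijk
    right
    right
    right
    have i1 : Commute u c := by
      have i2 : u = omg a b c * (W ^ k)⁻¹ := by rw [hijk]; group
      rw [i2]
      exact Oc.mul_left ((Wk c Wc).inv_left)
    have i3 : e = u := (commute_iff_cj hcc).mp i1
    exact keyA i3 hijk
  · -- `ω = u e W^k`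
    rw [hi, hj'] at hijk
    right
    right
    left
    have i1 : u * e = omg a b c * (W ^ k)⁻¹ := by rw [hijk]; group
    have i2 : Commute (u * e) a := by
      rw [i1]
      exact Oa.mul_left ((Wk a Wa).inv_left)
    have i3 : Commute (u * e) b := by
      rw [i1]
      exact Ob.mul_left ((Wk b Wb).inv_left)
    have i4 : ww a b c = 1 := by
      have i5 := (commute_iff_cj haa).mp i2
      rw [cj_mul haa, (commute_iff_cj haa).mp hua, ea, ← mul_assoc] at i5
      exact mul_eq_left.mp i5
    have i6 : ww b c a = 1 := by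
      have i5 := (commute_iff_cj hbb).mp i3
      rw [cj_mul hbb, (commute_iff_cj hbb).mp hub, eb, ← mul_assoc] at i5
      exact mul_eq_left.mp i5
    refine ⟨i4, i6, ?_⟩
    have i7 : W = 1 := by rw [hW, i4, i6, one_mul]
    rw [hijk, i7, one_pow, mul_one, kk_eq]

/-- an exceptional triple: `u = [a, b] = (a b c)⁴` is central in `⟨a, b, c⟩` and `w(a;b,c) = w(b;c,a) = 1` -/
def Exc (a b c : G) : Prop :=
  kk a b = (a * b * c) ^ 4 ∧ Commute (kk a b) c ∧ ww a b c = 1 ∧ ww b c a = 1

/-- `ω = 1`, or `w(c;a,b) = 1`, or `(a, b, c)` or `(a, b^c, c)` is exceptional -/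
theorem caseGE (hS : NoD16 G) {a b c : G} (ha : a ∈ E) (hb : b ∈ E) (hc : c ∈ E) :
    omg a b c = 1 ∨ ww c a b = 1 ∨ Exc a b c ∨ Exc a (cj b c) c := by
  have haa := h.inv a ha
  have hbb := h.inv b hb
  have hcc := h.inv c hc
  have d := h.toDL
  rcases caseFE h hS ha hb hc with h1 | h1 | ⟨h1, h2, h3⟩ | ⟨h1, h2, h3, h4⟩
  · exact Or.inl h1
  · exact Or.inr (Or.inl h1)
  · have hbc := TE.ej d hb hc
    have hw : omg a b c = ww c a b := by
      unfold omg
      rw [h1, h2, one_mul, one_mul]
    have hD := TE.D_rel h ha hb hc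
    have h4 : kk (kk a (cj b c)) c = 1 := by
      rw [h3, hw] at hD
      exact mul_eq_left.mp hD
    -- the same `ω`
    have h5 : omg a (cj b c) c = omg a b c := by
      have i1 : a * cj b c * c = a * c * b := by
        simp only [cj, mul_assoc, hcc, mul_one]
      rw [← TE.abc_four h ha hbc hc, i1, TE.abc_four h ha hc hb, ← TE.omg_cyc h hb ha hc,
        TE.omg_comm h hb ha hc]
    set u' := kk a (cj b c) with hu'
    have huu : u' * u' = 1 := TE.ek_sq d ha hbc
    have huc : Commute u' c := comm_of_kk huu hcc h4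
    have e' : cj u' c = u' := (commute_iff_cj hcc).mp huc
    have i1 : ww a (cj b c) c = 1 := by
      have i2 := TE.cj_e h ha hbc hc
      rw [← hu', e', (commute_iff_cj haa).mp (TE.ek_left d ha hbc)] at i2
      exact (left_eq_mul.mp i2)
    have i3 : ww (cj b c) c a = 1 := by
      have i2 := TE.cj_e h hbc ha hc
      rw [TE.ek_comm d hbc ha, ← hu', e', (commute_iff_cj (h.inv _ hbc)).mp (TE.ek_right d ha hbc),
        TE.ww_symm h ha hbc hc] at i2
      exact (left_eq_mul.mp i2)
    rcases caseFE h hS ha hbc hc with h6 | h6 | ⟨-, -, h6⟩ | ⟨-, -, h6, h7⟩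
    · left
      rw [← h5, h6]
    · left
      rw [← h5]
      unfold omg
      rw [i1, i3, h6, one_mul, one_mul]
    · left
      rw [← h5, ← h6]
      exact h4
    · right
      right
      right
      refine ⟨?_, h7, i1, i3⟩
      rw [h6, TE.abc_four h ha hbc hc]
  · right
    right
    left
    refine ⟨?_, h4, h1, h2⟩
    rw [h3, TE.abc_four h ha hb hc]

/-- the six triples -/
def ExcAny (a b c : G) : Prop :=
  Exc a b c ∨ Exc a (cj b c) c ∨ Exc b c a ∨ Exc b (cj c a) a ∨ Exc c a b ∨ Exc c (cj a b) b

/-- **Theorem.** without sections `D₁₆`: `(a b c)⁴ = 1`, or one of six triples is exceptional -/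
theorem p3_or_exc (hS : NoD16 G) {a b c : G} (ha : a ∈ E) (hb : b ∈ E) (hc : c ∈ E) :
    (a * b * c) ^ 4 = 1 ∨ ExcAny a b c := by
  rw [TE.abc_four h ha hb hc]
  rcases caseGE h hS ha hb hc with h1 | h1 | h1 | h1
  · exact Or.inl h1
  · rcases caseGE h hS hb hc ha with h2 | h2 | h2 | h2
    · left
      rw [TE.omg_cyc h ha hb hc, h2]
    · rcases caseGE h hS hc ha hb with h3 | h3 | h3 | h3
      · left
        rw [TE.omg_cyc h ha hb hc, TE.omg_cyc h hb hc ha, h3]
      · left
        unfold omg
        rw [h1, h2, h3, one_mul, one_mul]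
      · exact Or.inr (Or.inr (Or.inr (Or.inr (Or.inr (Or.inl h3)))))
      · exact Or.inr (Or.inr (Or.inr (Or.inr (Or.inr (Or.inr h3)))))
    · exact Or.inr (Or.inr (Or.inr (Or.inl h2)))
    · exact Or.inr (Or.inr (Or.inr (Or.inr (Or.inl h2))))
  · exact Or.inr (Or.inl h1)
  · exact Or.inr (Or.inr (Or.inl h1))

end main

/-- an exceptional triple generates a group with a subgroup `SD₁₆` -/
theorem exc_four (hS : NoSD16 G) {a b c : G} (haa : a * a = 1) (hbb : b * b = 1) (hcc : c * c = 1)
    (hu : kk a b * kk a b = 1) (hexc : Exc a b c) : (a * b * c) ^ 4 = 1 := by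
  obtain ⟨h1, h2, -, -⟩ := hexc
  refine sd16 hS (t := c) hcc ?_ ?_
  · have i7 : (a * b * c) ^ 8 = (a * b * c) ^ 4 * (a * b * c) ^ 4 := by rw [← pow_add]
    rw [i7, ← h1, hu]
  · have i7 : (a * b * c) ^ 3 * (a * b * c) = kk a b := by rw [← pow_succ, h1]
    have heu : cj (kk a b) c = kk a b := (commute_iff_cj hcc).mp h2
    have i8 : c * (a * b * c) * c * (a * b * c) = kk a b := by
      calc c * (a * b * c) * c * (a * b * c) = c * (a * b * (a * b)) * c := by
            simp only [mul_assoc, cc hcc]
        _ = kk a b := heu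
    exact mul_right_cancel (i8.trans i7.symm)

/-- **Theorem.** without sections `D₁₆` and `SD₁₆`: `(a b c)⁴ = 1` on every normal set of involutions with
`(x y)⁴ = 1` -/
theorem p3_of_noSec_E (hS : NoD16 G) (hS' : NoSD16 G) {E : Set G} (h0 : DL E) {a b c : G} (ha : a ∈ E)
    (hb : b ∈ E) (hc : c ∈ E) : (a * b * c) ^ 4 = 1 := by
  have h := law_of_noD16 hS h0
  have key : ∀ {x y z : G}, x ∈ E → y ∈ E → z ∈ E → Exc x y z → omg x y z = 1 := by
    intro x y z hx hy hz hE
    rw [← TE.abc_four h hx hy hz]
    exact exc_four hS' (h.inv x hx) (h.inv y hy) (h.inv z hz) (TE.ek_sq h0 hx hy) hE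
  -- the same `ω` for the six triples
  have same : ∀ {x y z : G}, x ∈ E → y ∈ E → z ∈ E → omg x (cj y z) z = omg x y z := by
    intro x y z hx hy hz
    have hyz := TE.ej h0 hy hz
    have i1 : x * cj y z * z = x * z * y := by
      simp only [cj, mul_assoc, h.inv z hz, mul_one]
    rw [← TE.abc_four h hx hyz hz, i1, TE.abc_four h hx hz hy, ← TE.omg_cyc h hy hx hz,
      TE.omg_comm h hy hx hz]
  rcases p3_or_exc h hS ha hb hc with h1 | h1 | h1 | h1 | h1 | h1 | h1
  · exact h1
  · rw [TE.abc_four h ha hb hc]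
    exact key ha hb hc h1
  · rw [TE.abc_four h ha hb hc, ← same ha hb hc]
    exact key ha (TE.ej h0 hb hc) hc h1
  · rw [TE.abc_four h ha hb hc, TE.omg_cyc h ha hb hc]
    exact key hb hc ha h1
  · rw [TE.abc_four h ha hb hc, TE.omg_cyc h ha hb hc, ← same hb hc ha]
    exact key hb (TE.ej h0 hc ha) ha h1
  · rw [TE.abc_four h ha hb hc, TE.omg_cyc h ha hb hc, TE.omg_cyc h hb hc ha]
    exact key hc ha hb h1
  · rw [TE.abc_four h ha hb hc, TE.omg_cyc h ha hb hc, TE.omg_cyc h hb hc ha, ← same hc ha hb]
    exact key hc (TE.ej h0 ha hb) hb h1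

end basic

end Pool.Agent.Helper46.SV
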