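import Pool.Agent.Helper96.SV.Rel
import Pool.Agent.Helper46.SV.HP3
import Pool.Agent.Helper89.SV.Path

/-!
# Certificates in the world of a closed `DLaw` set with the path law

`E` is a `DLaw` set closed under commutators, and `(x y z)⁴ = 1` if `x, y` commute. The letters `0, 1, 2, 3` are elements of `E`; the letters
`≥ 4` are identity letters (their edges are coincidences of the coset table). `cp` is a list of pairs of terms known to commute,
`ex` a list of words known to be trivial. A certificate `C` with `C.ok cp ex = true` proves that the word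
`C.tgt` takes the same value on two such families of letters which differ only at the letter `0`.
-/

set_option autoImplicit false

namespace Pool.Agent.Helper46.SV.RK

open Pool.Agent.Helper94.SV.Frame (c2 DLaw)
open Pool.Agent.Helper89.SV (run run_append allB allB_spec tr Path)
open Pool.Agent.Helper96.SV (ev ev_append iw ev_iw fr ev_fr r4 ev_r4 two_four act2 run_act2 act2_act2 edge
  target_sound)

universe u

variable {G : Type u} [Group G]

/-- `x y x y` -/
def wkk (x y : List ℕ) : List ℕ := x ++ (y ++ (x ++ y))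

/-- `y x y` -/
def wcj (x y : List ℕ) : List ℕ := y ++ (x ++ y)

/-- the word of `w(a;b,c)` -/
def www (a b c : List ℕ) : List ℕ := wkk (wcj a b) (wcj a c)

/-- terms for elements of `E` -/
inductive Tm
  | l (s : ℕ)
  | j (s : ℕ) (t : Tm)
  | k (t t' : Tm)
  deriving Inhabited

/-- the word of a term -/
def Tm.wd : Tm → List ℕ
  | .l s => [s]
  | .j s t => wcj t.wd [s]
  | .k t t' => wkk t.wd t'.wd

/-- iterated conjugates -/
def Tm.js : List ℕ → Tm → Tm
  | [], t => t
  | s :: w, t => Tm.js w (.j s t)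

/-- the leaves are allowed -/
def Tm.ok : Tm → Bool
  | .l s => Nat.blt s 4
  | .j s t => Nat.blt s 4 && t.ok
  | .k t t' => t.ok && t'.ok

/-- instances of laws -/
inductive Law
  | two (x y : Tm)
  | three (i : ℕ) (w : List ℕ) (z : Tm)
  | cm (i : ℕ) (w : List ℕ)
  | xx (i : ℕ)
  | e

/-- the pair number `i` -/
def gp (cp : List (Tm × Tm)) (i : ℕ) : Tm × Tm := cp.getD i (.l 0, .l 0)

/-- the word of a law -/
def Law.wd (cp : List (Tm × Tm)) (ex : List (List ℕ)) : Law → List ℕ
  | .two x y => r4 (x.wd ++ y.wd)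
  | .three i w z => r4 ((Tm.js w (gp cp i).1).wd ++ ((Tm.js w (gp cp i).2).wd ++ z.wd))
  | .cm i w => wkk (Tm.js w (gp cp i).1).wd (Tm.js w (gp cp i).2).wd
  | .xx i => ex.getD i []
  | .e => []

/-- the law is allowed -/
def Law.ok (cp : List (Tm × Tm)) : Law → Bool
  | .two x y => x.ok && y.ok
  | .three i w z => (w.all fun s => Nat.blt s 4) && ((gp cp i).1.ok && ((gp cp i).2.ok && z.ok))
  | .cm i w => (w.all fun s => Nat.blt s 4) && ((gp cp i).1.ok && (gp cp i).2.ok)
  | .xx _ => true
  | .e => true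

/-- the letters satisfy the hypotheses of the world -/
structure World (E : Set G) (f : ℕ → G) (cp : List (Tm × Tm)) (ex : List (List ℕ)) : Prop where
  law : DLaw E
  path : Path E
  cl : ∀ a ∈ E, ∀ b ∈ E, c2 a b ∈ E
  inv : ∀ s, f s * f s = 1
  le : ∀ s, s < 4 → f s ∈ E
  one : ∀ s, 4 ≤ s → f s = 1
  cp : ∀ p ∈ cp, Commute (ev f p.1.wd) (ev f p.2.wd)
  ex : ∀ w ∈ ex, ev f w = 1

variable {E : Set G} {f : ℕ → G} {cp : List (Tm × Tm)} {ex : List (List ℕ)}

theorem ev_wkk (f : ℕ → G) (x y : List ℕ) : ev f (wkk x y) = kk (ev f x) (ev f y) := by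
  simp only [wkk, ev_append, kk, mul_assoc]

theorem ev_wcj (f : ℕ → G) (x y : List ℕ) : ev f (wcj x y) = cj (ev f x) (ev f y) := by
  simp only [wcj, ev_append, cj, mul_assoc]

theorem ev_www (f : ℕ → G) (a b c : List ℕ) : ev f (www a b c) = ww (ev f a) (ev f b) (ev f c) := by
  simp only [www, ev_wkk, ev_wcj, ww]

theorem ev_single (f : ℕ → G) (s : ℕ) : ev f [s] = f s := by simp [ev]

theorem Tm.mem (H : World E f cp ex) (t : Tm) (h : t.ok = true) : ev f t.wd ∈ E := by
  induction t with
  | l s =>
    rw [Tm.wd, ev_single]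
    exact H.le s (by simpa [Tm.ok, Nat.blt_eq] using h)
  | j s t ih =>
    simp only [Tm.ok, Bool.and_eq_true] at h
    rw [Tm.wd, ev_wcj, ev_single]
    exact (dl_of H.law).cj (ih h.2) (H.inv s)
  | k t t' ih ih' =>
    simp only [Tm.ok, Bool.and_eq_true] at h
    rw [Tm.wd, ev_wkk]
    exact H.cl _ (ih h.1) _ (ih' h.2)

theorem gp_comm (H : World E f cp ex) (i : ℕ) : Commute (ev f (gp cp i).1.wd) (ev f (gp cp i).2.wd) := by
  rcases lt_or_ge i cp.length with hi | hi
  · rw [gp, List.getD_eq_getElem _ _ hi]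
    exact H.cp _ (List.getElem_mem hi)
  · rw [gp, List.getD_eq_default _ _ hi]

theorem js_comm (H : World E f cp ex) (w : List ℕ) : ∀ t t' : Tm, Commute (ev f t.wd) (ev f t'.wd) →
    Commute (ev f (Tm.js w t).wd) (ev f (Tm.js w t').wd) := by
  induction w with
  | nil => exact fun _ _ h => h
  | cons s w ih =>
    intro t t' h
    refine ih _ _ ?_
    rw [Tm.wd, Tm.wd, ev_wcj, ev_wcj]
    exact cj_comm (by rw [ev_single]; exact H.inv s) h

theorem js_ok (w : List ℕ) : ∀ t : Tm, (w.all fun s => Nat.blt s 4) = true → t.ok = true →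
    (Tm.js w t).ok = true := by
  induction w with
  | nil => exact fun _ _ h => h
  | cons s w ih =>
    intro t hw ht
    rw [List.all_cons, Bool.and_eq_true] at hw
    refine ih _ hw.2 ?_
    rw [Tm.ok, hw.1, ht, Bool.and_self]

theorem Law.sound (H : World E f cp ex) (L : Law) (h : L.ok cp = true) : ev f (L.wd cp ex) = 1 := by
  cases L with
  | two x y =>
    simp only [Law.ok, Bool.and_eq_true] at h
    rw [Law.wd, ev_r4, ev_append]
    exact two_four H.law (x.mem H h.1) (y.mem H h.2)
  | three i w z =>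
    simp only [Law.ok, Bool.and_eq_true] at h
    rw [Law.wd, ev_r4, ev_append, ev_append, ← mul_assoc]
    exact H.path _ ((Tm.js w _).mem H (js_ok w _ h.1 h.2.1)) _ ((Tm.js w _).mem H (js_ok w _ h.1 h.2.2.1))
      (js_comm H w _ _ (gp_comm H i)) _ (z.mem H h.2.2.2)
  | cm i w =>
    simp only [Law.ok, Bool.and_eq_true] at h
    rw [Law.wd, ev_wkk]
    have hD := dl_of H.law
    exact kk_of_comm (hD.inv _ ((Tm.js w _).mem H (js_ok w _ h.1 h.2.1)))
      (hD.inv _ ((Tm.js w _).mem H (js_ok w _ h.1 h.2.2))) (js_comm H w _ _ (gp_comm H i))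
  | xx i =>
    rw [Law.wd]
    rcases lt_or_ge i ex.length with hi | hi
    · rw [List.getD_eq_getElem _ _ hi]
      exact H.ex _ (List.getElem_mem hi)
    · rw [List.getD_eq_default _ _ hi]
      rfl
  | e => rfl

/-- delete the identity letters -/
def dl : List ℕ → List ℕ
  | [] => []
  | s :: w => cond (Nat.blt s 4) (s :: dl w) (dl w)

theorem ev_dl (H : World E f cp ex) (w : List ℕ) : ev f (dl w) = ev f w := by
  induction w with
  | nil => rfl
  | cons s w ih =>
    rw [dl]
    cases h : Nat.blt s 4 with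
    | true => simp [ev, ih]
    | false =>
      have h4 : 4 ≤ s := by
        by_contra hlt
        have : Nat.blt s 4 = true := by
          simpa [Nat.blt_eq] using (by omega : s < 4)
        rw [h] at this
        simp at this
      simp [ev, ih, H.one s h4]

/-- the identity as inverse map of letters -/
def ii (s : ℕ) : ℕ := s

/-- the word `W` without identity letters is freely conjugate by `p` to the instance `L` or its inverse -/
def chk (cp : List (Tm × Tm)) (ex : List (List ℕ)) (W : List ℕ) (L : Law) (p : List ℕ) (o : Bool) : Bool :=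
  L.ok cp && (fr ii (iw ii p ++ (dl W ++ (p ++ cond o (L.wd cp ex) (iw ii (L.wd cp ex))))) []).isEmpty

theorem chk_sound (H : World E f cp ex) {W : List ℕ} {L : Law} {p : List ℕ} {o : Bool}
    (h : chk cp ex W L p o = true) : ev f W = 1 := by
  have hinv : ∀ s, f s * f (ii s) = 1 := H.inv
  simp only [chk, Bool.and_eq_true, List.isEmpty_iff] at h
  have h1 := L.sound H h.1
  have h2 := ev_fr hinv (iw ii p ++ (dl W ++ (p ++ cond o (L.wd cp ex) (iw ii (L.wd cp ex))))) []
  rw [h.2] at h2
  have h3 : ev f (cond o (L.wd cp ex) (iw ii (L.wd cp ex))) = 1 := by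
    cases o with
    | true => exact h1
    | false => rw [cond_false, ev_iw hinv, h1, inv_one]
  simp only [List.reverse_nil, ev, one_mul, ev_append, h3, mul_one, ev_iw hinv, ev_dl H] at h2
  have h4 : ev f W = ev f p * ((ev f p)⁻¹ * (ev f W * ev f p)) * (ev f p)⁻¹ := by
    simp only [mul_assoc, mul_inv_cancel, mul_one, mul_inv_cancel_left]
  rw [h4, ← h2, mul_one, mul_inv_cancel]

/-- a certificate -/
structure Cert where
  /-- number of points -/
  N : ℕ
  /-- number of letters, identity letters included -/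
  m : ℕ
  /-- number of stamps -/
  B : ℕ
  /-- number of relators -/
  nr : ℕ
  /-- edges: entry `m i + s` (24 bits): end point, stamp -/
  tab : ℕ
  /-- tree: entry `i` (16 bits): parent, letter -/
  prs : ℕ
  /-- deductions: entry `n` (32 bits): point, word, position -/
  ded : ℕ
  /-- the words -/
  wds : List (List ℕ)
  /-- the laws behind the words -/
  crt : List (Law × List ℕ × Bool)
  /-- the target -/
  tgt : List ℕ

/-- the end point of an edge -/
def Cert.T (C : Cert) (i s : ℕ) : ℕ := (C.tab >>> (24 * (C.m * i + s))) % 4096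

/-- the time stamp of an edge -/
def Cert.S (C : Cert) (i s : ℕ) : ℕ := (C.tab >>> (24 * (C.m * i + s) + 12)) % 4096

/-- the parent of a point -/
def Cert.P (C : Cert) (i : ℕ) : ℕ := (C.prs >>> (16 * i)) % 4096

/-- the letter from the parent -/
def Cert.L (C : Cert) (i : ℕ) : ℕ := (C.prs >>> (16 * i + 12)) % 16

/-- the point of a deduction -/
def Cert.dI (C : Cert) (n : ℕ) : ℕ := (C.ded >>> (32 * n)) % 4096

/-- the word of a deduction -/
def Cert.dK (C : Cert) (n : ℕ) : ℕ := (C.ded >>> (32 * n + 12)) % 4096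

/-- the position of a deduction -/
def Cert.dR (C : Cert) (n : ℕ) : ℕ := (C.ded >>> (32 * n + 24)) % 256

/-- the word number `k` -/
def Cert.W (C : Cert) (k : ℕ) : List ℕ := C.wds.getD k []

/-- no letter `0` -/
def no0 (w : List ℕ) : Bool := w.all fun s => Nat.blt 0 s

/-- all checks -/
noncomputable def Cert.ok (C : Cert) (cp : List (Tm × Tm)) (ex : List (List ℕ)) : Bool :=
  ((List.range C.nr).all (fun k => chk cp ex (C.W k) (C.crt.getD k (.e, [], true)).1
    (C.crt.getD k (.e, [], true)).2.1 (C.crt.getD k (.e, [], true)).2.2)) &&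
  (allB (fun i => allB (fun s => edge C.T C.S C.P C.L ii C.W C.nr C.m C.B C.dI C.dK C.dR i s) C.m) C.N &&
  (allB (fun i => cond (Nat.beq i 0) true (Nat.blt (C.P i) i)) C.N &&
  (allB (fun i => allB (fun s => Nat.blt (C.T i s) C.N) C.m) C.N &&
  (C.wds.all (fun w => w.all fun s => Nat.blt s C.m) &&
  ((C.wds.drop C.nr).all no0 &&
  (C.tgt.all (fun s => Nat.blt s C.m) &&
  (Nat.blt 0 C.N && tr C.T C.S C.B 0 C.tgt 0)))))))

theorem ev_congr {f' : ℕ → G} (hff : ∀ s, s ≠ 0 → f s = f' s) (w : List ℕ) (h : no0 w = true) :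
    ev f w = ev f' w := by
  induction w with
  | nil => rfl
  | cons s w ih =>
    have h' : (Nat.blt 0 s && no0 w) = true := by
      simpa [no0] using h
    rw [Bool.and_eq_true] at h'
    have hs : s ≠ 0 := by
      have := h'.1
      rintro rfl
      simp at this
    simp only [ev, hff s hs, ih h'.2]

/-- **the certificate theorem** -/
theorem Cert.main (C : Cert) (hC : C.ok cp ex = true) {f' : ℕ → G} {E' : Set G} (H : World E f cp ex)
    (H' : World E' f' cp ex) (hff : ∀ s, s ≠ 0 → f s = f' s) : ev f C.tgt = ev f' C.tgt := by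
  simp only [Cert.ok, Bool.and_eq_true] at hC
  obtain ⟨c1, c2, c3, c4, c5, c6, c7, c8, c9⟩ := hC
  have hrel0 : ∀ k < C.nr, ∀ (g : ℕ → G) (F : Set G), World F g cp ex → ev g (C.W k) = 1 := by
    intro k hk g F HF
    exact chk_sound HF (List.all_eq_true.1 c1 k (List.mem_range.2 hk))
  have hrel : ∀ k < C.nr, ∀ x, run (act2 f' f) (C.W k) x = x := by
    intro k hk x
    rw [run_act2, hrel0 k hk f E H, hrel0 k hk f' E' H']
    simp
  have hbase : ∀ k, C.nr ≤ k → run (act2 f' f) (C.W k) 1 = 1 := by
    intro k hk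
    have h0 : no0 (C.W k) = true := by
      rcases lt_or_ge k C.wds.length with hl | hl
      · rw [Cert.W, List.getD_eq_getElem _ _ hl]
        refine List.all_eq_true.1 c6 _ ?_
        rw [List.mem_drop_iff_getElem]
        exact ⟨k - C.nr, by omega, by simp only [Nat.add_sub_cancel' hk]⟩
      · rw [Cert.W, List.getD_eq_default _ _ hl]
        rfl
    rw [run_act2, ev_congr hff _ h0]
    simp
  have hTlt : ∀ i < C.N, ∀ s < C.m, C.T i s < C.N := by
    intro i hi s hs
    have h := allB_spec (allB_spec c4 i hi) s hs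
    simpa [Nat.blt_eq] using h
  have hPlt : ∀ j < C.N, 0 < j → C.P j < j := by
    intro j hj hpos
    have h := allB_spec c3 j hj
    have h0 : Nat.beq j 0 = false := by
      cases hb : Nat.beq j 0 with
      | false => rfl
      | true =>
        have := Nat.eq_of_beq_eq_true hb
        omega
    simp only [h0, cond_false] at h
    simpa [Nat.blt_eq] using h
  have hedge : ∀ i < C.N, ∀ s < C.m, edge C.T C.S C.P C.L ii C.W C.nr C.m C.B C.dI C.dK C.dR i s = true :=
    fun i hi s hs => allB_spec (allB_spec c2 i hi) s hs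
  have hW : ∀ k, ∀ s ∈ C.W k, s < C.m := by
    intro k s hs
    rcases lt_or_ge k C.wds.length with hl | hl
    · rw [Cert.W, List.getD_eq_getElem _ _ hl] at hs
      have h1 := List.all_eq_true.1 c5 _ (List.getElem_mem hl)
      have h2 := List.all_eq_true.1 h1 s hs
      simpa [Nat.blt_eq] using h2
    · rw [Cert.W, List.getD_eq_default _ _ hl] at hs
      simp at hs
  have htl : ∀ s ∈ C.tgt, s < C.m := by
    intro s hs
    have h2 := List.all_eq_true.1 c7 s hs
    simpa [Nat.blt_eq] using h2
  have hN : 0 < C.N := by simpa [Nat.blt_eq] using c8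
  have h := target_sound (act2 f' f) ii (fun s x => act2_act2 (iv := ii) H'.inv H.inv s x) C.m
    (fun _ _ => rfl) (fun _ hs => hs) 1 C.T C.S C.P C.L
    C.N C.B C.W C.nr C.dI C.dK C.dR hTlt hPlt hW hrel hbase hedge hN C.tgt htl c9
  rw [run_act2, mul_one] at h
  exact (inv_mul_eq_one.1 h).symm

end Pool.Agent.Helper46.SV.RK
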