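import Pool.Agent.Helper46.SV.NoSec
import Pool.Agent.Helper94.SV.Stage3

/-!
# 2-groups without sections `D₁₆`, `SD₁₆` are locally finite, modulo stage 3 (b)
-/

set_option autoImplicit false

open Subgroup

namespace Pool.Agent.Helper46.SV

open Pool.Agent.Helper94.SV.Frame (c2 DLaw MaxLaw NoLF LF Thin exists_max_lf lf_comap trivial_of_P3)
open Pool.Agent.Helper89.SV (P3)

universe u

/-- sections of a quotient are sections -/
theorem NoSec.quotient {G : Type u} [Group G] (hS : NoSec G) (N : Subgroup G) [N.Normal] :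
    NoSec (G ⧸ N) := by
  intro Q _ H f hf
  refine hS Q (H.comap (QuotientGroup.mk' N)) (f.comp ((QuotientGroup.mk' N).subgroupComap H)) ?_
  exact hf.comp ((QuotientGroup.mk' N).subgroupComap_surjective_of_surjective H
    (QuotientGroup.mk'_surjective N))

/-- **Theorem J'**, modulo stage 3 (b) -/
theorem lf_of_noSec
    (beta : ∀ (Q : Type u) [Group Q] (D : Set Q), MaxLaw D → P3 D →
      (∀ a ∈ D, ∀ b ∈ D, c2 a b ∈ D) → ∀ a ∈ D, ∀ b ∈ D, Thin D (c2 a b))
    {G : Type u} [Group G] (hG : IsPGroup 2 G) (hS : NoSec G) (H : Subgroup G) (hH : H.FG) :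
    Finite H := by
  obtain ⟨R, hRn, hR, hRmax⟩ := exists_max_lf G
  have hQ : NoLF (G ⧸ R) := by
    intro N hN hN2
    have h1 : N.comap (QuotientGroup.mk' R) ≤ R := by
      refine hRmax _ inferInstance (lf_comap R hR N hN2) ?_
      intro x hx
      rw [Subgroup.mem_comap]
      have h2 : QuotientGroup.mk' R x = 1 := (QuotientGroup.eq_one_iff x).mpr hx
      rw [h2]
      exact one_mem _
    rw [Subgroup.eq_bot_iff_forall]
    intro z hz
    obtain ⟨x, rfl⟩ := QuotientGroup.mk'_surjective R z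
    exact (QuotientGroup.eq_one_iff x).mpr (h1 hz)
  have hG' : IsPGroup 2 (G ⧸ R) := hG.to_quotient R
  have hS' : NoSec (G ⧸ R) := hS.quotient R
  have h4 := inv4_of_noSec hG' hS'
  let D : Set (G ⧸ R) := {x | x * x = 1}
  have hD : DLaw D := by
    refine ⟨one_mul 1, fun x hx => hx, ?_, ?_⟩
    · intro g x hx
      have hx' : x * x = 1 := hx
      show g * x * g⁻¹ * (g * x * g⁻¹) = 1
      have e : g * x * g⁻¹ * (g * x * g⁻¹) = g * (x * x) * g⁻¹ := by group
      rw [e, hx']
      group
    · intro x hx y hy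
      exact kk_sq h4 hx hy
  have hmax : MaxLaw D := ⟨hD, fun E hE _ x hx => hE.inv x hx⟩
  have hP : P3 D := fun x hx y hy z hz => p3_of_noSec hG' hS' hx hy hz
  have htriv := trivial_of_P3 hQ hmax hP (beta _ D hmax hP)
  have hall : ∀ g : G ⧸ R, g = 1 := by
    intro g
    obtain ⟨k, hk⟩ := hG' g
    induction k with
    | zero => simpa using hk
    | succ k ih =>
      apply ih
      apply htriv
      show g ^ 2 ^ k * g ^ 2 ^ k = 1
      rw [← pow_add, ← two_mul, ← pow_succ']
      exact hk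
  obtain ⟨S, hSH⟩ := hH
  have h5 : ∀ g : G, g ∈ R := fun g => (QuotientGroup.eq_one_iff g).mp (hall g)
  have h6 := hR S S.finite_toSet (fun g _ => h5 g)
  rw [← hSH]
  exact h6

end Pool.Agent.Helper46.SV
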