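import Mathlib

/-!
# Three involutions

`Inv4 G`: any two involutions `x, y` of `G` satisfy `(x y)⁴ = 1`. For three involutions `a, b, c` put
`w(a; b, c) = [a^b, a^c]`. These elements are central in `⟨a, b, c⟩` and `(a b c)⁴ = w(a;b,c) w(b;c,a) w(c;a,b)`.
-/

set_option autoImplicit false

namespace Pool.Agent.Helper46.SV

universe u

variable {G : Type u} [Group G]

/-- the commutator `(x y)²` of two involutions -/
def kk (x y : G) : G := x * y * (x * y)

/-- conjugation by an involution -/
def cj (x y : G) : G := y * x * y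

/-- `(x y)⁴ = 1` for all involutions -/
def Inv4 (G : Type u) [Group G] : Prop := ∀ x y : G, x * x = 1 → y * y = 1 → (x * y) ^ 4 = 1

/-- `w(a; b, c) = [a^b, a^c]` -/
def ww (a b c : G) : G := kk (cj a b) (cj a c)

theorem cc {x : G} (hx : x * x = 1) (y : G) : x * (x * y) = y := by
  rw [← mul_assoc, hx, one_mul]

theorem cj_sq {x y : G} (hx : x * x = 1) (hy : y * y = 1) : cj x y * cj x y = 1 := by
  simp only [cj, mul_assoc, cc hy, cc hx, hy]

theorem cj_cj {x y : G} (hy : y * y = 1) : cj (cj x y) y = x := by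
  simp only [cj, mul_assoc, cc hy, hy, mul_one]

theorem cj_mul {x z y : G} (hy : y * y = 1) : cj (x * z) y = cj x y * cj z y := by
  simp only [cj, mul_assoc, cc hy]

theorem cj_kk {x z y : G} (hy : y * y = 1) : cj (kk x z) y = kk (cj x y) (cj z y) := by
  simp only [cj, kk, mul_assoc, cc hy]

theorem inv_of {x : G} (hx : x * x = 1) : x⁻¹ = x := inv_eq_of_mul_eq_one_right hx

theorem kk_sq (h : Inv4 G) {x y : G} (hx : x * x = 1) (hy : y * y = 1) : kk x y * kk x y = 1 := by
  rw [← h x y hx hy]
  simp only [kk, pow_succ, pow_zero, one_mul, mul_assoc]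

theorem kk_comm (h : Inv4 G) {x y : G} (hx : x * x = 1) (hy : y * y = 1) : kk x y = kk y x := by
  have h1 := kk_sq h hx hy
  have h2 : kk x y * kk y x = 1 := by
    simp only [kk, mul_assoc, cc hx, cc hy, hy, hx]
  calc kk x y = kk x y * (kk x y * kk y x) := by rw [h2, mul_one]
    _ = kk y x := by rw [← mul_assoc, h1, one_mul]

/-- `kk x y` commutes with `x` -/
theorem kk_left (h : Inv4 G) {x y : G} (hx : x * x = 1) (hy : y * y = 1) : Commute (kk x y) x := by
  have h2 : x * kk x y * x = kk y x := by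
    simp only [kk, mul_assoc, cc hx, hx, mul_one]
  show kk x y * x = x * kk x y
  calc kk x y * x = x * (x * kk x y * x) := by simp only [mul_assoc, cc hx]
    _ = x * kk x y := by rw [h2, kk_comm h hy hx]

theorem kk_right (h : Inv4 G) {x y : G} (hx : x * x = 1) (hy : y * y = 1) : Commute (kk x y) y := by
  rw [kk_comm h hx hy]
  exact kk_left h hy hx

/-- `x` commutes with `x^y` -/
theorem comm_cj (h : Inv4 G) {x y : G} (hx : x * x = 1) (hy : y * y = 1) : Commute x (cj x y) := by
  have h1 := kk_comm h hx hy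
  show x * (y * x * y) = (y * x * y) * x
  have e1 : x * (y * x * y) = kk x y := by simp only [kk, mul_assoc]
  have e2 : (y * x * y) * x = kk y x := by simp only [kk, mul_assoc]
  rw [e1, e2, h1]

theorem commute_iff_cj {x y : G} (hy : y * y = 1) : Commute x y ↔ cj x y = x := by
  constructor
  · intro h
    have h1 : x * y = y * x := h
    show y * x * y = x
    rw [← h1, mul_assoc, hy, mul_one]
  · intro h
    have h1 : y * x * y = x := h
    show x * y = y * x
    nth_rewrite 1 [← h1]
    rw [mul_assoc, hy, mul_one]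

theorem cj_comm {x z y : G} (hy : y * y = 1) (h : Commute x z) : Commute (cj x y) (cj z y) := by
  show cj x y * cj z y = cj z y * cj x y
  rw [← cj_mul hy, ← cj_mul hy, h.eq]

theorem kk_of_comm {x y : G} (hx : x * x = 1) (hy : y * y = 1) (h : Commute x y) : kk x y = 1 := by
  have h1 : x * y = y * x := h
  show x * y * (x * y) = 1
  nth_rewrite 2 [h1]
  simp only [mul_assoc, cc hy, hx]

theorem comm_of_kk {x y : G} (hx : x * x = 1) (hy : y * y = 1) (h : kk x y = 1) : Commute x y := by
  have h1 : x * y * (x * y) = 1 := h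
  show x * y = y * x
  calc x * y = x * y * (x * y) * (y * x) := by simp only [mul_assoc, cc hx, cc hy, hy, hx, mul_one]
    _ = y * x := by rw [h1, one_mul]

theorem kk_eq (x y : G) : kk x y = x * cj x y := by
  simp only [kk, cj, mul_assoc]

theorem mul_sq_comm {x y : G} (h : Commute x y) (hx : x * x = 1) (hy : y * y = 1) : x * y * (x * y) = 1 :=
  kk_of_comm hx hy h

/-- the main computation: `z = [b^a, b^c] = [b, b^(ac)]` -/
theorem ww_aux (h : Inv4 G) {a b c : G} (ha : a * a = 1) (hb : b * b = 1) (hc : c * c = 1) :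
    ww b a c = kk b (cj (cj b a) c) := by
  have hba := cj_sq hb ha
  have hbc := cj_sq hb hc
  have hbac := cj_sq hba hc
  have c1 : Commute b (cj b a) := comm_cj h hb ha
  have c2 : Commute b (cj b c) := comm_cj h hb hc
  have c3 : Commute (cj b a) (cj (cj b a) c) := comm_cj h hba hc
  have c4 : Commute (cj b c) (cj (cj b a) c) := cj_comm hc c1
  -- `u = b b^a`
  have hu : b * cj b a * (b * cj b a) = 1 := mul_sq_comm c1 hb hba
  have hv := kk_sq h (x := b * cj b a) (y := c) hu hc
  have hv2 := comm_cj h (x := b * cj b a) (y := c) hu hc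
  rw [cj_mul hc] at hv2
  have huc : cj b c * cj (cj b a) c * (cj b c * cj (cj b a) c) = 1 := mul_sq_comm c4 hbc hbac
  have h1 : b * cj b a * (cj b c * cj (cj b a) c) * (b * cj b a * (cj b c * cj (cj b a) c)) = 1 :=
    mul_sq_comm hv2 hu huc
  have e1 : b * cj b a * (cj b c * cj (cj b a) c) = (b * cj (cj b a) c) * (cj b a * cj b c) := by
    have i1 : cj b a * (cj b c * cj (cj b a) c) = cj (cj b a) c * (cj b a * cj b c) := by
      rw [c4.eq, ← mul_assoc, c3.eq, mul_assoc]
    rw [mul_assoc, i1, mul_assoc]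
  have hA : Commute (b * cj (cj b a) c) (cj b a * cj b c) :=
    (c1.mul_right c2).mul_left ((c3.symm).mul_right c4.symm)
  rw [e1, hA.symm.mul_mul_mul_comm] at h1
  have h2 : kk b (cj (cj b a) c) * ww b a c = 1 := h1
  have h3 := kk_sq h hb hbac
  calc ww b a c = kk b (cj (cj b a) c) * kk b (cj (cj b a) c) * ww b a c := by rw [h3, one_mul]
    _ = kk b (cj (cj b a) c) * (kk b (cj (cj b a) c) * ww b a c) := by rw [mul_assoc]
    _ = _ := by rw [h2, mul_one]

theorem ww_symm (h : Inv4 G) {a b c : G} (ha : a * a = 1) (hb : b * b = 1) (hc : c * c = 1) :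
    ww b a c = ww b c a := kk_comm h (cj_sq hb ha) (cj_sq hb hc)

theorem ww_sq (h : Inv4 G) {a b c : G} (ha : a * a = 1) (hb : b * b = 1) (hc : c * c = 1) :
    ww b a c * ww b a c = 1 := kk_sq h (cj_sq hb ha) (cj_sq hb hc)

theorem ww_comm_self (h : Inv4 G) {a b c : G} (ha : a * a = 1) (hb : b * b = 1) (hc : c * c = 1) :
    Commute (ww b a c) b := by
  have c1 : Commute b (cj b a) := comm_cj h hb ha
  have c2 : Commute b (cj b c) := comm_cj h hb hc
  have c3 : Commute b (cj b a * cj b c) := c1.mul_right c2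
  exact (c3.mul_right c3).symm

theorem ww_comm_right (h : Inv4 G) {a b c : G} (ha : a * a = 1) (hb : b * b = 1) (hc : c * c = 1) :
    Commute (ww b a c) c := by
  rw [commute_iff_cj hc]
  have hbac := cj_sq (cj_sq hb ha) hc
  have e1 : cj (ww b a c) c = kk (cj (cj b a) c) b := by
    rw [ww, cj_kk hc, cj_cj hc]
  rw [e1, kk_comm h hbac hb, ww_aux h ha hb hc]

theorem ww_comm_left (h : Inv4 G) {a b c : G} (ha : a * a = 1) (hb : b * b = 1) (hc : c * c = 1) :
    Commute (ww b a c) a := by
  rw [ww_symm h ha hb hc]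
  exact ww_comm_right h hc hb ha

/-- `w(a; b, c) = u u^t` with `u = [a, b]`, `t = [a, c]` -/
theorem ww_ut (h : Inv4 G) {a b c : G} (ha : a * a = 1) (hb : b * b = 1) (hc : c * c = 1) :
    ww a b c = kk (kk a b) (kk a c) := by
  have c1 : Commute a (cj a b) := comm_cj h ha hb
  have c2 : Commute a (cj a c) := comm_cj h ha hc
  have e : kk a b * kk a c = cj a b * cj a c := by
    rw [kk_eq, kk_eq, c1.eq, mul_assoc, cc ha]
  show cj a b * cj a c * (cj a b * cj a c) = kk a b * kk a c * (kk a b * kk a c)
  rw [e]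

/-- `e^a = e w(a;b,c)` for `e = [a,b]^c` -/
theorem cj_e (h : Inv4 G) {a b c : G} (ha : a * a = 1) (hb : b * b = 1) (hc : c * c = 1) :
    cj (cj (kk a b) c) a = cj (kk a b) c * ww a b c := by
  set u := kk a b with hu
  set t := kk a c with ht
  have huu : u * u = 1 := kk_sq h ha hb
  have htt : t * t = 1 := kk_sq h ha hc
  have hua : Commute u a := kk_left h ha hb
  have hta : Commute t a := kk_left h ha hc
  have htc : Commute t c := kk_right h ha hc
  have hw : ww a b c = u * cj u t := by rw [ww_ut h ha hb hc, kk_eq]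
  -- `c` fixes `w`
  have h1 : cj (ww a b c) c = ww a b c := (commute_iff_cj hc).mp (ww_comm_right h hb ha hc)
  -- `(u^t)^c = (u^c)^a`
  have e1 : cj (cj u t) c = cj (cj u c) a := by
    have i1 : c * t = a * c * a := by
      rw [ht]
      have i2 : kk a c = kk c a := kk_comm h ha hc
      rw [i2]
      simp only [kk, mul_assoc, cc hc]
    have i2 : t * c = a * c * a := by rw [htc.eq, i1]
    have i3 : c * (t * u * t) * c = (c * t) * u * (t * c) := by simp only [mul_assoc]
    show c * (t * u * t) * c = a * (c * u * c) * a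
    rw [i3, i1, i2]
    have i4 : a * u * a = u := (commute_iff_cj ha).mp hua
    calc a * c * a * u * (a * c * a) = a * (c * (a * u * a) * c) * a := by simp only [mul_assoc]
      _ = _ := by rw [i4]
  have h2 : cj u c * cj (cj u c) a = ww a b c := by
    rw [← e1, ← cj_mul hc, ← hw, h1]
  have hee := cj_sq huu hc
  rw [← h2, cc hee]

theorem comm_cj_right {z x y : G} (h1 : Commute z x) (h2 : Commute z y) : Commute z (cj x y) :=
  (h2.mul_right h1).mul_right h2

theorem comm_kk_right {z x y : G} (h1 : Commute z x) (h2 : Commute z y) : Commute z (kk x y) :=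
  (h1.mul_right h2).mul_right (h1.mul_right h2)

theorem comm_ww_right {z a b c : G} (h1 : Commute z a) (h2 : Commute z b) (h3 : Commute z c) :
    Commute z (ww a b c) :=
  comm_kk_right (comm_cj_right h1 h2) (comm_cj_right h1 h3)

/-- `w(a;b,c)` and `w(b;c,a)` commute -/
theorem ww_ww (h : Inv4 G) {a b c : G} (ha : a * a = 1) (hb : b * b = 1) (hc : c * c = 1) :
    Commute (ww a b c) (ww b c a) :=
  comm_ww_right (ww_comm_left h hb ha hc).symm.symm (ww_comm_right h hb ha hc) (ww_comm_self h hb ha hc)

theorem mul_comm_kk {x y : G} (hx : x * x = 1) (hy : y * y = 1) : x * y = y * x * kk x y := by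
  simp only [kk, mul_assoc, cc hx, cc hy]

/-- `t a c = c a` for `t = (a c)²` -/
theorem tac (h : Inv4 G) {a c : G} (ha : a * a = 1) (hc : c * c = 1) : kk a c * (a * c) = c * a := by
  have h1 := kk_sq h ha hc
  have h2 : kk a c * (a * c) * (a * c) = 1 := by
    rw [← h1]
    simp only [kk, mul_assoc]
  calc kk a c * (a * c) = kk a c * (a * c) * (a * c) * (c * a) := by
        simp only [mul_assoc, cc hc, ha, mul_one]
    _ = c * a := by rw [h2, one_mul]

/-- `c a t = a c` for `t = (a c)²` -/
theorem cat (h : Inv4 G) {a c : G} (ha : a * a = 1) (hc : c * c = 1) : (c * a) * kk a c = a * c := by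
  simp only [kk, mul_assoc, cc hc, cc ha]

/-- `a c t = c a` for `t = (a c)²` -/
theorem act (h : Inv4 G) {a c : G} (ha : a * a = 1) (hc : c * c = 1) : (a * c) * kk a c = c * a := by
  rw [← tac h ha hc]
  simp only [kk, mul_assoc]

/-- `t c a = a c` for `t = (a c)²` -/
theorem tca (h : Inv4 G) {a c : G} (ha : a * a = 1) (hc : c * c = 1) : kk a c * (c * a) = a * c := by
  rw [kk_comm h ha hc]
  exact tac h hc ha

/-- `[t, b]^a = [t, b] w(a;b,c)` for `t = [a, c]` -/
theorem cj_T (h : Inv4 G) {a b c : G} (ha : a * a = 1) (hb : b * b = 1) (hc : c * c = 1) :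
    cj (kk (kk a c) b) a = kk (kk a c) b * ww a b c := by
  have hta : Commute (kk a c) a := kk_left h ha hc
  rw [kk_eq (kk a c) b, cj_mul ha, (commute_iff_cj ha).mp hta, cj_e h ha hc hb, ww_symm h hc ha hb,
    mul_assoc]

/-- `[t, b]^c = [t, b] w(c;a,b)` for `t = [a, c]` -/
theorem cj_T' (h : Inv4 G) {a b c : G} (ha : a * a = 1) (hb : b * b = 1) (hc : c * c = 1) :
    cj (kk (kk a c) b) c = kk (kk a c) b * ww c a b := by
  rw [kk_comm h ha hc, cj_T h hc hb ha, ww_symm h hb hc ha]

/-- the element `T = [[a, c], b]` -/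
theorem T_sq (h : Inv4 G) {a b c : G} (ha : a * a = 1) (hb : b * b = 1) (hc : c * c = 1) :
    kk (kk a c) b * kk (kk a c) b = 1 := kk_sq h (kk_sq h ha hc) hb

/-- `b^(ac) b^(ca) = T w_a w_c` -/
theorem bac_bca (h : Inv4 G) {a b c : G} (ha : a * a = 1) (hb : b * b = 1) (hc : c * c = 1) :
    cj (cj b a) c * cj (cj b c) a = kk (kk a c) b * ww c a b * ww a b c := by
  have htt : kk a c * kk a c = 1 := kk_sq h ha hc
  have h1 : cj (cj (kk (kk a c) b) a) c = kk (kk a c) b * ww c a b * ww a b c := by
    rw [cj_T h ha hb hc, cj_mul hc, cj_T' h ha hb hc,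
      (commute_iff_cj hc).mp (ww_comm_right h hb ha hc)]
  rw [← h1, kk_comm h htt hb, kk_eq, cj_mul ha, cj_mul hc]
  congr 1
  show a * (c * b * c) * a = c * (a * (kk a c * b * kk a c) * a) * c
  have e1 : c * (a * (kk a c * b * kk a c) * a) * c = (c * a * kk a c) * b * (kk a c * (a * c)) := by
    simp only [mul_assoc]
  rw [e1, cat h ha hc, tac h ha hc]
  simp only [mul_assoc]

/-- `w(b;a,c)` commutes with `t = [a, c]` -/
theorem ww_comm_t (h : Inv4 G) {a b c : G} (ha : a * a = 1) (hb : b * b = 1) (hc : c * c = 1) :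
    Commute (ww b a c) (kk a c) := by
  have h1 : Commute (ww b a c) (a * c) :=
    (ww_comm_left h ha hb hc).mul_right (ww_comm_right h ha hb hc)
  exact h1.mul_right h1

/-- `(b a c)⁴ = w_a w_b w_c` -/
theorem om (h : Inv4 G) {a b c : G} (ha : a * a = 1) (hb : b * b = 1) (hc : c * c = 1) :
    (b * a * c) ^ 4 = ww a b c * ww b c a * ww c a b := by
  have htt : kk a c * kk a c = 1 := kk_sq h ha hc
  have e1 : (b * a * c) ^ 4 = b * cj (cj b c) a * cj b (kk a c) * cj (cj b a) c := by
    have i1 : (b * a * c) ^ 4 = b * (a * (c * b * c) * a) * (kk a c * b) * (a * c * b * (a * c)) := by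
      simp only [kk, pow_succ, pow_zero, one_mul, mul_assoc, cc ha, cc hc]
    have i2 : cj b (kk a c) * cj (cj b a) c = (kk a c * b) * (a * c * b * (a * c)) := by
      show kk a c * b * kk a c * (c * (a * b * a) * c) = _
      have i3 : kk a c * b * kk a c * (c * (a * b * a) * c) =
          kk a c * b * (kk a c * (c * a)) * b * (a * c) := by simp only [mul_assoc]
      rw [i3, tca h ha hc]
      simp only [mul_assoc]
    rw [i1, mul_assoc, ← i2]
    simp only [cj, mul_assoc]
  have hbt := cj_sq hb htt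
  have hbca := cj_sq (cj_sq hb hc) ha
  have hbac := cj_sq (cj_sq hb ha) hc
  have e2 : cj (cj (cj b c) a) (kk a c) = cj (cj b a) c := by
    show kk a c * (a * (c * b * c) * a) * kk a c = c * (a * b * a) * c
    have i3 : kk a c * (a * (c * b * c) * a) * kk a c =
        (kk a c * (a * c)) * b * ((c * a) * kk a c) := by simp only [mul_assoc]
    rw [i3, tac h ha hc, cat h ha hc]
    simp only [mul_assoc]
  have e3 : kk (cj (cj b c) a) (cj b (kk a c)) = ww b a c := by
    have i1 : cj (kk (cj (cj b c) a) (cj b (kk a c))) (kk a c) = ww b a c := by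
      rw [cj_kk htt, cj_cj htt, e2, kk_comm h hbac hb, ww_aux h ha hb hc]
    rw [← cj_cj (x := kk (cj (cj b c) a) (cj b (kk a c))) htt, i1]
    exact (commute_iff_cj htt).mp (ww_comm_t h ha hb hc)
  set T := kk (kk a c) b with hT
  have hTT : T * T = 1 := T_sq h ha hb hc
  have hTb : b * cj b (kk a c) = T := by rw [hT, kk_comm h htt hb, kk_eq b]
  have wab := ww_comm_self h hc hb ha
  have e4 : cj (cj b c) a * cj (cj b a) c = T * ww c a b * ww a b c := by
    rw [kk_comm h ha hc] at hT
    have := bac_bca h hc hb ha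
    rw [← hT, ww_symm h hc ha hb, ww_symm h hb hc ha] at this
    rw [this, mul_assoc, mul_assoc, (ww_ww h hc ha hb).eq]
  have wbt : Commute (ww b a c) (cj (cj b a) c) := by
    have k1 := ww_comm_self h ha hb hc
    have k2 := ww_comm_left h ha hb hc
    have k3 := ww_comm_right h ha hb hc
    exact (k3.mul_right ((k2.mul_right k1).mul_right k2)).mul_right k3
  calc (b * a * c) ^ 4 = b * (cj (cj b c) a * cj b (kk a c)) * cj (cj b a) c := by
        rw [e1]; simp only [mul_assoc]
    _ = b * (cj b (kk a c) * cj (cj b c) a * ww b a c) * cj (cj b a) c := by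
        rw [mul_comm_kk hbca hbt, e3]
    _ = (b * cj b (kk a c)) * cj (cj b c) a * (ww b a c * cj (cj b a) c) := by simp only [mul_assoc]
    _ = T * cj (cj b c) a * (cj (cj b a) c * ww b a c) := by rw [hTb, wbt.eq]
    _ = T * (cj (cj b c) a * cj (cj b a) c) * ww b a c := by simp only [mul_assoc]
    _ = (T * T) * (ww c a b * ww a b c * ww b a c) := by rw [e4]; simp only [mul_assoc]
    _ = ww c a b * ww a b c * ww b a c := by rw [hTT, one_mul]
    _ = ww a b c * ww b c a * ww c a b := by
        rw [ww_symm h ha hb hc, (ww_ww h hc ha hb).eq, mul_assoc, mul_assoc, (ww_ww h hb hc ha).eq]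

/-- the product of the three central elements -/
def omg (a b c : G) : G := ww a b c * ww b c a * ww c a b

/-- `[u, c] [u', c] = w(c;a,b)` for `u = [a, b]`, `u' = [a, b^c]` -/
theorem D_rel (h : Inv4 G) {a b c : G} (ha : a * a = 1) (hb : b * b = 1) (hc : c * c = 1) :
    kk (kk a b) c * kk (kk a (cj b c)) c = ww c a b := by
  have hba := cj_sq hb ha
  have hbc := cj_sq hb hc
  have htt : kk a c * kk a c = 1 := kk_sq h ha hc
  have hbca := cj_sq hbc ha
  have hbac := cj_sq hba hc
  -- evens: b, b^(ac), b^(ca); odds: b^a, b^c, b^(cac)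
  have c1 : Commute b (cj b a) := comm_cj h hb ha
  have c2 : Commute b (cj b c) := comm_cj h hb hc
  have c3 : Commute (cj b a) (cj (cj b a) c) := comm_cj h hba hc
  have c4 : Commute (cj b c) (cj (cj b a) c) := cj_comm hc c1
  have c5 : Commute (cj b c) (cj (cj b c) a) := comm_cj h hbc ha
  have c6 : Commute (cj b a) (cj (cj b c) a) := cj_comm ha c2
  have e1 : kk (kk a b) c = b * cj b a * (cj b c * cj (cj b a) c) := by
    rw [kk_eq (kk a b) c, kk_comm h ha hb, kk_eq b a, cj_mul hc]
  have e2 : kk (kk a (cj b c)) c = cj b c * cj (cj b c) a * (b * cj (cj (cj b c) a) c) := by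
    rw [kk_eq (kk a (cj b c)) c, kk_comm h ha hbc, kk_eq (cj b c) a, cj_mul hc, cj_cj hc]
  have e3 := bac_bca h ha hb hc
  have e4 := cj_T h ha hb hc
  have hTT := T_sq h ha hb hc
  have hTb : Commute (kk (kk a c) b) b := kk_right h htt hb
  set T := kk (kk a c) b with hT
  have e5 : cj b a * cj (cj (cj b c) a) c = T * ww a b c := by
    rw [← e4, hT, kk_comm h htt hb, kk_eq b, cj_mul ha]
    congr 1
    show c * (a * (c * b * c) * a) * c = a * (kk a c * b * kk a c) * a
    have i1 : a * (kk a c * b * kk a c) * a = (a * kk a c) * b * (kk a c * a) := by simp only [mul_assoc]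
    have i2 : a * kk a c = c * a * c := by simp only [kk, mul_assoc, cc ha]
    have i3 : kk a c * a = c * a * c := by
      rw [(kk_left h ha hc).eq, i2]
    rw [i1, i2, i3]
    simp only [mul_assoc]
  have wb : Commute (ww c a b * ww a b c) b :=
    (ww_comm_right h ha hc hb).mul_left (ww_comm_left h hb ha hc)
  have e6 : b * (T * ww c a b * ww a b c) * b = T * ww c a b * ww a b c := by
    rw [mul_assoc T, ← mul_assoc b, ← hTb.eq, mul_assoc, mul_assoc, wb.eq, cc hb]
  rw [e1, e2]
  calc b * cj b a * (cj b c * cj (cj b a) c) * (cj b c * cj (cj b c) a * (b * cj (cj (cj b c) a) c))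
      = b * cj b a * (cj (cj b a) c * cj b c) * (cj b c * cj (cj b c) a * (b * cj (cj (cj b c) a) c)) := by
        rw [c4.eq]
    _ = b * (cj b a * (cj (cj b a) c * cj (cj b c) a * b)) * cj (cj (cj b c) a) c := by
        simp only [mul_assoc, cc hbc]
    _ = b * ((cj (cj b a) c * cj (cj b c) a * b) * cj b a) * cj (cj (cj b c) a) c := by
        rw [((c3.mul_right c6).mul_right c1.symm).eq]
    _ = b * (cj (cj b a) c * cj (cj b c) a) * b * (cj b a * cj (cj (cj b c) a) c) := by
        simp only [mul_assoc]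
    _ = T * ww c a b * ww a b c * (T * ww a b c) := by rw [e3, e6, e5]
    _ = ww c a b := by
        have k1 : Commute (ww c a b) T :=
          comm_kk_right (comm_kk_right (ww_comm_left h ha hc hb) (ww_comm_self h ha hc hb))
            (ww_comm_right h ha hc hb)
        have k2 : Commute (ww a b c) T :=
          comm_kk_right (comm_kk_right (ww_comm_self h hb ha hc) (ww_comm_right h hb ha hc))
            (ww_comm_left h hb ha hc)
        have k3 := ww_sq h hb ha hc
        have k4 : Commute (ww c a b) (ww a b c) := ww_ww h hc ha hb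
        calc T * ww c a b * ww a b c * (T * ww a b c)
            = T * ww c a b * (ww a b c * T) * ww a b c := by simp only [mul_assoc]
          _ = T * (ww c a b * T) * (ww a b c * ww a b c) := by rw [k2.eq]; simp only [mul_assoc]
          _ = ww c a b := by rw [k1.eq, k3, mul_one, ← mul_assoc, hTT, one_mul]

end Pool.Agent.Helper46.SV
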